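import Mathlib

/-! # Absolutely continuous laws -/

set_option autoImplicit false

open Set Filter Topology MeasureTheory

namespace Pool.Agent.KS6_88.WF

/-- preimages of null sets under a function with nonvanishing derivative are null -/
theorem null_preimage {f : ℝ → ℝ} {D N : Set ℝ} (hD : IsOpen D)
    (hf : ∀ x ∈ D, DifferentiableAt ℝ f x) (hf' : ∀ x ∈ D, deriv f x ≠ 0)
    (hN : volume N = 0) : volume (D ∩ f ⁻¹' N) = 0 := by
  refine measure_null_of_locally_null _ fun x hx => ?_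
  obtain ⟨ε, hε, hball⟩ := Metric.isOpen_iff.1 hD x hx.1
  refine ⟨Metric.ball x ε ∩ (D ∩ f ⁻¹' N), inter_mem
    (mem_nhdsWithin_of_mem_nhds (Metric.ball_mem_nhds x hε)) self_mem_nhdsWithin, ?_⟩
  set B := Metric.ball x ε with hB
  set N' := toMeasurable volume N with hN'
  have hN'm : MeasurableSet N' := measurableSet_toMeasurable _ _
  have hN'0 : volume N' = 0 := by rw [hN', measure_toMeasurable, hN]
  have hBm : MeasurableSet B := Metric.isOpen_ball.measurableSet
  have hconv : Convex ℝ B := convex_ball x ε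
  have hinj : InjOn f B := by
    have h1 := hasDerivWithinAt_forall_lt_or_forall_gt_of_forall_ne hconv
      (f := f) (f' := deriv f) (m := 0)
      (fun y hy => (hf y (hball hy)).hasDerivAt.hasDerivWithinAt) (fun y hy => hf' y (hball hy))
    have hc : ContinuousOn f B := fun y hy => (hf y (hball hy)).continuousAt.continuousWithinAt
    rcases h1 with h1 | h1
    · exact (strictAntiOn_of_deriv_neg hconv hc
        (fun y hy => h1 y (interior_subset hy))).injOn
    · exact (strictMonoOn_of_deriv_pos hconv hc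
        (fun y hy => h1 y (interior_subset hy))).injOn
  have hc : ContinuousOn f B := fun y hy => (hf y (hball hy)).continuousAt.continuousWithinAt
  have hsm : MeasurableSet (B ∩ f ⁻¹' N') := by
    classical
    have h1 : Measurable (B.piecewise f (fun _ => (0 : ℝ))) :=
      hc.measurable_piecewise continuousOn_const hBm
    have h2 : B ∩ f ⁻¹' N' = B ∩ (B.piecewise f (fun _ => (0 : ℝ))) ⁻¹' N' := by
      ext y
      constructor
      · rintro ⟨hy, hy2⟩
        exact ⟨hy, by rw [mem_preimage, piecewise_eq_of_mem _ _ _ hy]; exact hy2⟩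
      · rintro ⟨hy, hy2⟩
        rw [mem_preimage, piecewise_eq_of_mem _ _ _ hy] at hy2
        exact ⟨hy, hy2⟩
    rw [h2]
    exact hBm.inter (h1 hN'm)
  have h3 := lintegral_image_eq_lintegral_abs_deriv_mul hsm (f := f) (f' := deriv f)
    (fun y hy => (hf y (hball hy.1)).hasDerivAt.hasDerivWithinAt) (hinj.mono inter_subset_left)
    (fun _ => 1)
  have h4 : volume (f '' (B ∩ f ⁻¹' N')) = 0 := by
    refine measure_mono_null ?_ hN'0
    rintro _ ⟨y, hy, rfl⟩
    exact hy.2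
  rw [setLIntegral_one, h4] at h3
  simp only [mul_one] at h3
  have h5 := (lintegral_eq_zero_iff ((measurable_deriv f).abs.ennreal_ofReal)).1 h3.symm
  have h6 : ∀ᵐ y ∂(volume.restrict (B ∩ f ⁻¹' N')), False := by
    filter_upwards [h5, ae_restrict_mem hsm] with y hy hy2
    have h7 := hf' y (hball hy2.1)
    simp only [Pi.zero_apply, ENNReal.ofReal_eq_zero, abs_nonpos_iff] at hy
    exact h7 hy
  rw [ae_iff] at h6
  simp only [not_false_eq_true] at h6
  have h7 : volume (B ∩ f ⁻¹' N') = 0 := by simpa using h6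
  refine measure_mono_null ?_ h7
  rintro y ⟨hy, _, hy2⟩
  exact ⟨hy, subset_toMeasurable _ _ hy2⟩

theorem null_affine {A B : ℝ} (hAB : A ≠ 0 ∨ B ≠ 0) : volume {x : ℝ | A + B * x = 0} = 0 := by
  refine Set.Subsingleton.measure_zero (fun x hx y hy => ?_) _
  have hx' : A + B * x = 0 := hx
  have hy' : A + B * y = 0 := hy
  rcases eq_or_ne B 0 with hB | hB
  · subst hB
    rcases hAB with hA | hB
    · exact absurd (by linarith) hA
    · exact absurd rfl hB
  · have h1 : B * (x - y) = 0 := by linarith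
    rcases mul_eq_zero.1 h1 with h2 | h2
    · exact absurd h2 hB
    · linarith

theorem hasDerivAt_N1 (A B x : ℝ) :
    HasDerivAt (fun x => B * Real.sin x - (A + B * x) * Real.cos x)
      ((A + B * x) * Real.sin x) x := by
  have h1 := ((Real.hasDerivAt_sin x).const_mul B).sub
    ((((hasDerivAt_id' x).const_mul B).const_add A).mul (Real.hasDerivAt_cos x))
  refine h1.congr_deriv ?_
  ring

theorem hasDerivAt_E (A B x : ℝ) (hx : Real.sin x ≠ 0) :
    HasDerivAt (fun x => (A + B * x) / Real.sin x)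
      ((B * Real.sin x - (A + B * x) * Real.cos x) / Real.sin x ^ 2) x := by
  have h1 := (((hasDerivAt_id' x).const_mul B).const_add A).fun_div (Real.hasDerivAt_sin x) hx
  refine h1.congr_deriv ?_
  congr 1
  ring

theorem null_N1 {A B : ℝ} (hAB : A ≠ 0 ∨ B ≠ 0) :
    volume (Ioo 0 Real.pi ∩ {x | B * Real.sin x - (A + B * x) * Real.cos x = 0}) = 0 := by
  have hD : IsOpen (Ioo 0 Real.pi ∩ {x : ℝ | A + B * x ≠ 0}) :=
    isOpen_Ioo.inter (isOpen_ne_fun (by fun_prop) continuous_const)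
  have h1 := null_preimage (f := fun x => B * Real.sin x - (A + B * x) * Real.cos x) (N := {0}) hD
    (fun x _ => (hasDerivAt_N1 A B x).differentiableAt)
    (fun x hx => by
      rw [(hasDerivAt_N1 A B x).deriv]
      exact mul_ne_zero hx.2 (Real.sin_pos_of_mem_Ioo hx.1).ne') (by simp)
  refine measure_mono_null ?_ (measure_union_null h1 (null_affine hAB))
  rintro x ⟨hx1, hx2⟩
  by_cases h : A + B * x = 0
  · exact Or.inr h
  · exact Or.inl ⟨⟨hx1, h⟩, hx2⟩

theorem null_E {A B : ℝ} (hAB : A ≠ 0 ∨ B ≠ 0) {N : Set ℝ} (hN : volume N = 0) :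
    volume (Ioo 0 Real.pi ∩ (fun x => (A + B * x) / Real.sin x) ⁻¹' N) = 0 := by
  have hD : IsOpen (Ioo 0 Real.pi ∩ {x : ℝ | B * Real.sin x - (A + B * x) * Real.cos x ≠ 0}) :=
    isOpen_Ioo.inter (isOpen_ne_fun (by fun_prop) continuous_const)
  have h1 := null_preimage (f := fun x => (A + B * x) / Real.sin x) (N := N) hD
    (fun x hx => (hasDerivAt_E A B x (Real.sin_pos_of_mem_Ioo hx.1).ne').differentiableAt)
    (fun x hx => by
      rw [(hasDerivAt_E A B x (Real.sin_pos_of_mem_Ioo hx.1).ne').deriv]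
      exact div_ne_zero hx.2 (pow_ne_zero 2 (Real.sin_pos_of_mem_Ioo hx.1).ne')) hN
  refine measure_mono_null ?_ (measure_union_null h1 (null_N1 hAB))
  rintro x ⟨hx1, hx2⟩
  by_cases h : B * Real.sin x - (A + B * x) * Real.cos x = 0
  · exact Or.inr ⟨hx1, h⟩
  · exact Or.inl ⟨⟨hx1, h⟩, hx2⟩

theorem hasDerivAt_th {ρ x : ℝ} (hρ : ρ < 1) (hx : |x| < ρ) :
    HasDerivAt (fun x => Real.arccos (Real.sqrt (ρ ^ 2 - x ^ 2)))
      (x / (Real.sqrt (1 - Real.sqrt (ρ ^ 2 - x ^ 2) ^ 2) * Real.sqrt (ρ ^ 2 - x ^ 2))) x := by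
  have h0 : 0 < ρ ^ 2 - x ^ 2 := by
    rw [abs_lt] at hx
    nlinarith [hx.1, hx.2]
  have h2 : ρ ^ 2 - x ^ 2 < 1 := by
    have := abs_nonneg x
    nlinarith [sq_nonneg x]
  have h1 : HasDerivAt (fun x : ℝ => ρ ^ 2 - x ^ 2) (-(2 * x)) x := by
    have := ((hasDerivAt_id' x).pow 2).const_sub (ρ ^ 2)
    refine this.congr_deriv ?_
    simp
  have h3 := h1.sqrt h0.ne'
  have h4 : Real.sqrt (ρ ^ 2 - x ^ 2) < 1 := by
    rw [Real.sqrt_lt' one_pos]
    linarith
  have h5 := (Real.hasDerivAt_arccos (x := Real.sqrt (ρ ^ 2 - x ^ 2))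
    (by have := Real.sqrt_nonneg (ρ ^ 2 - x ^ 2); linarith) h4.ne)
  have h6 := HasDerivAt.comp x h5 h3
  refine h6.congr_deriv ?_
  have h7 : 0 < Real.sqrt (ρ ^ 2 - x ^ 2) := Real.sqrt_pos.2 h0
  have h8 : 0 < Real.sqrt (1 - Real.sqrt (ρ ^ 2 - x ^ 2) ^ 2) := by
    rw [Real.sqrt_pos]
    nlinarith
  field_simp

theorem null_th {ρ : ℝ} (hρ : ρ < 1) {N : Set ℝ} (hN : volume N = 0) :
    volume ({x : ℝ | |x| < ρ ∧ x ≠ 0} ∩
      (fun x => Real.arccos (Real.sqrt (ρ ^ 2 - x ^ 2))) ⁻¹' N) = 0 := by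
  have hD : IsOpen {x : ℝ | |x| < ρ ∧ x ≠ 0} :=
    (isOpen_lt continuous_abs continuous_const).inter (isOpen_ne_fun continuous_id continuous_const)
  refine null_preimage hD (fun x hx => (hasDerivAt_th hρ hx.1).differentiableAt) (fun x hx => ?_) hN
  rw [(hasDerivAt_th hρ hx.1).deriv]
  obtain ⟨hx1, hx2⟩ := hx
  have h0 : 0 < ρ ^ 2 - x ^ 2 := by
    rw [abs_lt] at hx1
    nlinarith [hx1.1, hx1.2]
  have h2 : ρ ^ 2 - x ^ 2 < 1 := by
    have := abs_nonneg x
    nlinarith [sq_nonneg x]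
  refine div_ne_zero hx2 (mul_ne_zero ?_ (Real.sqrt_pos.2 h0).ne')
  rw [Real.sq_sqrt h0.le]
  exact (Real.sqrt_pos.2 (by linarith)).ne'

end Pool.Agent.KS6_88.WF
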