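import Pool.Agent.KS6_88.WF.Cont

/-! # Absolute continuity of the frequencies of the paths between two spheres -/

set_option autoImplicit false

open Set Filter Topology MeasureTheory
open scoped RealInnerProductSpace

namespace Pool.Agent.KS6_88.WF

/-- rotation per leg -/
noncomputable def dl (α x : ℝ) : ℝ := Real.arccos x - Real.arccos (x / α)

/-- length of a leg -/
noncomputable def lg (α x : ℝ) : ℝ := Real.sqrt (1 - x ^ 2) - Real.sqrt (α ^ 2 - x ^ 2)

theorem continuous_dl (α : ℝ) : Continuous (dl α) := by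
  unfold dl
  exact Real.continuous_arccos.sub (Real.continuous_arccos.comp (by fun_prop))

theorem continuous_lg (α : ℝ) : Continuous (lg α) := by
  unfold lg
  fun_prop

section
variable {α x : ℝ} (h0 : 0 < α) (h1 : α < 1) (hx : x ∈ Ioo 0 α)
include h0 h1 hx

omit h1 in
theorem sq_pos_in : 0 < α ^ 2 - x ^ 2 := by
  have := hx.1
  have := hx.2
  nlinarith

omit hx in
theorem sq_lt_out : α ^ 2 - x ^ 2 < 1 - x ^ 2 := by
  nlinarith

theorem lg_pos : 0 < lg α x := by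
  unfold lg
  exact sub_pos.2 (Real.sqrt_lt_sqrt (sq_pos_in h0 hx).le (sq_lt_out (x := x) h0 h1))

theorem prod_pos : 0 < Real.sqrt (1 - x ^ 2) * Real.sqrt (α ^ 2 - x ^ 2) :=
  mul_pos (Real.sqrt_pos.2 ((sq_pos_in h0 hx).trans (sq_lt_out (x := x) h0 h1)))
    (Real.sqrt_pos.2 (sq_pos_in h0 hx))

theorem hasDerivAt_dl : HasDerivAt (dl α)
    (lg α x / (Real.sqrt (1 - x ^ 2) * Real.sqrt (α ^ 2 - x ^ 2))) x := by
  have hx0 := hx.1
  have hx1 := hx.2
  have h2 := Real.hasDerivAt_arccos (x := x) (by linarith) (by linarith)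
  have h3 : x / α < 1 := by rw [div_lt_one h0]; exact hx1
  have h4 : 0 < x / α := div_pos hx0 h0
  have h5 := Real.hasDerivAt_arccos (x := x / α) (by linarith) h3.ne
  have h6 : HasDerivAt (fun y : ℝ => y / α) (1 / α) x := (hasDerivAt_id' x).div_const α
  have h7 := HasDerivAt.comp x h5 h6
  have h8 := h2.sub h7
  refine h8.congr_deriv ?_
  have h9 : Real.sqrt (1 - (x / α) ^ 2) = Real.sqrt (α ^ 2 - x ^ 2) / α := by
    have : 1 - (x / α) ^ 2 = (α ^ 2 - x ^ 2) / α ^ 2 := by field_simp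
    rw [this, Real.sqrt_div (sq_pos_in h0 hx).le, Real.sqrt_sq h0.le]
  rw [h9]
  have h10 := Real.sqrt_pos.2 ((sq_pos_in h0 hx).trans (sq_lt_out (x := x) h0 h1))
  have h11 := Real.sqrt_pos.2 (sq_pos_in h0 hx)
  unfold lg
  field_simp
  ring

theorem hasDerivAt_lg : HasDerivAt (lg α)
    (x * lg α x / (Real.sqrt (1 - x ^ 2) * Real.sqrt (α ^ 2 - x ^ 2))) x := by
  have h2 : HasDerivAt (fun y : ℝ => 1 - y ^ 2) (-(2 * x)) x := by
    have := ((hasDerivAt_id' x).pow 2).const_sub 1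
    refine this.congr_deriv ?_
    simp
  have h3 : HasDerivAt (fun y : ℝ => α ^ 2 - y ^ 2) (-(2 * x)) x := by
    have := ((hasDerivAt_id' x).pow 2).const_sub (α ^ 2)
    refine this.congr_deriv ?_
    simp
  have h4 := h2.sqrt ((sq_pos_in h0 hx).trans (sq_lt_out (x := x) h0 h1)).ne'
  have h5 := h3.sqrt (sq_pos_in h0 hx).ne'
  have h8 := h4.sub h5
  refine h8.congr_deriv ?_
  have h10 := Real.sqrt_pos.2 ((sq_pos_in h0 hx).trans (sq_lt_out (x := x) h0 h1))
  have h11 := Real.sqrt_pos.2 (sq_pos_in h0 hx)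
  unfold lg
  field_simp
  ring

theorem hasDerivAt_MS (A B : ℝ) : HasDerivAt (fun y => A + B * dl α y)
    (B * (lg α x / (Real.sqrt (1 - x ^ 2) * Real.sqrt (α ^ 2 - x ^ 2)))) x :=
  ((hasDerivAt_dl h0 h1 hx).const_mul B).const_add A

theorem hasDerivAt_NS (A B : ℝ) : HasDerivAt (fun y => B * lg α y - (A + B * dl α y) * y)
    (-(A + B * dl α x)) x := by
  have h2 := ((hasDerivAt_lg h0 h1 hx).const_mul B).sub
    ((hasDerivAt_MS h0 h1 hx A B).mul (hasDerivAt_id' x))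
  refine h2.congr_deriv ?_
  ring

theorem hasDerivAt_ES (A B : ℝ) : HasDerivAt (fun y => (A + B * dl α y) / lg α y)
    ((B * lg α x - (A + B * dl α x) * x) /
      (Real.sqrt (1 - x ^ 2) * Real.sqrt (α ^ 2 - x ^ 2) * lg α x)) x := by
  have hl := lg_pos h0 h1 hx
  have h2 := (hasDerivAt_MS h0 h1 hx A B).fun_div (hasDerivAt_lg h0 h1 hx) hl.ne'
  refine h2.congr_deriv ?_
  have h10 := Real.sqrt_pos.2 ((sq_pos_in h0 hx).trans (sq_lt_out (x := x) h0 h1))
  have h11 := Real.sqrt_pos.2 (sq_pos_in h0 hx)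
  field_simp

end

section
variable {α : ℝ} (h0 : 0 < α) (h1 : α < 1) {A B : ℝ} (hAB : A ≠ 0 ∨ B ≠ 0)
include h0 h1 hAB

theorem null_MS : volume (Ioo 0 α ∩ {x | A + B * dl α x = 0}) = 0 := by
  rcases eq_or_ne B 0 with hB | hB
  · subst hB
    rcases hAB with hA | hB
    · have : Ioo 0 α ∩ {x | A + 0 * dl α x = 0} = ∅ := by
        ext x
        simp [hA]
      rw [this, measure_empty]
    · exact absurd rfl hB
  · have h2 := null_preimage (D := Ioo 0 α) (f := fun y => A + B * dl α y) (N := {0}) isOpen_Ioo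
      (fun x hx => (hasDerivAt_MS h0 h1 hx A B).differentiableAt)
      (fun x hx => by
        rw [(hasDerivAt_MS h0 h1 hx A B).deriv]
        exact mul_ne_zero hB (div_pos (lg_pos h0 h1 hx) (prod_pos h0 h1 hx)).ne') (by simp)
    exact h2

theorem null_NS : volume (Ioo 0 α ∩ {x | B * lg α x - (A + B * dl α x) * x = 0}) = 0 := by
  have hc := continuous_dl α
  have hl := continuous_lg α
  have hD : IsOpen (Ioo 0 α ∩ {x : ℝ | A + B * dl α x ≠ 0}) :=
    isOpen_Ioo.inter (isOpen_ne_fun (by fun_prop) continuous_const)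
  have h2 := null_preimage (f := fun x => B * lg α x - (A + B * dl α x) * x) (N := {0}) hD
    (fun x hx => (hasDerivAt_NS h0 h1 hx.1 A B).differentiableAt)
    (fun x hx => by
      rw [(hasDerivAt_NS h0 h1 hx.1 A B).deriv]
      exact neg_ne_zero.2 hx.2) (by simp)
  refine measure_mono_null ?_ (measure_union_null h2 (null_MS h0 h1 hAB))
  rintro x ⟨hx1, hx2⟩
  by_cases h : A + B * dl α x = 0
  · exact Or.inr ⟨hx1, h⟩
  · exact Or.inl ⟨⟨hx1, h⟩, hx2⟩

theorem null_ES {N : Set ℝ} (hN : volume N = 0) :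
    volume (Ioo 0 α ∩ (fun x => (A + B * dl α x) / lg α x) ⁻¹' N) = 0 := by
  have hc := continuous_dl α
  have hl := continuous_lg α
  have hD : IsOpen (Ioo 0 α ∩ {x : ℝ | B * lg α x - (A + B * dl α x) * x ≠ 0}) :=
    isOpen_Ioo.inter (isOpen_ne_fun (by fun_prop) continuous_const)
  have h2 := null_preimage (f := fun x => (A + B * dl α x) / lg α x) (N := N) hD
    (fun x hx => (hasDerivAt_ES h0 h1 hx.1 A B).differentiableAt)
    (fun x hx => by
      rw [(hasDerivAt_ES h0 h1 hx.1 A B).deriv]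
      exact div_ne_zero hx.2 (mul_pos (prod_pos h0 h1 hx.1) (lg_pos h0 h1 hx.1)).ne') hN
  refine measure_mono_null ?_ (measure_union_null h2 (null_NS h0 h1 hAB))
  rintro x ⟨hx1, hx2⟩
  by_cases h : B * lg α x - (A + B * dl α x) * x = 0
  · exact Or.inr ⟨hx1, h⟩
  · exact Or.inl ⟨⟨hx1, h⟩, hx2⟩

end

theorem null_sq {ρ : ℝ} {N : Set ℝ} (hN : volume N = 0) :
    volume ({x : ℝ | |x| < ρ ∧ x ≠ 0} ∩ (fun x => Real.sqrt (ρ ^ 2 - x ^ 2)) ⁻¹' N) = 0 := by
  have hD : IsOpen {x : ℝ | |x| < ρ ∧ x ≠ 0} :=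
    (isOpen_lt continuous_abs continuous_const).inter (isOpen_ne_fun continuous_id continuous_const)
  have hd : ∀ x ∈ {x : ℝ | |x| < ρ ∧ x ≠ 0},
      HasDerivAt (fun x => Real.sqrt (ρ ^ 2 - x ^ 2)) (-(2 * x) / (2 * Real.sqrt (ρ ^ 2 - x ^ 2)))
        x ∧ 0 < Real.sqrt (ρ ^ 2 - x ^ 2) := by
    intro x hx
    have h0 : 0 < ρ ^ 2 - x ^ 2 := by
      have h1 := abs_lt.1 hx.1
      nlinarith [h1.1, h1.2]
    have h1 : HasDerivAt (fun x : ℝ => ρ ^ 2 - x ^ 2) (-(2 * x)) x := by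
      have := ((hasDerivAt_id' x).pow 2).const_sub (ρ ^ 2)
      refine this.congr_deriv ?_
      simp
    exact ⟨h1.sqrt h0.ne', Real.sqrt_pos.2 h0⟩
  refine null_preimage hD (fun x hx => (hd x hx).1.differentiableAt) (fun x hx => ?_) hN
  rw [(hd x hx).1.deriv]
  have h2 := (hd x hx).2
  refine div_ne_zero (neg_ne_zero.2 (mul_ne_zero two_ne_zero hx.2)) (by positivity)

end Pool.Agent.KS6_88.WF
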