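import Pool.Agent.KS6_88.WF.Model

/-! # Similarities -/

set_option autoImplicit false

open Set Filter Topology MeasureTheory
open scoped RealInnerProductSpace

namespace Pool.Agent.KS6_88.WF

open Pool.Agent.H800R2

variable {n : ℕ}

/-- the similarity `x ↦ c' + a x` -/
noncomputable def simH (c' : Euc n) {a : ℝ} (ha : 0 < a) : Euc n ≃ₜ Euc n :=
  (Homeomorph.smulOfNeZero a ha.ne').trans (Homeomorph.addLeft c')

theorem simH_apply (c' : Euc n) {a : ℝ} (ha : 0 < a) (x : Euc n) :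
    simH c' ha x = c' + a • x := rfl

theorem gradient_sim {F : Euc n → ℝ} (hF : ContDiff ℝ (⊤ : ℕ∞) F) (c' : Euc n) {a : ℝ}
    (ha : 0 < a) (x : Euc n) :
    gradient (fun y => F (a⁻¹ • (y - c'))) (c' + a • x) = a⁻¹ • gradient F x := by
  have hx : a⁻¹ • (c' + a • x - c') = x := by
    rw [add_sub_cancel_left, smul_smul, inv_mul_cancel₀ ha.ne', one_smul]
  have h1 : HasGradientAt F (gradient F x) x :=
    (hF.differentiable (by simp)).differentiableAt.hasGradientAt
  refine HasGradientAt.gradient ?_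
  rw [hasGradientAt_iff_hasFDerivAt] at h1 ⊢
  have h2 : HasFDerivAt (fun y : Euc n => a⁻¹ • (y - c'))
      (a⁻¹ • ContinuousLinearMap.id ℝ (Euc n)) (c' + a • x) :=
    ((hasFDerivAt_id (c' + a • x)).sub_const c').const_smul a⁻¹
  have h3 : HasFDerivAt (fun y => F (a⁻¹ • (y - c')))
      (((InnerProductSpace.toDual ℝ (Euc n)) (gradient F x)).comp
        (a⁻¹ • ContinuousLinearMap.id ℝ (Euc n))) (c' + a • x) := by
    refine HasFDerivAt.comp (g := F) (c' + a • x) ?_ h2
    rw [hx]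
    exact h1
  refine h3.congr_fderiv ?_
  ext w
  simp

theorem isDefFun_sim {Ω Ω' : Set (Euc n)} {c' : Euc n} {a : ℝ} (ha : 0 < a)
    (hΩ : ∀ x, x ∈ Ω ↔ c' + a • x ∈ Ω') {x : Euc n} {F : Euc n → ℝ} (h : IsDefFun Ω x F) :
    IsDefFun Ω' (c' + a • x) (fun y => F (a⁻¹ • (y - c'))) := by
  obtain ⟨h1, h2, h3⟩ := h
  refine ⟨h1.comp (by fun_prop), ?_, ?_⟩
  · rw [gradient_sim h1 c' ha]
    exact smul_ne_zero (inv_pos.2 ha).ne' h2
  · have hc : Tendsto (fun y : Euc n => a⁻¹ • (y - c')) (𝓝 (c' + a • x)) (𝓝 x) := by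
      have hcont : Continuous (fun y : Euc n => a⁻¹ • (y - c')) := by fun_prop
      have h4 := hcont.tendsto (c' + a • x)
      rw [add_sub_cancel_left, smul_smul, inv_mul_cancel₀ ha.ne', one_smul] at h4
      exact h4
    filter_upwards [hc.eventually h3] with y hy
    rw [← hy, hΩ, smul_smul, mul_inv_cancel₀ ha.ne', one_smul, add_sub_cancel]

theorem isOuterNormal_sim {Ω Ω' : Set (Euc n)} {c' : Euc n} {a : ℝ} (ha : 0 < a)
    (hΩ : ∀ x, x ∈ Ω ↔ c' + a • x ∈ Ω') {x ν : Euc n} (h : IsOuterNormal Ω x ν) :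
    IsOuterNormal Ω' (c' + a • x) ν := by
  obtain ⟨F, hF, rfl⟩ := h
  refine ⟨_, isDefFun_sim ha hΩ hF, ?_⟩
  rw [gradient_sim hF.1 c' ha, norm_smul, norm_inv, Real.norm_of_nonneg ha.le, smul_smul]
  congr 1
  have := norm_pos_iff.2 hF.2.1
  field_simp

theorem frontier_sim {Ω Ω' : Set (Euc n)} {c' : Euc n} {a : ℝ} (ha : 0 < a)
    (hΩ : ∀ x, x ∈ Ω ↔ c' + a • x ∈ Ω') {x : Euc n} (h : x ∈ frontier Ω) :
    c' + a • x ∈ frontier Ω' := by
  have h1 : Ω = simH c' ha ⁻¹' Ω' := by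
    ext y
    rw [mem_preimage, simH_apply, hΩ]
  rw [h1, ← Homeomorph.preimage_frontier] at h
  exact h

theorem closure_sim {Ω Ω' : Set (Euc n)} {c' : Euc n} {a : ℝ} (ha : 0 < a)
    (hΩ : ∀ x, x ∈ Ω ↔ c' + a • x ∈ Ω') {x : Euc n} (h : x ∈ closure Ω) :
    c' + a • x ∈ closure Ω' := by
  have h1 : Ω = simH c' ha ⁻¹' Ω' := by
    ext y
    rw [mem_preimage, simH_apply, hΩ]
  rw [h1, ← Homeomorph.preimage_closure] at h
  exact h

/-- photons are mapped to photons by similarities -/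
theorem photon_sim {Ω Ω' : Set (Euc n)} {c' : Euc n} {a : ℝ} (ha : 0 < a)
    (hΩ : ∀ x, x ∈ Ω ↔ c' + a • x ∈ Ω') {p v q : Euc n} {t : ℝ} (h : Photon Ω p v t q) :
    Photon Ω' (c' + a • p) v (a * t) (c' + a • q) := by
  have hline : ∀ (p v : Euc n) (s : ℝ), c' + a • p + (a * s) • v = c' + a • (p + s • v) := by
    intro p v s
    rw [mul_smul]
    module
  induction h with
  | fly p v t ht hin =>
    have h1 := Photon.fly (Ω := Ω') (c' + a • p) v (a * t)
      (by positivity) (fun s hs => by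
        have h2 : s = a * (s / a) := by field_simp
        rw [h2, hline]
        exact (hΩ _).1 (hin (s / a) ⟨div_pos hs.1 ha, by rw [div_le_iff₀ ha]; linarith [hs.2]⟩))
    rwa [hline] at h1
  | bounce p v ν q τ t hτ hin hb hν hv0 hph ih =>
    rw [mul_add]
    refine Photon.bounce _ v ν _ (a * τ) (a * t) (by positivity) (fun s hs => ?_) ?_ ?_ hv0 ?_
    · have h2 : s = a * (s / a) := by field_simp
      rw [h2, hline]
      exact (hΩ _).1 (hin (s / a) ⟨div_pos hs.1 ha, by rw [div_lt_iff₀ ha]; linarith [hs.2]⟩)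
    · rw [hline]
      exact frontier_sim ha hΩ hb
    · rw [hline]
      exact isOuterNormal_sim ha hΩ hν
    · rw [hline]
      exact ih

theorem TorusModel.sim {Ω Ω' : Set (Euc n)} {P : Euc n} {V : Set (Sp n)}
    {G : Sp n → UnitAddTorus (Fin 2) → Euc n} {ω : Sp n → Fin 2 → ℝ} {C : ℝ}
    (M : TorusModel Ω P V G ω C) {c' : Euc n} {a : ℝ} (ha : 0 < a)
    (hΩ : ∀ x, x ∈ Ω ↔ c' + a • x ∈ Ω') :
    TorusModel Ω' (c' + a • P) V (fun v z => c' + a • G v z) (fun v i => a⁻¹ * ω v i)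
      (‖c'‖ + a * C) where
  isOpen := M.isOpen
  null := M.null
  cont v := continuous_const.add ((M.cont v).const_smul a)
  contOn := continuous_const.add (M.contOn.const_smul a)
  bound v hv z := by
    refine (norm_add_le _ _).trans (add_le_add_right ?_ _)
    rw [norm_smul, Real.norm_of_nonneg ha.le]
    exact mul_le_mul_of_nonneg_left (M.bound v hv z) ha.le
  meas := by
    refine measurable_pi_lambda _ fun i => ?_
    exact ((measurable_pi_apply i).comp M.meas).const_mul _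
  freq k hk N hN := by
    have h1 : volume ((fun x => a⁻¹ * x) ⁻¹' N) = 0 := by
      rw [Real.volume_preimage_mul_left (inv_pos.2 ha).ne', hN, mul_zero]
    have h2 := M.freq k hk _ h1
    refine measure_mono_null ?_ h2
    intro v hv
    simp only [mem_ofPred_eq, mem_preimage] at hv ⊢
    have h3 : a⁻¹ * ∑ i, (k i : ℝ) * ω v i = ∑ i, (k i : ℝ) * (a⁻¹ * ω v i) := by
      rw [Finset.mul_sum]
      refine Finset.sum_congr rfl fun i _ => by ring
    rw [h3]
    exact hv
  photon v hv t ht := by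
    have h1 := M.photon v hv (t / a) (div_nonneg ht ha.le)
    have h2 := photon_sim (c' := c') ha hΩ h1
    have h3 : a * (t / a) = t := by field_simp
    have h4 : wr (t / a) (ω v) = wr t (fun i => a⁻¹ * ω v i) := by
      unfold wr
      funext i
      congr 1
      rw [div_eq_mul_inv]
      ring
    rw [h3, h4] at h2
    exact h2
  full U hU hUΩ := by
    obtain ⟨x, hxU, hxΩ⟩ := hUΩ
    have h1 : IsOpen ((fun y : Euc n => c' + a • y) ⁻¹' U) :=
      hU.preimage (by fun_prop)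
    have hx : c' + a • (a⁻¹ • (x - c')) = x := by
      rw [smul_smul, mul_inv_cancel₀ ha.ne', one_smul, add_sub_cancel]
    obtain ⟨v, hv, z, hz⟩ := M.full _ h1 ⟨a⁻¹ • (x - c'), by
      rw [mem_preimage, hx]
      exact hxU, by
      rw [hΩ, hx]
      exact hxΩ⟩
    exact ⟨v, hv, z, hz⟩
  inside v hv z := closure_sim ha hΩ (M.inside v hv z)

end Pool.Agent.KS6_88.WF
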