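import Pool.Agent.KS6_88.WF.Om
import Pool.Agent.KS6_88.WF.Sim
import Pool.Graph.R_seed8.H800R2.BallDense

/-! # The torus model of the unit ball -/

set_option autoImplicit false

open Set Filter Topology MeasureTheory
open scoped RealInnerProductSpace

namespace Pool.Agent.KS6_88.WF

open Pool.Agent.H800R2 Pool.Agent.H800R2.Ball

variable {n : ℕ}

/-- a direction `v` with a given plane and with a chord close to the centre -/
theorem exists_dir (hn : 2 ≤ n) {P : Euc n} (hP : P ≠ 0) (x : Euc n) {δ : ℝ} (hδ : 0 < δ) :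
    ∃ v : Euc n, ‖v‖ = 1 ∧ 0 < mv P v ∧ mv P v < δ ∧
      ∃ w : ℂ, ‖w‖ = ‖x‖ ∧ x = pl v (bv P v) w := by
  obtain ⟨a, b, ha, hb, hab, hPa, z, hz⟩ := exists_pair hn P x hP
  have hρ : 0 < ‖P‖ := norm_pos_iff.2 hP
  obtain ⟨α, hα0, hα1, hα2⟩ : ∃ α : ℝ, 0 < α ∧ α < 1 ∧ ‖P‖ * α < δ := by
    refine ⟨min (1 / 2) (δ / (2 * ‖P‖)), lt_min (by norm_num) (by positivity),
      (min_le_left _ _).trans_lt (by norm_num), ?_⟩
    calc ‖P‖ * min (1 / 2) (δ / (2 * ‖P‖)) ≤ ‖P‖ * (δ / (2 * ‖P‖)) :=
          mul_le_mul_of_nonneg_left (min_le_right _ _) hρ.le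
      _ = δ / 2 := by field_simp
      _ < δ := by linarith
  have hpi := Real.pi_gt_three
  have hs : 0 < Real.sin α := Real.sin_pos_of_pos_of_lt_pi hα0 (by linarith)
  have hs2 : Real.sin α < α := Real.sin_lt hα0
  set v : Euc n := Real.cos α • a + Real.sin α • b with hv
  have hba : ⟪b, a⟫ = 0 := by rw [real_inner_comm]; exact hab
  have hPv : ⟪P, v⟫ = ‖P‖ * Real.cos α := by
    have hPa' : P = ‖P‖ • a := by
      have h := hPa
      unfold pl at h
      rw [Complex.ofReal_re, Complex.ofReal_im, zero_smul, add_zero] at h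
      exact h
    rw [hv]
    conv_lhs => rw [hPa']
    rw [inner_add_right, real_inner_smul_left, real_inner_smul_left, real_inner_smul_right,
      real_inner_smul_right, real_inner_self_eq_norm_sq, ha, hab]
    ring
  have hv1 : ‖v‖ = 1 := by
    have h1 : ‖v‖ ^ 2 = 1 := by
      rw [hv, @norm_add_sq_real, norm_smul, norm_smul, ha, hb, real_inner_smul_left,
        real_inner_smul_right, hab]
      simp only [Real.norm_eq_abs, mul_one, sq_abs, mul_zero, add_zero]
      exact Real.cos_sq_add_sin_sq α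
    have h2 := norm_nonneg v
    nlinarith
  have hm : mv P v = ‖P‖ * Real.sin α := by
    unfold mv
    rw [hPv]
    have h1 : ‖P‖ ^ 2 - (‖P‖ * Real.cos α) ^ 2 = (‖P‖ * Real.sin α) ^ 2 := by
      have := Real.sin_sq_add_cos_sq α
      linear_combination (-‖P‖ ^ 2) * this
    rw [h1, Real.sqrt_sq (by positivity)]
  have hm0 : 0 < mv P v := by rw [hm]; positivity
  refine ⟨v, hv1, hm0, ?_, ?_⟩
  · rw [hm]
    calc ‖P‖ * Real.sin α ≤ ‖P‖ * α := mul_le_mul_of_nonneg_left hs2.le hρ.le
      _ < δ := hα2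
  · obtain ⟨h1, h2, h3⟩ := bv_spec hv1 hm0
    -- `a` and `b` in terms of `v` and `bv P v`
    have ha' : a = Real.cos α • v - Real.sin α • bv P v := by
      have hPa' : P = ‖P‖ • a := by
        have h := hPa
        unfold pl at h
        rw [Complex.ofReal_re, Complex.ofReal_im, zero_smul, add_zero] at h
        exact h
      have h4 : ‖P‖ • a = ‖P‖ • (Real.cos α • v - Real.sin α • bv P v) := by
        rw [← hPa', smul_sub, smul_smul, smul_smul, ← hPv, ← hm]
        exact h3
      exact smul_right_injective _ hρ.ne' h4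
    have hb' : b = Real.sin α • v + Real.cos α • bv P v := by
      have h5 : Real.sin α • b = Real.sin α • (Real.sin α • v + Real.cos α • bv P v) := by
        have h6 : Real.sin α • b = v - Real.cos α • a := by rw [hv]; abel
        rw [h6, ha']
        have h7 := Real.sin_sq_add_cos_sq α
        have h8 : v = (Real.sin α ^ 2 + Real.cos α ^ 2) • v := by rw [h7, one_smul]
        calc v - Real.cos α • (Real.cos α • v - Real.sin α • bv P v)
            = (Real.sin α ^ 2 + Real.cos α ^ 2) • v -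
              Real.cos α • (Real.cos α • v - Real.sin α • bv P v) := by rw [← h8]
          _ = _ := by module
      exact smul_right_injective _ hs.ne' h5
    refine ⟨⟨z.re * Real.cos α + z.im * Real.sin α, -z.re * Real.sin α + z.im * Real.cos α⟩,
      ?_, ?_⟩
    · rw [hz, norm_pl ha hb hab]
      rw [← sq_eq_sq₀ (norm_nonneg _) (norm_nonneg _), ← Complex.normSq_eq_norm_sq,
        ← Complex.normSq_eq_norm_sq, Complex.normSq_apply, Complex.normSq_apply]
      have h7 := Real.sin_sq_add_cos_sq α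
      simp only
      linear_combination (z.re ^ 2 + z.im ^ 2) * h7
    · rw [hz]
      unfold pl
      simp only
      conv_lhs => rw [ha', hb']
      module

/-- each complex number of the right modulus is reached by a rotation -/
theorem exists_rot {z w : ℂ} (h : ‖z‖ = ‖w‖) :
    ∃ y : UnitAddCircle, (AddCircle.toCircle y : ℂ) * z = w := by
  by_cases hz : z = 0
  · subst hz
    have hw : w = 0 := by
      rw [norm_zero] at h
      exact norm_eq_zero.1 h.symm
    exact ⟨0, by rw [hw, mul_zero]⟩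
  · have hw : ‖w / z‖ = 1 := by
      rw [norm_div, h, div_self]
      rw [← h]
      exact norm_ne_zero_iff.2 hz
    set u : Circle := ⟨w / z, mem_sphere_zero_iff_norm.2 hw⟩ with hu
    refine ⟨((Complex.arg (w / z) / (2 * Real.pi) : ℝ) : UnitAddCircle), ?_⟩
    rw [AddCircle.toCircle_apply_mk, Circle.coe_exp]
    have h1 : 2 * Real.pi / 1 * (Complex.arg (w / z) / (2 * Real.pi)) = Complex.arg (w / z) := by
      have := Real.pi_pos
      field_simp
    rw [h1]
    have h2 := Complex.norm_mul_exp_arg_mul_I (w / z)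
    rw [hw] at h2
    rw [Complex.ofReal_one, one_mul] at h2
    rw [h2]
    field_simp

/-- the profile `zeta` takes all moduli between `cos θ` and `1` -/
theorem exists_zeta {θ R : ℝ} (hs : 0 < Real.sin θ) (hc : 0 ≤ Real.cos θ) (h1 : Real.cos θ ≤ R)
    (h2 : R ≤ 1) : ∃ x ∈ Ico (0 : ℝ) 1, ‖zeta (Real.sin θ) (Real.cos θ) θ x‖ = R := by
  set d := Real.sqrt (R ^ 2 - Real.cos θ ^ 2) with hd
  have h3 : 0 ≤ R ^ 2 - Real.cos θ ^ 2 := by nlinarith
  have hd2 : d ^ 2 = R ^ 2 - Real.cos θ ^ 2 := Real.sq_sqrt h3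
  have hd0 : 0 ≤ d := Real.sqrt_nonneg _
  have h4 := Real.sin_sq_add_cos_sq θ
  have hR : 0 ≤ R := hc.trans h1
  have hd1 : d ≤ Real.sin θ := by
    rw [← sq_le_sq₀ hd0 hs.le, hd2]
    nlinarith
  refine ⟨(Real.sin θ - d) / (2 * Real.sin θ), ⟨div_nonneg (by linarith) (by linarith), ?_⟩, ?_⟩
  · rw [div_lt_one (by linarith)]
    linarith
  · unfold zeta
    have h := norm_sq_chord (2 * Real.sin θ * ((Real.sin θ - d) / (2 * Real.sin θ)) - Real.sin θ)
      (Real.cos θ) 1 (by simp)
    rw [mul_one] at h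
    rw [norm_mul, Complex.norm_exp_ofReal_mul_I, mul_one, ← sq_eq_sq₀ (norm_nonneg _) hR, h]
    have h5 : 2 * Real.sin θ * ((Real.sin θ - d) / (2 * Real.sin θ)) - Real.sin θ = -d := by
      field_simp
      ring
    rw [h5]
    linarith

/-- a point of an open set which meets `Ω`, other than the centre -/
theorem exists_ne_zero (hn : 2 ≤ n) {U : Set (Euc n)} (hU : IsOpen U) (h : U.Nonempty) :
    ∃ x ∈ U, x ≠ 0 := by
  have hnt : Nontrivial (Euc n) := by
    rw [← Module.finrank_pos_iff (R := ℝ), finrank_euclideanSpace_fin]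
    omega
  obtain ⟨x, hx1, hx2⟩ := (dense_compl_singleton (0 : Euc n)).inter_open_nonempty U hU h
  exact ⟨x, hx1, hx2⟩

/-- **The torus model of the unit ball** -/
theorem ball_model (hn : 2 ≤ n) {P : Euc n} (hP0 : P ≠ 0) (hP : ‖P‖ < 1) :
    TorusModel (Metric.ball (0 : Euc n) 1) P (V0 P)
      (fun v z => GG P (v : Euc n) (z + sh P (v : Euc n))) (fun v => om P (v : Euc n)) 1 where
  isOpen := isOpen_V0 P
  null := V0_compl_null hn hP0
  cont v := (continuous_GG_right P v).comp (continuous_id.add continuous_const)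
  contOn := by
    have h2 : Continuous (fun p : V0 P × UnitAddTorus (Fin 2) =>
        ((p.1, p.2 + sh P ((p.1 : Sp n) : Euc n)) : V0 P × UnitAddTorus (Fin 2))) := by
      refine continuous_fst.prodMk (continuous_snd.add ?_)
      exact (continuous_sh hP).comp
        (continuous_subtype_val.comp (continuous_subtype_val.comp continuous_fst))
    have h3 := (continuous_GG P).comp h2
    exact h3
  bound v hv z := norm_GG_le (norm_eq_of_mem_sphere v) hv _
  meas := ((continuous_om hP).comp continuous_subtype_val).measurable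
  freq k hk N hN := freq_null hn hP0 hP hk hN
  photon v hv t ht := photon_GG (by omega) hP (norm_eq_of_mem_sphere v) hv ht
  full U hU hUΩ := by
    obtain ⟨x, hx, hx0⟩ := exists_ne_zero hn (hU.inter Metric.isOpen_ball) hUΩ
    have hx1 : ‖x‖ < 1 := mem_ball_zero_iff.1 hx.2
    obtain ⟨v, hv, hm0, hm1, w, hw, hxw⟩ := exists_dir hn hP0 x (norm_pos_iff.2 hx0)
    have hc := cos_thv hP hv
    have hs := sin_thv (P := P) hv
    have hc0 := cv_pos (v := v) hP
    obtain ⟨y, hy, hy2⟩ := exists_zeta (θ := thv P v) (R := ‖x‖) (by rw [← hs]; exact hc0)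
      (by rw [← hc]; exact hm0.le) (by rw [← hc]; exact hm1.le) hx1.le
    have hz : zc (thv P v) (y : UnitAddCircle) =
        zeta (Real.sin (thv P v)) (Real.cos (thv P v)) (thv P v) y := by
      rw [zc_coe, Int.fract_eq_self.2 ⟨hy.1, hy.2⟩]
    obtain ⟨y2, hy2'⟩ := exists_rot (z := zc (thv P v) (y : UnitAddCircle)) (w := w)
      (by rw [hz, hy2, hw])
    refine ⟨⟨v, mem_sphere_zero_iff_norm.2 hv⟩, hm0, ![(y : UnitAddCircle), y2] - sh P v, ?_⟩
    simp only [sub_add_cancel]
    unfold GG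
    simp only [Matrix.cons_val_zero, Matrix.cons_val_one]
    rw [hy2', ← hxw]
    exact hx.1
  inside v hv z := by
    rw [closure_ball _ one_ne_zero, mem_closedBall_zero_iff]
    exact norm_GG_le (norm_eq_of_mem_sphere v) hv _

/-- **Equidistribution in balls** -/
theorem ball_equi (hn : 2 ≤ n) {c P : Euc n} {r : ℝ} (hP : P ∈ Metric.ball c r) (hPc : P ≠ c) :
    LightEquidistributes (Metric.ball c r) P := by
  have hr : 0 < r := Metric.pos_of_mem_ball hP
  have hP' : ‖r⁻¹ • (P - c)‖ < 1 := by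
    rw [mem_ball_iff_norm] at hP
    rw [norm_smul, norm_inv, Real.norm_of_nonneg hr.le, inv_mul_lt_iff₀ hr, mul_one]
    exact hP
  have hP0 : r⁻¹ • (P - c) ≠ 0 := smul_ne_zero (inv_pos.2 hr).ne' (sub_ne_zero.2 hPc)
  have hΩ : ∀ x : Euc n, x ∈ Metric.ball (0 : Euc n) 1 ↔ c + r • x ∈ Metric.ball c r := by
    intro x
    rw [mem_ball_zero_iff, mem_ball_iff_norm, add_sub_cancel_left, norm_smul,
      Real.norm_of_nonneg hr.le, mul_lt_iff_lt_one_right hr]
  have M := (ball_model hn hP0 hP').sim hr hΩ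
  have hPe : c + r • (r⁻¹ • (P - c)) = P := by
    rw [smul_smul, mul_inv_cancel₀ hr.ne', one_smul, add_sub_cancel]
  rw [hPe] at M
  exact M.equidistributes (by omega) Metric.isOpen_ball

end Pool.Agent.KS6_88.WF
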