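import Pool.Graph.R_seed8.H800R2.Front

/-! # Radially symmetric smooth domains are balls and spherical shells -/

set_option autoImplicit false

open Set Filter Topology
open scoped RealInnerProductSpace

namespace Pool.Agent.KS6_88.WF

open Pool.Agent.H800R2

variable {n : ℕ}

/-- at an isolated point of the complement there is no defining function -/
theorem not_isDefFun_of_punctured {Ω : Set (Euc n)} {c : Euc n} (hc : c ∉ Ω)
    (h : ∀ᶠ y in 𝓝 c, y ≠ c → y ∈ Ω) (F : Euc n → ℝ) : ¬ IsDefFun Ω c F := by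
  rintro ⟨hF, hg, hd⟩
  have h0 : 0 ≤ F c := by
    by_contra hcon
    push Not at hcon
    exact hc (hd.self_of_nhds.2 hcon)
  have hmax : IsLocalMax F c := by
    filter_upwards [h, hd] with y hy1 hy2
    by_cases hyc : y = c
    · rw [hyc]
    · exact ((hy2.1 (hy1 hyc)).le).trans h0
  apply hg
  unfold gradient
  rw [hmax.fderiv_eq_zero, map_zero]

/-- **Classification.** -/
theorem radial_classification (hn : 0 < n) {Ω : Set (Euc n)} (hΩ : IsSmoothDomain Ω) {c : Euc n}
    (hrad : ∀ x y : Euc n, ‖x - c‖ = ‖y - c‖ → x ∈ Ω → y ∈ Ω) :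
    (∃ r, 0 < r ∧ Ω = Metric.ball c r) ∨
      ∃ r₁ r₂ : ℝ, 0 < r₁ ∧ r₁ < r₂ ∧ Ω = {x | r₁ < ‖x - c‖ ∧ ‖x - c‖ < r₂} := by
  have hNc : Continuous (fun x : Euc n => ‖x - c‖) := by fun_prop
  set I : Set ℝ := (fun x : Euc n => ‖x - c‖) '' Ω with hI
  have hmem : ∀ x : Euc n, x ∈ Ω ↔ ‖x - c‖ ∈ I := by
    intro x
    constructor
    · intro h
      exact ⟨x, h, rfl⟩
    · rintro ⟨y, hy, hyx⟩
      exact hrad y x hyx hy
  have hI0 : ∀ t ∈ I, 0 ≤ t := by
    rintro _ ⟨y, _, rfl⟩
    exact norm_nonneg _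
  have hord : I.OrdConnected :=
    (hΩ.isConnected.isPreconnected.image _ hNc.continuousOn).ordConnected
  obtain ⟨e, he⟩ : ∃ e : Euc n, ‖e‖ = 1 :=
    ⟨EuclideanSpace.single ⟨0, hn⟩ (1 : ℝ), by simp⟩
  have hopen : ∀ t ∈ I, ∃ ε > 0, ∀ s, 0 ≤ s → |s - t| < ε → s ∈ I := by
    rintro _ ⟨x, hx, rfl⟩
    obtain ⟨ε, hε, hball⟩ := Metric.isOpen_iff.1 hΩ.isOpen x hx
    refine ⟨ε, hε, fun s hs0 hs => ?_⟩
    simp only at hs
    by_cases hxc : ‖x - c‖ = 0
    · have hxc' : x = c := by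
        rw [norm_eq_zero, sub_eq_zero] at hxc
        exact hxc
      refine ⟨c + s • e, hball ?_, ?_⟩
      · rw [hxc, sub_zero] at hs
        rw [mem_ball_iff_norm, hxc', add_sub_cancel_left, norm_smul, he, mul_one]
        exact hs
      · simp only [add_sub_cancel_left]
        rw [norm_smul, he, mul_one, Real.norm_of_nonneg hs0]
    · have hpos : 0 < ‖x - c‖ := lt_of_le_of_ne (norm_nonneg _) (Ne.symm hxc)
      refine ⟨c + (s / ‖x - c‖) • (x - c), hball ?_, ?_⟩
      · have h1 : c + (s / ‖x - c‖) • (x - c) - x = ((s - ‖x - c‖) / ‖x - c‖) • (x - c) := by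
          rw [sub_div, div_self hxc, sub_smul, one_smul]
          abel
        rw [mem_ball_iff_norm, h1, norm_smul, norm_div, norm_norm, div_mul_cancel₀ _ hxc]
        exact hs
      · simp only [add_sub_cancel_left]
        rw [norm_smul, norm_div, norm_norm, div_mul_cancel₀ _ hxc, Real.norm_of_nonneg hs0]
  have hIne : I.Nonempty := hΩ.isConnected.nonempty.image _
  have hbdd : BddAbove I := by
    obtain ⟨R, hR⟩ := hΩ.isBounded.subset_closedBall c
    refine ⟨R, ?_⟩
    rintro _ ⟨x, hx, rfl⟩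
    have := hR hx
    rwa [mem_closedBall_iff_norm] at this
  have hbelow : BddBelow I := ⟨0, fun t ht => hI0 t ht⟩
  set r₂ := sSup I with hr2
  have hr2I : r₂ ∉ I := by
    intro h
    obtain ⟨ε, hε, h1⟩ := hopen _ h
    have h2 := h1 (r₂ + ε / 2) (by linarith [hI0 _ h]) (by
      rw [add_sub_cancel_left, abs_of_pos (by linarith)]
      linarith)
    have h3 := le_csSup hbdd h2
    linarith
  have hlt2 : ∀ t ∈ I, t < r₂ := fun t ht =>
    lt_of_le_of_ne (le_csSup hbdd ht) fun h => hr2I (h ▸ ht)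
  by_cases h0I : (0 : ℝ) ∈ I
  · left
    refine ⟨r₂, hlt2 0 h0I, ?_⟩
    ext x
    rw [hmem, mem_ball_iff_norm]
    constructor
    · exact hlt2 _
    · intro h
      obtain ⟨t, ht, hlt⟩ := exists_lt_of_lt_csSup hIne h
      exact hord.out h0I ht ⟨norm_nonneg _, hlt.le⟩
  · right
    set r₁ := sInf I with hr1
    have hr10 : 0 ≤ r₁ := le_csInf hIne hI0
    have hr1I : r₁ ∉ I := by
      intro h
      have hpos : 0 < r₁ := lt_of_le_of_ne hr10 fun h' => h0I (h' ▸ h)
      obtain ⟨ε, hε, h1⟩ := hopen _ h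
      have h2 : max 0 (r₁ - ε / 2) ∈ I := by
        refine h1 _ (le_max_left _ _) ?_
        rw [abs_lt]
        constructor
        · have := le_max_right 0 (r₁ - ε / 2)
          linarith
        · rw [sub_lt_iff_lt_add]
          exact max_lt (by linarith) (by linarith)
      have h3 := csInf_le hbelow h2
      have h4 : max 0 (r₁ - ε / 2) < r₁ := max_lt hpos (by linarith)
      linarith
    have hlt1 : ∀ t ∈ I, r₁ < t := fun t ht =>
      lt_of_le_of_ne (csInf_le hbelow ht) fun h => hr1I (h ▸ ht)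
    have hset : ∀ x : Euc n, x ∈ Ω ↔ r₁ < ‖x - c‖ ∧ ‖x - c‖ < r₂ := by
      intro x
      rw [hmem]
      constructor
      · intro h
        exact ⟨hlt1 _ h, hlt2 _ h⟩
      · rintro ⟨h1, h2⟩
        obtain ⟨t, ht, hlt⟩ := exists_lt_of_lt_csSup hIne h2
        obtain ⟨t', ht', hlt'⟩ := exists_lt_of_csInf_lt hIne h1
        exact hord.out ht' ht ⟨hlt'.le, hlt.le⟩
    obtain ⟨t, ht⟩ := hIne
    have h12 : r₁ < r₂ := (hlt1 t ht).trans (hlt2 t ht)
    refine ⟨r₁, r₂, ?_, h12, ?_⟩
    · refine lt_of_le_of_ne hr10 fun h => ?_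
      have hcΩ : c ∉ Ω := by
        rw [hset, sub_self, norm_zero, ← h]
        exact fun h' => lt_irrefl _ h'.1
      have hpunct : ∀ᶠ y in 𝓝 c, y ≠ c → y ∈ Ω := by
        have hr20 : 0 < r₂ := by rw [← h] at h12; exact h12
        filter_upwards [Metric.ball_mem_nhds c hr20] with y hy hyc
        rw [hset, ← h]
        rw [mem_ball_iff_norm] at hy
        exact ⟨norm_pos_iff.2 (sub_ne_zero.2 hyc), hy⟩
      have hfr : c ∈ frontier Ω := by
        rw [hΩ.isOpen.frontier_eq]
        refine ⟨?_, hcΩ⟩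
        have hnt : Nontrivial (Euc n) := by
          rw [← Module.finrank_pos_iff (R := ℝ), finrank_euclideanSpace_fin]
          exact hn
        rw [mem_closure_iff_frequently]
        have h5 : ∀ᶠ y in 𝓝[≠] c, y ∈ Ω := by
          rw [eventually_nhdsWithin_iff]
          exact hpunct
        exact (h5.frequently).filter_mono nhdsWithin_le_nhds
      obtain ⟨F, hF⟩ := hΩ.smooth c hfr
      exact not_isDefFun_of_punctured hcΩ hpunct F hF
    · ext x
      exact hset x

end Pool.Agent.KS6_88.WF
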