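import Pool.Graph.R_seed8.H800R2.Front

/-! # Equidistribution of the light emitted from a point -/

set_option autoImplicit false

open Set Filter Topology MeasureTheory

namespace Pool.Agent.KS6_88.WF

open Pool.Agent.H800R2

/-- the unit sphere of directions -/
abbrev Sp (n : ℕ) : Type := Metric.sphere (0 : Euc n) 1

/-- the surface measure of the unit sphere -/
noncomputable abbrev sg (n : ℕ) : Measure (Sp n) := (volume : Measure (Euc n)).toSphere

/-- **The light emitted from `P` equidistributes in `Ω`.** There are the positions `γ v t` of the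
photons (`v` is the initial velocity, `t` is the time; for almost every `v` the photon exists at all
times), probability measures `κ v` and a probability measure `ν` on `ℝⁿ` such that

* for almost every `v` the time averages along the photon path with initial velocity `v` converge
  weakly to `κ v`;
* for each integrable weight `w` on the sphere of initial velocities and each continuous `φ`, the
  integral of `φ` over the front at time `t`, weighted by `w`, converges as `t → ∞` to the one
  obtained by replacing `φ (γ v t)` with the time average `∫ φ dκ v`;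
* in particular the distribution at time `t` of the light emitted uniformly in all directions
  converges weakly to `ν` as `t → ∞`;
* `ν` lives on the closure of `Ω` and gives positive mass to each open set which meets `Ω`. -/
def LightEquidistributes {n : ℕ} (Ω : Set (Euc n)) (P : Euc n) : Prop :=
  ∃ (γ : Sp n → ℝ → Euc n) (κ : Sp n → Measure (Euc n)) (ν : Measure (Euc n)),
    (∀ᵐ v : Sp n ∂(sg n), ∀ t, 0 ≤ t → ∀ q, Photon Ω P (v : Euc n) t q ↔ q = γ v t) ∧
    (∀ v, IsProbabilityMeasure (κ v)) ∧
    (∀ᵐ v : Sp n ∂(sg n), ∀ φ : Euc n → ℝ, Continuous φ →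
      Tendsto (fun T : ℝ => T⁻¹ * ∫ t in (0 : ℝ)..T, φ (γ v t)) atTop (𝓝 (∫ x, φ x ∂(κ v)))) ∧
    (∀ (w : Sp n → ℝ) (φ : Euc n → ℝ), Integrable w (sg n) → Continuous φ →
      Tendsto (fun t : ℝ => ∫ v, w v * φ (γ v t) ∂(sg n)) atTop
        (𝓝 (∫ v, w v * ∫ x, φ x ∂(κ v) ∂(sg n)))) ∧
    IsProbabilityMeasure ν ∧
    (∀ φ : Euc n → ℝ, Continuous φ →
      Tendsto (fun t : ℝ => ⨍ v, φ (γ v t) ∂(sg n)) atTop (𝓝 (∫ x, φ x ∂ν))) ∧
    ν (closure Ω)ᶜ = 0 ∧ ∀ U : Set (Euc n), IsOpen U → (U ∩ Ω).Nonempty → 0 < ν U

/-- equidistribution implies density of the fronts -/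
theorem LightEquidistributes.dense {n : ℕ} {Ω : Set (Euc n)} {P : Euc n}
    (hb : Bornology.IsBounded Ω) (h : LightEquidistributes Ω P) : FrontsBecomeDense Ω P := by
  obtain ⟨γ, κ, ν, h1, _, _, _, h5, h6, _, h8⟩ := h
  intro ε hε
  have htb : TotallyBounded Ω := hb.isCompact_closure.totallyBounded.subset subset_closure
  obtain ⟨s, hsΩ, hs, hcov⟩ := Metric.finite_approx_of_totallyBounded htb (ε / 2) (by linarith)
  have key : ∀ y ∈ s, ∀ᶠ t : ℝ in atTop, ∃ q ∈ front Ω P t, dist y q < ε / 2 := by
    intro y hy
    set φ : Euc n → ℝ := fun x => max 0 (ε / 2 - dist x y) with hφ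
    have hφc : Continuous φ := by fun_prop
    have hφ0 : ∀ x, 0 ≤ φ x := fun x => le_max_left _ _
    have hpos : 0 < ∫ x, φ x ∂ν := by
      rw [integral_pos_iff_support_of_nonneg hφ0]
      · have hsub : Metric.ball y (ε / 2) ⊆ Function.support φ := by
          intro x hx
          rw [Metric.mem_ball] at hx
          rw [Function.mem_support]
          have : 0 < φ x := lt_max_of_lt_right (by linarith)
          exact this.ne'
        refine lt_of_lt_of_le (h8 (Metric.ball y (ε / 2)) Metric.isOpen_ball
          ⟨y, Metric.mem_ball_self (by linarith), hsΩ hy⟩) (measure_mono hsub)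
      · refine Integrable.mono' (integrable_const (ε / 2)) hφc.aestronglyMeasurable
          (Eventually.of_forall fun x => ?_)
        rw [Real.norm_of_nonneg (hφ0 x)]
        exact max_le (by linarith) (by linarith [dist_nonneg (x := x) (y := y)])
    have h9 := (h6 φ hφc).eventually (lt_mem_nhds hpos)
    filter_upwards [h9, eventually_ge_atTop (0 : ℝ)] with t ht ht0
    by_contra hcon
    push Not at hcon
    have h10 : (fun v => φ (γ v t)) =ᵐ[sg n] fun _ => 0 := by
      filter_upwards [h1] with v hv
      have h11 := hcon (γ v t) ⟨(v : Euc n), norm_eq_of_mem_sphere v, (hv t ht0 _).2 rfl⟩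
      rw [dist_comm] at h11
      exact max_eq_left (by linarith)
    rw [average_congr h10, average_eq] at ht
    simp at ht
  obtain ⟨T, hT⟩ := eventually_atTop.1 ((Filter.eventually_all_finite hs).2 key)
  refine ⟨T, fun t ht x hx => ?_⟩
  obtain ⟨y, hy, hxy⟩ := mem_iUnion₂.1 (hcov hx)
  obtain ⟨q, hq, hyq⟩ := hT t ht y hy
  refine ⟨q, hq, ?_⟩
  rw [Metric.mem_ball] at hxy
  linarith [dist_triangle x y q]

end Pool.Agent.KS6_88.WF
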