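import Pool.Agent.KS6_88.WF.AC

/-! # The law of `⟪P, v⟫` on the unit sphere is absolutely continuous -/

set_option autoImplicit false

open Set Filter Topology MeasureTheory
open scoped RealInnerProductSpace

namespace Pool.Agent.KS6_88.WF

theorem hasDerivAt_g {a b c x : ℝ} (h : 0 < b + 2 * a * x + c * x ^ 2) :
    HasDerivAt (fun x => (a + c * x) / Real.sqrt (b + 2 * a * x + c * x ^ 2))
      ((c * b - a ^ 2) / ((b + 2 * a * x + c * x ^ 2) * Real.sqrt (b + 2 * a * x + c * x ^ 2)))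
      x := by
  have h1 : HasDerivAt (fun x : ℝ => b + 2 * a * x + c * x ^ 2) (2 * a + 2 * c * x) x := by
    have := (((hasDerivAt_id' x).const_mul (2 * a)).const_add b).add
      (((hasDerivAt_id' x).pow 2).const_mul c)
    refine this.congr_deriv ?_
    simp
    ring
  have h2 := h1.sqrt h.ne'
  have h3 := ((hasDerivAt_id' x).const_mul c).const_add a
  have hs : 0 < Real.sqrt (b + 2 * a * x + c * x ^ 2) := Real.sqrt_pos.2 h
  have h4 := h3.fun_div h2 hs.ne'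
  refine h4.congr_deriv ?_
  have h5 := Real.sq_sqrt h.le
  rw [div_eq_div_iff (pow_ne_zero 2 hs.ne') (mul_ne_zero h.ne' hs.ne')]
  set S := Real.sqrt (b + 2 * a * x + c * x ^ 2) with hS
  have h6 : S ^ 2 = b + 2 * a * x + c * x ^ 2 := h5
  have h7 : c * b - a ^ 2 = c * S ^ 2 - (a + c * x) ^ 2 := by rw [h6]; ring
  rw [h7, ← h6]
  field_simp

variable {n : ℕ}

theorem cs_strict {P y : EuclideanSpace ℝ (Fin n)} (hP : P ≠ 0)
    (hy : y ∉ Submodule.span ℝ {P}) : 0 < ‖P‖ ^ 2 * ‖y‖ ^ 2 - ⟪P, y⟫ ^ 2 := by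
  have hc : 0 < ‖P‖ ^ 2 := by positivity
  have h1 : 0 < ‖(‖P‖ ^ 2) • y - ⟪P, y⟫ • P‖ ^ 2 := by
    have h2 : (‖P‖ ^ 2) • y - ⟪P, y⟫ • P ≠ 0 := by
      intro h3
      apply hy
      rw [Submodule.mem_span_singleton]
      refine ⟨⟪P, y⟫ / ‖P‖ ^ 2, ?_⟩
      rw [sub_eq_zero] at h3
      rw [div_eq_inv_mul, ← smul_smul, ← h3, smul_smul, inv_mul_cancel₀ hc.ne', one_smul]
    positivity
  have h4 : ‖(‖P‖ ^ 2) • y - ⟪P, y⟫ • P‖ ^ 2 =
      ‖P‖ ^ 2 * (‖P‖ ^ 2 * ‖y‖ ^ 2 - ⟪P, y⟫ ^ 2) := by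
    rw [@norm_sub_sq_real, norm_smul, norm_smul, real_inner_smul_left, real_inner_smul_right,
      real_inner_comm]
    simp only [Real.norm_eq_abs, abs_pow, abs_norm, mul_pow, sq_abs]
    ring
  rw [h4] at h1
  exact (pos_iff_pos_of_mul_pos h1).1 hc

/-- the set of nonzero vectors whose cosine with `P` is in a null set is null -/
theorem bad_null (hn : 2 ≤ n) {P : EuclideanSpace ℝ (Fin n)} (hP : P ≠ 0) {N : Set ℝ}
    (hNm : MeasurableSet N) (hN : volume N = 0) :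
    volume {x : EuclideanSpace ℝ (Fin n) | x ≠ 0 ∧ ⟪P, x⟫ / ‖x‖ ∈ N} = 0 := by
  set bad := {x : EuclideanSpace ℝ (Fin n) | x ≠ 0 ∧ ⟪P, x⟫ / ‖x‖ ∈ N} with hbad
  have hbm : MeasurableSet bad := by
    have h1 : Measurable (fun x : EuclideanSpace ℝ (Fin n) => ⟪P, x⟫ / ‖x‖) := by fun_prop
    have h2 : MeasurableSet {x : EuclideanSpace ℝ (Fin n) | x ≠ 0} :=
      (measurableSet_singleton 0).compl
    exact h2.inter (h1 hNm)
  have hspan : (volume : Measure (EuclideanSpace ℝ (Fin n)))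
      (Submodule.span ℝ {P} : Submodule ℝ (EuclideanSpace ℝ (Fin n))) = 0 := by
    refine Measure.addHaar_submodule _ _ fun h => ?_
    have h1 := finrank_span_singleton (K := ℝ) hP
    rw [h, finrank_top, finrank_euclideanSpace_fin] at h1
    omega
  have h1 : ∀ᵐ y : EuclideanSpace ℝ (Fin n), y ∈ badᶜ := by
    refine (ae_ae_add_linearMap_mem_iff (LinearMap.toSpanSingleton ℝ (EuclideanSpace ℝ (Fin n)) P)
      (volume : Measure ℝ) volume hbm.compl).1 ?_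
    have h2 : ∀ᵐ y : EuclideanSpace ℝ (Fin n), y ∉
        (Submodule.span ℝ {P} : Submodule ℝ (EuclideanSpace ℝ (Fin n))) := by
      rw [ae_iff]
      simpa using hspan
    filter_upwards [h2] with y hy
    have hcs := cs_strict hP hy
    have hP0 : 0 < ‖P‖ ^ 2 := by positivity
    have hQ : ∀ x : ℝ, 0 < ‖y‖ ^ 2 + 2 * ⟪P, y⟫ * x + ‖P‖ ^ 2 * x ^ 2 := by
      intro x
      have h3 : 0 < ‖P‖ ^ 2 * (‖y‖ ^ 2 + 2 * ⟪P, y⟫ * x + ‖P‖ ^ 2 * x ^ 2) := by
        nlinarith [sq_nonneg (‖P‖ ^ 2 * x + ⟪P, y⟫)]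
      exact (pos_iff_pos_of_mul_pos h3).1 hP0
    have hnorm : ∀ x : ℝ, ‖y + x • P‖ =
        Real.sqrt (‖y‖ ^ 2 + 2 * ⟪P, y⟫ * x + ‖P‖ ^ 2 * x ^ 2) := by
      intro x
      rw [← Real.sqrt_sq (norm_nonneg (y + x • P)), @norm_add_sq_real, real_inner_smul_right,
        norm_smul, real_inner_comm]
      congr 1
      simp only [Real.norm_eq_abs, mul_pow, sq_abs]
      ring
    have hinn : ∀ x : ℝ, ⟪P, y + x • P⟫ = ⟪P, y⟫ + ‖P‖ ^ 2 * x := by
      intro x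
      rw [inner_add_right, real_inner_smul_right, real_inner_self_eq_norm_sq]
      ring
    have h4 := null_preimage (D := univ) (N := N)
      (f := fun x => (⟪P, y⟫ + ‖P‖ ^ 2 * x) /
        Real.sqrt (‖y‖ ^ 2 + 2 * ⟪P, y⟫ * x + ‖P‖ ^ 2 * x ^ 2)) isOpen_univ
      (fun x _ => (hasDerivAt_g (hQ x)).differentiableAt)
      (fun x _ => by
        rw [(hasDerivAt_g (hQ x)).deriv]
        exact div_ne_zero hcs.ne' (mul_ne_zero (hQ x).ne' (Real.sqrt_pos.2 (hQ x)).ne')) hN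
    rw [univ_inter] at h4
    have h5 : ∀ᵐ x : ℝ, x ∉ (fun x => (⟪P, y⟫ + ‖P‖ ^ 2 * x) /
        Real.sqrt (‖y‖ ^ 2 + 2 * ⟪P, y⟫ * x + ‖P‖ ^ 2 * x ^ 2)) ⁻¹' N :=
      measure_eq_zero_iff_ae_notMem.1 h4
    filter_upwards [h5] with x hx
    rintro ⟨_, h7⟩
    apply hx
    rw [mem_preimage, ← hnorm, ← hinn]
    exact h7
  rw [ae_iff] at h1
  simpa using h1

/-- the law of `⟪P, v⟫` under the surface measure of the sphere is absolutely continuous -/
theorem sphere_null (hn : 2 ≤ n) {P : EuclideanSpace ℝ (Fin n)} (hP : P ≠ 0) {N : Set ℝ}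
    (hN : volume N = 0) :
    (volume : Measure (EuclideanSpace ℝ (Fin n))).toSphere
      {v | ⟪P, (v : EuclideanSpace ℝ (Fin n))⟫ ∈ N} = 0 := by
  set N' := toMeasurable volume N with hN'
  have hN'm : MeasurableSet N' := measurableSet_toMeasurable _ _
  have hN'0 : volume N' = 0 := by rw [hN', measure_toMeasurable, hN]
  refine measure_mono_null (t := {v | ⟪P, (v : EuclideanSpace ℝ (Fin n))⟫ ∈ N'})
    (fun v hv => subset_toMeasurable _ _ hv) ?_
  have hm : MeasurableSet {v : Metric.sphere (0 : EuclideanSpace ℝ (Fin n)) 1 |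
      ⟪P, (v : EuclideanSpace ℝ (Fin n))⟫ ∈ N'} := by
    have h1 : Measurable (fun v : Metric.sphere (0 : EuclideanSpace ℝ (Fin n)) 1 =>
      ⟪P, (v : EuclideanSpace ℝ (Fin n))⟫) := by fun_prop
    exact h1 hN'm
  rw [Measure.toSphere_apply' _ hm]
  refine mul_eq_zero_of_right _ (measure_mono_null ?_ (bad_null hn hP hN'm hN'0))
  rintro _ ⟨r, hr, _, ⟨v, hv, rfl⟩, rfl⟩
  have hv1 : ‖(v : EuclideanSpace ℝ (Fin n))‖ = 1 := norm_eq_of_mem_sphere v
  refine ⟨?_, ?_⟩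
  · simp only
    intro h
    have := congrArg norm h
    rw [norm_smul, hv1, norm_zero, mul_one, norm_eq_zero] at this
    exact hr.1.ne' this
  · simp only
    rw [norm_smul, hv1, real_inner_smul_right, Real.norm_of_nonneg hr.1.le, mul_one,
      mul_div_cancel_left₀ _ hr.1.ne']
    exact hv

end Pool.Agent.KS6_88.WF
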