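import Pool.Agent.KS6_88.WF.Flow
import Pool.Agent.KS6_88.WF.Sph
import Pool.Agent.KS6_88.WF.Defs

/-! # Continuity and integrability of the position on the torus -/

set_option autoImplicit false

open Set Filter Topology MeasureTheory
open scoped RealInnerProductSpace

namespace Pool.Agent.KS6_88.WF

open Pool.Agent.H800R2 Pool.Agent.H800R2.Ball

variable {n : ℕ}

theorem continuous_mv (P : Euc n) : Continuous (fun v : Euc n => mv P v) := by
  unfold mv
  fun_prop

theorem continuous_cv (P : Euc n) : Continuous (fun v : Euc n => cv P v) := by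
  unfold cv
  fun_prop

theorem continuous_thv (P : Euc n) : Continuous (fun v : Euc n => thv P v) := by
  unfold thv
  exact Real.continuous_arccos.comp (continuous_mv P)

/-- the directions which are not radial -/
def V0 (P : Euc n) : Set (Sp n) := {v | 0 < mv P (v : Euc n)}

theorem isOpen_V0 (P : Euc n) : IsOpen (V0 P) :=
  isOpen_lt continuous_const ((continuous_mv P).comp continuous_subtype_val)

theorem V0_compl_null (hn : 2 ≤ n) {P : Euc n} (hP : P ≠ 0) : sg n (V0 P)ᶜ = 0 := by
  refine measure_mono_null ?_ (sphere_null hn hP (N := {‖P‖, -‖P‖})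
    ((Set.toFinite _).measure_zero _))
  intro v hv
  have hv1 : ‖(v : Euc n)‖ = 1 := norm_eq_of_mem_sphere v
  have h1 : mv P (v : Euc n) = 0 := le_antisymm (not_lt.1 hv) mv_nonneg
  have h2 := mv_sq (P := P) hv1
  rw [h1] at h2
  have h3 : (⟪P, (v : Euc n)⟫ - ‖P‖) * (⟪P, (v : Euc n)⟫ + ‖P‖) = 0 := by linarith
  rcases mul_eq_zero.1 h3 with h4 | h4
  · exact Or.inl (by linarith)
  · exact Or.inr (by rw [mem_singleton_iff]; linarith)

theorem continuous_pl : Continuous (fun q : Euc n × Euc n × ℂ => pl q.1 q.2.1 q.2.2) := by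
  unfold pl
  fun_prop

theorem continuous_toC : Continuous (fun x : UnitAddCircle => (AddCircle.toCircle x : ℂ)) :=
  continuous_subtype_val.comp AddCircle.continuous_toCircle

/-- joint continuity of the position on the torus -/
theorem continuous_GG (P : Euc n) :
    Continuous (fun p : V0 P × UnitAddTorus (Fin 2) => GG P ((p.1 : Sp n) : Euc n) p.2) := by
  unfold GG
  have hv : Continuous (fun p : V0 P × UnitAddTorus (Fin 2) => ((p.1 : Sp n) : Euc n)) :=
    continuous_subtype_val.comp (continuous_subtype_val.comp continuous_fst)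
  have hb : Continuous (fun p : V0 P × UnitAddTorus (Fin 2) => bv P ((p.1 : Sp n) : Euc n)) := by
    unfold bv
    refine Continuous.smul (Continuous.inv₀ ((continuous_mv P).comp hv) fun p => ?_) (by fun_prop)
    exact (p.1.2 : 0 < mv P ((p.1 : Sp n) : Euc n)).ne'
  have h0 : Continuous (fun p : V0 P × UnitAddTorus (Fin 2) => p.2 0) :=
    (continuous_apply (0 : Fin 2)).comp continuous_snd
  have h1 : Continuous (fun p : V0 P × UnitAddTorus (Fin 2) => p.2 1) :=
    (continuous_apply (1 : Fin 2)).comp continuous_snd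
  have hθ : Continuous (fun p : V0 P × UnitAddTorus (Fin 2) => thv P ((p.1 : Sp n) : Euc n)) :=
    (continuous_thv P).comp hv
  have hT : Continuous (fun p : V0 P × UnitAddTorus (Fin 2) => (AddCircle.toCircle (p.2 1) : ℂ)) :=
    continuous_toC.comp h1
  have hZ : Continuous (fun p : V0 P × UnitAddTorus (Fin 2) =>
      zc (thv P ((p.1 : Sp n) : Euc n)) (p.2 0)) := by
    have h := continuous_zc.comp (hθ.prodMk h0)
    exact h
  have h := continuous_pl.comp (hv.prodMk (hb.prodMk (hT.mul hZ)))
  exact h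

theorem continuous_GG_right (P v : Euc n) : Continuous (GG P v) := by
  unfold GG
  have h0 : Continuous (fun z : UnitAddTorus (Fin 2) => z 0) := continuous_apply (0 : Fin 2)
  have h1 : Continuous (fun z : UnitAddTorus (Fin 2) => z 1) := continuous_apply (1 : Fin 2)
  have hθ : Continuous (fun _ : UnitAddTorus (Fin 2) => thv P v) := continuous_const
  have hT : Continuous (fun z : UnitAddTorus (Fin 2) => (AddCircle.toCircle (z 1) : ℂ)) :=
    continuous_toC.comp h1
  have hZ : Continuous (fun z : UnitAddTorus (Fin 2) => zc (thv P v) (z 0)) := by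
    have h := continuous_zc.comp (hθ.prodMk h0)
    exact h
  have hcv : Continuous (fun _ : UnitAddTorus (Fin 2) => v) := continuous_const
  have hcb : Continuous (fun _ : UnitAddTorus (Fin 2) => bv P v) := continuous_const
  have h := continuous_pl.comp (hcv.prodMk (hcb.prodMk (hT.mul hZ)))
  exact h

theorem norm_GG_le {P v : Euc n} (hv : ‖v‖ = 1) (hm : 0 < mv P v) (z : UnitAddTorus (Fin 2)) :
    ‖GG P v z‖ ≤ 1 := by
  obtain ⟨h1, h2, _⟩ := bv_spec hv hm
  unfold GG
  rw [norm_pl hv h1 h2, norm_mul, Circle.norm_coe, one_mul]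
  exact norm_zc_le _ _

theorem continuous_sh {P : Euc n} (hP : ‖P‖ < 1) :
    Continuous (fun v : Euc n => sh P v) := by
  have hc := continuous_cv P
  have ht := continuous_thv P
  have hpi := Real.pi_pos
  have hc0 : ∀ v : Euc n, 2 * cv P v ≠ 0 := fun v => by
    have := cv_pos (v := v) hP
    positivity
  have hc1 : ∀ v : Euc n, 2 * Real.pi * cv P v ≠ 0 := fun v => by
    have := cv_pos (v := v) hP
    positivity
  unfold sh
  refine continuous_pi fun i => ?_
  fin_cases i
  · simp only [Fin.zero_eta, Matrix.cons_val_zero]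
    refine (AddCircle.continuous_mk' (1 : ℝ)).comp ?_
    exact Continuous.div (by fun_prop) (by fun_prop) hc0
  · simp only [Fin.mk_one, Matrix.cons_val_one, Matrix.cons_val_zero]
    refine (AddCircle.continuous_mk' (1 : ℝ)).comp ?_
    exact Continuous.div (by fun_prop) (by fun_prop) hc1

theorem continuous_om {P : Euc n} (hP : ‖P‖ < 1) :
    Continuous (fun v : Euc n => om P v) := by
  have hc := continuous_cv P
  have ht := continuous_thv P
  have hpi := Real.pi_pos
  have hc0 : ∀ v : Euc n, 2 * cv P v ≠ 0 := fun v => by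
    have := cv_pos (v := v) hP
    positivity
  have hc1 : ∀ v : Euc n, 2 * Real.pi * cv P v ≠ 0 := fun v => by
    have := cv_pos (v := v) hP
    positivity
  unfold om
  refine continuous_pi fun i => ?_
  fin_cases i
  · simp only [Fin.zero_eta, Matrix.cons_val_zero]
    exact Continuous.div (by fun_prop) (by fun_prop) hc0
  · simp only [Fin.mk_one, Matrix.cons_val_one, Matrix.cons_val_zero]
    exact Continuous.div (by fun_prop) (by fun_prop) hc1

/-- the observable as a function on the torus -/
noncomputable def FF (P : Euc n) (φ : C(Euc n, ℂ)) (v : Sp n) : C(UnitAddTorus (Fin 2), ℂ) :=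
  ⟨fun z => φ (GG P (v : Euc n) (z + sh P (v : Euc n))), by
    have h1 : Continuous (fun z : UnitAddTorus (Fin 2) => z + sh P (v : Euc n)) :=
      continuous_id.add continuous_const
    have h2 := (continuous_GG_right P v).comp h1
    have h3 := φ.continuous.comp h2
    exact h3⟩

theorem continuousOn_FF {P : Euc n} (hP : ‖P‖ < 1) (φ : C(Euc n, ℂ)) :
    ContinuousOn (FF P φ) (V0 P) := by
  rw [continuousOn_iff_continuous_domRestrict]
  have h1 : Continuous (fun p : V0 P × UnitAddTorus (Fin 2) =>
      φ (GG P ((p.1 : Sp n) : Euc n) (p.2 + sh P ((p.1 : Sp n) : Euc n)))) := by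
    have h2 : Continuous (fun p : V0 P × UnitAddTorus (Fin 2) =>
        ((p.1, p.2 + sh P ((p.1 : Sp n) : Euc n)) : V0 P × UnitAddTorus (Fin 2))) := by
      refine continuous_fst.prodMk (continuous_snd.add ?_)
      exact (continuous_sh hP).comp
        (continuous_subtype_val.comp (continuous_subtype_val.comp continuous_fst))
    have h3 := (continuous_GG P).comp h2
    have h4 := φ.continuous.comp h3
    exact h4
  have h3 := (ContinuousMap.curry ⟨_, h1⟩).continuous
  exact h3

theorem restrict_V0 (hn : 2 ≤ n) {P : Euc n} (hP : P ≠ 0) : (sg n).restrict (V0 P) = sg n := by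
  refine Measure.restrict_eq_self_of_ae_mem ?_
  rw [ae_iff]
  exact V0_compl_null hn hP

theorem aesm_FF (hn : 2 ≤ n) {P : Euc n} (hP : ‖P‖ < 1) (hP0 : P ≠ 0) (φ : C(Euc n, ℂ)) :
    AEStronglyMeasurable (FF P φ) (sg n) := by
  rw [← restrict_V0 hn hP0]
  exact (continuousOn_FF hP φ).aestronglyMeasurable (isOpen_V0 P).measurableSet

theorem ae_V0 (hn : 2 ≤ n) {P : Euc n} (hP0 : P ≠ 0) : ∀ᵐ v ∂(sg n), v ∈ V0 P := by
  rw [ae_iff]
  exact V0_compl_null hn hP0

theorem exists_bound (φ : C(Euc n, ℂ)) : ∃ C : ℝ, 0 ≤ C ∧ ∀ x : Euc n, ‖x‖ ≤ 1 → ‖φ x‖ ≤ C := by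
  obtain ⟨C, hC⟩ := (isCompact_closedBall (0 : Euc n) 1).exists_bound_of_continuousOn
    φ.continuous.continuousOn
  refine ⟨max C 0, le_max_right _ _, fun x hx => ?_⟩
  exact (hC x (by rw [mem_closedBall_zero_iff]; exact hx)).trans (le_max_left _ _)

theorem integrable_wFF (hn : 2 ≤ n) {P : Euc n} (hP : ‖P‖ < 1) (hP0 : P ≠ 0) (φ : C(Euc n, ℂ))
    {w : Sp n → ℂ} (hw : Integrable w (sg n)) :
    Integrable (fun v => w v • FF P φ v) (sg n) := by
  obtain ⟨C, hC0, hC⟩ := exists_bound φ
  refine (hw.norm.mul_const C).mono'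
    (hw.aestronglyMeasurable.smul (aesm_FF hn hP hP0 φ)) ?_
  filter_upwards [ae_V0 hn hP0] with v hv
  rw [norm_smul]
  refine mul_le_mul_of_nonneg_left ?_ (norm_nonneg _)
  refine (ContinuousMap.norm_le _ hC0).2 fun z => ?_
  exact hC _ (norm_GG_le (norm_eq_of_mem_sphere v) hv _)

end Pool.Agent.KS6_88.WF
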