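import Pool.Graph.R_seed8.H800R2.Ball

/-! # Uniqueness of the photon and the explicit billiard in the unit ball -/

set_option autoImplicit false

open Set Filter Topology
open scoped RealInnerProductSpace

namespace Pool.Agent.KS6_88.WF

open Pool.Agent.H800R2

variable {n : ℕ}

theorem photon_nonneg {Ω : Set (Euc n)} {p v q : Euc n} {t : ℝ} (h : Photon Ω p v t q) :
    0 ≤ t := by
  induction h with
  | fly p v t ht hin => exact ht
  | bounce p v ν q τ t hτ hin hb hν hv h ih => linarith

theorem not_mem_frontier {Ω : Set (Euc n)} (hΩ : IsOpen Ω) {x : Euc n} (hx : x ∈ Ω) :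
    x ∉ frontier Ω := by
  rw [hΩ.frontier_eq]
  exact fun h => h.2 hx

/-- the position of the photon is unique -/
theorem photon_unique {Ω : Set (Euc n)} (hΩ : IsOpen Ω) {p v q : Euc n} {t : ℝ}
    (h : Photon Ω p v t q) : ∀ q' : Euc n, Photon Ω p v t q' → q = q' := by
  induction h with
  | fly p v t ht hin =>
    intro q' h'
    cases h' with
    | fly _ _ _ ht' hin' => rfl
    | bounce _ _ ν' _ τ' t' hτ' hin' hb' hν' hv' h'' =>
      have h1 := photon_nonneg h''
      exact absurd hb' (not_mem_frontier hΩ (hin τ' ⟨hτ', by linarith⟩))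
  | bounce p v ν q τ t hτ hin hb hν hv h ih =>
    intro q' h'
    have ht0 := photon_nonneg h
    generalize hT : τ + t = T at h'
    cases h' with
    | fly _ _ _ ht' hin' =>
      exact absurd hb (not_mem_frontier hΩ (hin' τ ⟨hτ, by linarith⟩))
    | bounce _ _ ν' _ τ' t' hτ' hin' hb' hν' hv' h'' =>
      have h1 := photon_nonneg h''
      have hττ : τ = τ' := by
        rcases lt_trichotomy τ τ' with h2 | h2 | h2
        · exact absurd hb (not_mem_frontier hΩ (hin' τ ⟨hτ, h2⟩))
        · exact h2
        · exact absurd hb' (not_mem_frontier hΩ (hin τ' ⟨hτ', h2⟩))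
      subst hττ
      have htt : t = t' := by linarith
      subst htt
      have hνν : ν = ν' := by
        obtain ⟨F, hF, rfl⟩ := hν
        obtain ⟨G, hG, rfl⟩ := hν'
        exact hF.normal_unique hG hΩ hb
      subst hνν
      exact ih q' h''

section
variable {a b : Euc n} (ha : ‖a‖ = 1) (hb : ‖b‖ = 1) (hab : ⟪a, b⟫ = 0)
include ha hb hab

open Ball

/-- Explicit billiard in the unit ball, for all times. -/
theorem flight (hn : 0 < n) {c m : ℝ} (hc : 0 < c) (hcm : c ^ 2 + m ^ 2 = 1) (k : ℕ) :
    ∀ (s s' : ℝ) (u : ℂ), ‖u‖ = 1 → -c ≤ s → s < c → -c ≤ s' → s' < c → (k = 0 → s ≤ s') →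
      Photon (Metric.ball (0 : Euc n) 1) (pl a b ((s - m * Complex.I) * u)) (pl a b u)
        (2 * k * c + s' - s)
        (pl a b ((s' - m * Complex.I) * ((-(c - m * Complex.I) ^ 2) ^ k * u))) := by
  have hcmC : (c : ℂ) ^ 2 + (m : ℂ) ^ 2 = 1 := by exact_mod_cast hcm
  have hline : ∀ (s σ : ℝ) (u : ℂ), pl a b ((s - m * Complex.I) * u) + σ • pl a b u =
      pl a b ((((s + σ : ℝ) : ℂ) - m * Complex.I) * u) := by
    intro s σ u
    rw [← pl_smul, ← pl_add]
    congr 1
    push_cast
    ring
  have hin : ∀ (s σ : ℝ) (u : ℂ), ‖u‖ = 1 → -c < s + σ → s + σ < c →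
      pl a b ((s - m * Complex.I) * u) + σ • pl a b u ∈ Metric.ball (0 : Euc n) 1 := by
    intro s σ u hu h1 h2
    rw [hline, mem_ball_zero_iff, norm_pl ha hb hab, ← sq_lt_one_iff₀ (norm_nonneg _),
      norm_sq_chord _ _ _ hu]
    nlinarith
  induction k with
  | zero =>
    intro s s' u hu h1 h2 h3 h4 h5
    have h6 : s ≤ s' := h5 rfl
    have h := Photon.fly (Ω := Metric.ball (0 : Euc n) 1) (pl a b ((s - m * Complex.I) * u))
      (pl a b u) (s' - s) (by linarith) (fun σ hσ => hin s σ u hu (by linarith [hσ.1])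
        (by linarith [hσ.2]))
    rw [hline] at h
    convert h using 1
    · push_cast
      ring
    · congr 1
      push_cast
      ring
  | succ k ih =>
    intro s s' u hu h1 h2 h3 h4 _
    have hw : ‖-((c : ℂ) - m * Complex.I) ^ 2‖ = 1 := by
      have h := norm_sq_chord c m 1 (by simp)
      rw [mul_one, hcm] at h
      rw [norm_neg, norm_pow, h]
    have hu' : ‖-((c : ℂ) - m * Complex.I) ^ 2 * u‖ = 1 := by rw [norm_mul, hw, hu, mul_one]
    have hnu : ‖pl a b (((c : ℂ) - m * Complex.I) * u)‖ = 1 := by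
      rw [norm_pl ha hb hab, ← sq_eq_sq₀ (norm_nonneg _) zero_le_one, norm_sq_chord _ _ _ hu, hcm,
        one_pow]
    have hpt : pl a b ((s - m * Complex.I) * u) + (c - s) • pl a b u =
        pl a b (((c : ℂ) - m * Complex.I) * u) := by
      rw [hline]
      congr 3
      simp
    have hinn : ⟪pl a b u, pl a b (((c : ℂ) - m * Complex.I) * u)⟫ = c := by
      rw [inner_pl ha hb hab]
      have h7 : u.re * u.re + u.im * u.im = 1 := by
        rw [← Complex.normSq_apply, Complex.normSq_eq_norm_sq, hu, one_pow]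
      simp
      linear_combination c * h7
    have hih := ih (-c) s' (-((c : ℂ) - m * Complex.I) ^ 2 * u) hu' le_rfl (by linarith) h3 h4
      (fun _ => h3)
    have h := Photon.bounce (Ω := Metric.ball (0 : Euc n) 1) (pl a b ((s - m * Complex.I) * u))
      (pl a b u) (pl a b (((c : ℂ) - m * Complex.I) * u))
      (pl a b ((s' - m * Complex.I) * ((-(c - m * Complex.I) ^ 2) ^ (k + 1) * u)))
      (c - s) (2 * k * c + s' - (-c)) (by linarith)
      (fun σ hσ => hin s σ u hu (by linarith [hσ.1]) (by linarith [hσ.2]))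
      (by rw [hpt]; exact (mem_frontier_iff _ hn).2 hnu)
      (by rw [hpt]; exact isOuterNormal _ hnu)
      (by rw [hinn]; exact hc)
      (by
        rw [hpt, hinn]
        have e1 : pl a b (((c : ℂ) - m * Complex.I) * u) =
            pl a b ((((-c : ℝ) : ℂ) - m * Complex.I) * (-((c : ℂ) - m * Complex.I) ^ 2 * u)) := by
          congr 1
          push_cast
          linear_combination (-((c : ℂ) - m * Complex.I) * u) * hcmC +
            ((c : ℂ) - m * Complex.I) * u * ((m : ℂ) ^ 2) * Complex.I_sq
        have e2 : pl a b u - (2 * c) • pl a b (((c : ℂ) - m * Complex.I) * u) =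
            pl a b (-((c : ℂ) - m * Complex.I) ^ 2 * u) := by
          rw [← pl_smul, ← pl_sub]
          congr 1
          push_cast
          linear_combination (-u) * hcmC + u * (m : ℂ) ^ 2 * Complex.I_sq
        rw [e2]
        conv => arg 2; rw [e1]
        convert hih using 2
        ring)
    convert h using 1
    push_cast
    ring

end

end Pool.Agent.KS6_88.WF
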