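import Pool.Agent.KS6_88.WF.Dyn

/-! # The explicit billiard flow in the unit ball -/

set_option autoImplicit false

open Set Filter Topology
open scoped RealInnerProductSpace

namespace Pool.Agent.KS6_88.WF

open Pool.Agent.H800R2 Pool.Agent.H800R2.Ball

/-- the profile of a chord, in the rotating frame -/
noncomputable def zeta (c m θ x : ℝ) : ℂ :=
  (((2 * c * x - c : ℝ) : ℂ) - m * Complex.I) * Complex.exp (((-(2 * θ * x) : ℝ) : ℂ) * Complex.I)

theorem neg_sq_eq_exp {c m θ : ℝ} (hc : c = Real.sin θ) (hm : m = Real.cos θ) :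
    -((c : ℂ) - m * Complex.I) ^ 2 = Complex.exp (((2 * θ : ℝ) : ℂ) * Complex.I) := by
  rw [Complex.exp_mul_I, ← Complex.ofReal_cos, ← Complex.ofReal_sin, Real.cos_two_mul,
    Real.sin_two_mul, hc, hm]
  have h : (Real.sin θ : ℂ) ^ 2 + (Real.cos θ : ℂ) ^ 2 = 1 := by
    exact_mod_cast Real.sin_sq_add_cos_sq θ
  push_cast
  push_cast at h
  linear_combination (-1 : ℂ) * h - (Complex.cos θ) ^ 2 * Complex.I_sq

variable {n : ℕ}

theorem expl (hn : 0 < n) {a b : Euc n} (ha : ‖a‖ = 1) (hb : ‖b‖ = 1) (hab : ⟪a, b⟫ = 0)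
    {c m s θ : ℝ} (hc0 : 0 < c) (hc : c = Real.sin θ) (hm : m = Real.cos θ) (hs : -c ≤ s)
    (hs' : s < c) {t : ℝ} (ht : 0 ≤ t) :
    Photon (Metric.ball (0 : Euc n) 1) (s • a - m • b) a t
      (pl a b (Complex.exp (((2 * θ * ((t + s + c) / (2 * c)) : ℝ) : ℂ) * Complex.I) *
        zeta c m θ (Int.fract ((t + s + c) / (2 * c))))) := by
  set S := (t + s + c) / (2 * c) with hS
  have hS0 : 0 ≤ S := div_nonneg (by linarith) (by linarith)
  have hcm : c ^ 2 + m ^ 2 = 1 := by rw [hc, hm]; exact Real.sin_sq_add_cos_sq θ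
  have hk : (⌊S⌋₊ : ℝ) = S - Int.fract S := by
    rw [natCast_floor_eq_intCast_floor hS0, Int.self_sub_fract]
  have h1 := Int.fract_nonneg S
  have h2 := Int.fract_lt_one S
  have hcS : 2 * c * S = t + s + c := by
    rw [hS]
    field_simp
  have hf := flight ha hb hab hn hc0 hcm ⌊S⌋₊ s (2 * c * Int.fract S - c) 1 (by simp) hs hs'
    (by nlinarith) (by nlinarith) (by
      intro h0
      have h3 : S = Int.fract S := by
        rw [h0] at hk
        push_cast at hk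
        linarith
      rw [← h3, hcS]
      linarith)
  have e1 : pl a b (((s : ℂ) - m * Complex.I) * 1) = s • a - m • b := by
    unfold pl
    simp
    rw [sub_eq_add_neg]
  have e2 : pl a b 1 = a := by
    unfold pl
    simp
  have e3 : 2 * (⌊S⌋₊ : ℝ) * c + (2 * c * Int.fract S - c) - s = t := by
    rw [hk]
    linarith
  rw [e1, e2, e3] at hf
  convert hf using 2
  rw [neg_sq_eq_exp hc hm, ← Complex.exp_nat_mul, mul_one]
  unfold zeta
  rw [mul_left_comm, ← Complex.exp_add]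
  congr 2
  have h4 : ((⌊S⌋₊ : ℕ) : ℂ) = (S : ℂ) - (Int.fract S : ℝ) := by
    exact_mod_cast congrArg (fun x : ℝ => (x : ℂ)) hk
  rw [h4]
  push_cast
  ring

theorem exists_perp (hn : 2 ≤ n) {a : Euc n} : ∃ b : Euc n, ‖b‖ = 1 ∧ ⟪a, b⟫ = 0 := by
  obtain ⟨w, hw0, hw⟩ : ∃ w : Euc n, w ≠ 0 ∧ ⟪a, w⟫ = 0 := by
    have hfin : Module.finrank ℝ (Euc n) = n := by simp
    have h1 : Module.finrank ℝ (Submodule.span ℝ {a}) ≤ 1 := by
      have := finrank_span_le_card (R := ℝ) ({a} : Set (Euc n))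
      simpa using this
    have h2 : (Submodule.span ℝ {a})ᗮ ≠ ⊥ := by
      intro h
      have h3 := Submodule.finrank_add_finrank_orthogonal (Submodule.span ℝ {a})
      rw [h, finrank_bot, hfin] at h3
      omega
    obtain ⟨w, hw, hw0⟩ := Submodule.exists_mem_ne_zero_of_ne_bot h2
    exact ⟨w, hw0, Submodule.mem_orthogonal_singleton_iff_inner_right.1 hw⟩
  have hw1 : 0 < ‖w‖ := norm_pos_iff.2 hw0
  refine ⟨‖w‖⁻¹ • w, ?_, ?_⟩
  · rw [norm_smul, norm_inv, norm_norm, inv_mul_cancel₀ hw1.ne']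
  · rw [real_inner_smul_right, hw, mul_zero]

/-- distance of the chord from the centre -/
noncomputable def mv (P v : Euc n) : ℝ := Real.sqrt (‖P‖ ^ 2 - ⟪P, v⟫ ^ 2)

/-- half length of the chord -/
noncomputable def cv (P v : Euc n) : ℝ := Real.sqrt (1 - ‖P‖ ^ 2 + ⟪P, v⟫ ^ 2)

/-- half of the rotation angle -/
noncomputable def thv (P v : Euc n) : ℝ := Real.arccos (mv P v)

/-- the second basis vector -/
noncomputable def bv (P v : Euc n) : Euc n := (mv P v)⁻¹ • (⟪P, v⟫ • v - P)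

section
variable {P v : Euc n} (hP : ‖P‖ < 1) (hv : ‖v‖ = 1)

include hv in
theorem inner_sq_le : ⟪P, v⟫ ^ 2 ≤ ‖P‖ ^ 2 := by
  have h := abs_real_inner_le_norm P v
  rw [hv, mul_one] at h
  rw [← sq_abs]
  exact pow_le_pow_left₀ (abs_nonneg _) h 2

include hv in
theorem mv_sq : mv P v ^ 2 = ‖P‖ ^ 2 - ⟪P, v⟫ ^ 2 := Real.sq_sqrt (by linarith [inner_sq_le (P := P) hv])

theorem mv_nonneg : 0 ≤ mv P v := Real.sqrt_nonneg _

include hP in
theorem cv_sq : cv P v ^ 2 = 1 - ‖P‖ ^ 2 + ⟪P, v⟫ ^ 2 :=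
  Real.sq_sqrt (by nlinarith [norm_nonneg P, sq_nonneg ⟪P, v⟫])

include hP in
theorem cv_pos : 0 < cv P v :=
  Real.sqrt_pos.2 (by nlinarith [norm_nonneg P, sq_nonneg ⟪P, v⟫])

include hP hv in
theorem mv_lt_one : mv P v < 1 := by
  have h1 := mv_sq (P := P) hv
  have h2 := mv_nonneg (P := P) (v := v)
  nlinarith [norm_nonneg P, sq_nonneg ⟪P, v⟫]

include hP hv in
theorem cos_thv : mv P v = Real.cos (thv P v) := by
  unfold thv
  rw [Real.cos_arccos (by linarith [mv_nonneg (P := P) (v := v)]) (mv_lt_one hP hv).le]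

include hv in
theorem sin_thv : cv P v = Real.sin (thv P v) := by
  unfold thv
  rw [Real.sin_arccos, mv_sq hv]
  unfold cv
  congr 1
  ring

include hP in
theorem inner_lt : -cv P v ≤ ⟪P, v⟫ ∧ ⟪P, v⟫ < cv P v := by
  have h1 := cv_sq (v := v) hP
  have h2 := cv_pos (v := v) hP
  have h3 : ⟪P, v⟫ ^ 2 < cv P v ^ 2 := by nlinarith [norm_nonneg P]
  have h4 := abs_lt_of_sq_lt_sq h3 h2.le
  rw [abs_lt] at h4
  exact ⟨h4.1.le, h4.2⟩

include hv in
theorem bv_spec (hm : 0 < mv P v) : ‖bv P v‖ = 1 ∧ ⟪v, bv P v⟫ = 0 ∧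
    P = ⟪P, v⟫ • v - mv P v • bv P v := by
  have h1 : ‖⟪P, v⟫ • v - P‖ ^ 2 = mv P v ^ 2 := by
    rw [@norm_sub_sq_real, norm_smul, hv, real_inner_smul_left, mv_sq hv, real_inner_comm]
    simp only [Real.norm_eq_abs, mul_one, sq_abs]
    ring
  have h2 : ‖⟪P, v⟫ • v - P‖ = mv P v :=
    (sq_eq_sq₀ (norm_nonneg _) hm.le).1 h1
  refine ⟨?_, ?_, ?_⟩
  · unfold bv
    rw [norm_smul, h2, norm_inv, Real.norm_of_nonneg hm.le, inv_mul_cancel₀ hm.ne']
  · unfold bv
    rw [real_inner_smul_right, inner_sub_right, real_inner_smul_right,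
      real_inner_self_eq_norm_sq, hv, real_inner_comm]
    ring
  · unfold bv
    rw [smul_smul, mul_inv_cancel₀ hm.ne', one_smul]
    abel

include hP hv in
/-- for each direction and each time the photon has a position -/
theorem exists_pos (hn : 2 ≤ n) {t : ℝ} (ht : 0 ≤ t) :
    ∃ q, Photon (Metric.ball (0 : Euc n) 1) P v t q := by
  by_cases hm : 0 < mv P v
  · obtain ⟨h1, h2, h3⟩ := bv_spec hv hm
    have h4 := expl (by omega : 0 < n) hv h1 h2 (cv_pos hP) (sin_thv hv) (cos_thv hP hv)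
      (inner_lt hP).1 (inner_lt hP).2 ht
    rw [← h3] at h4
    exact ⟨_, h4⟩
  · have hm0 : mv P v = 0 := le_antisymm (not_lt.1 hm) mv_nonneg
    obtain ⟨b, hb, hvb⟩ := exists_perp hn (a := v)
    have h4 := expl (by omega : 0 < n) hv hb hvb (cv_pos hP) (sin_thv hv) (cos_thv hP hv)
      (inner_lt hP).1 (inner_lt hP).2 ht
    have h5 : P = ⟪P, v⟫ • v - mv P v • b := by
      have h6 : ‖⟪P, v⟫ • v - P‖ ^ 2 = mv P v ^ 2 := by
        rw [@norm_sub_sq_real, norm_smul, hv, real_inner_smul_left, mv_sq hv, real_inner_comm]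
        simp only [Real.norm_eq_abs, mul_one, sq_abs]
        ring
      rw [hm0] at h6
      have h7 : ⟪P, v⟫ • v - P = 0 := by
        rw [← norm_eq_zero]
        nlinarith [norm_nonneg (⟪P, v⟫ • v - P)]
      rw [hm0, zero_smul, sub_zero]
      exact (sub_eq_zero.1 h7).symm
    rw [← h5] at h4
    exact ⟨_, h4⟩

end

end Pool.Agent.KS6_88.WF
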