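import Pool.Agent.KS6_88.WF.Legs

/-! # The billiard between two concentric spheres: paths which meet both spheres -/

set_option autoImplicit false

open Set Filter Topology
open scoped RealInnerProductSpace

namespace Pool.Agent.KS6_88.WF

open Pool.Agent.H800R2 Pool.Agent.H800R2.Ball

/-- the position in the frame of the period; `α` is the inner radius and `τ` the inner angle -/
noncomputable def prof (c e m θ x : ℝ) : ℂ :=
  if x ≤ 1 / 2 then (((e + 2 * (c - e) * x : ℝ) : ℂ) - m * Complex.I)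
  else (((-c + (c - e) * (2 * x - 1) : ℝ) : ℂ) - m * Complex.I) *
    Complex.exp (((2 * θ : ℝ) : ℂ) * Complex.I)

theorem prof_of_ge {c e m θ x : ℝ} (hc : c = Real.sin θ) (hm : m = Real.cos θ)
    (hx : 1 / 2 ≤ x) : prof c e m θ x =
      (((-c + (c - e) * (2 * x - 1) : ℝ) : ℂ) - m * Complex.I) *
        Complex.exp (((2 * θ : ℝ) : ℂ) * Complex.I) := by
  unfold prof
  rcases hx.eq_or_lt with h | h
  · rw [if_pos h.symm.le, ← h, ← neg_sq_eq_exp hc hm]
    have h3 : (c : ℂ) ^ 2 + (m : ℂ) ^ 2 = 1 := by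
      have : c ^ 2 + m ^ 2 = 1 := by rw [hc, hm]; exact Real.sin_sq_add_cos_sq θ
      exact_mod_cast this
    push_cast
    linear_combination (-((c : ℂ) - m * Complex.I)) * h3 +
      ((c : ℂ) - m * Complex.I) * (m : ℂ) ^ 2 * Complex.I_sq
  · rw [if_neg (not_le.2 h)]

theorem neg_sq_in {e m α τ : ℝ} (hα : 0 < α) (he : e = α * Real.sin τ) (hm : m = α * Real.cos τ) :
    -((e : ℂ) + m * Complex.I) ^ 2 / (α : ℂ) ^ 2 =
      Complex.exp (((-(2 * τ) : ℝ) : ℂ) * Complex.I) := by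
  have hαC : (α : ℂ) ≠ 0 := by exact_mod_cast hα.ne'
  rw [Complex.exp_mul_I, ← Complex.ofReal_cos, ← Complex.ofReal_sin, Real.cos_neg, Real.sin_neg,
    Real.cos_two_mul, Real.sin_two_mul, he, hm]
  have h : (Real.sin τ : ℂ) ^ 2 + (Real.cos τ : ℂ) ^ 2 = 1 := by
    exact_mod_cast Real.sin_sq_add_cos_sq τ
  push_cast
  push_cast at h
  field_simp
  linear_combination (-1 : ℂ) * h - (Complex.cos τ) ^ 2 * Complex.I_sq

/-- the data of a chord which meets the inner sphere of radius `α` -/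
structure ChordS (α c e m θ τ : ℝ) : Prop where
  hα : 0 < α
  hα1 : α < 1
  hc : c = Real.sin θ
  hm : m = Real.cos θ
  he : e = α * Real.sin τ
  hm' : m = α * Real.cos τ
  hc0 : 0 < c
  he0 : 0 < e

namespace ChordS

variable {α c e m θ τ : ℝ} (H : ChordS α c e m θ τ)
include H

theorem hcm : c ^ 2 + m ^ 2 = 1 := by rw [H.hc, H.hm]; exact Real.sin_sq_add_cos_sq θ

theorem hem : e ^ 2 + m ^ 2 = α ^ 2 := by
  rw [H.he, H.hm']
  linear_combination α ^ 2 * Real.sin_sq_add_cos_sq τ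

theorem hec : e < c := by
  have h1 := H.hcm
  have h2 := H.hem
  have h3 := H.hα
  have h4 := H.hα1
  have h5 := H.hc0
  have h6 := H.he0
  have h7 : e ^ 2 < c ^ 2 := by nlinarith
  exact lt_of_pow_lt_pow_left₀ 2 h5.le h7

variable {n : ℕ} {a b : Euc n} {Ω : Set (Euc n)}
variable (ha : ‖a‖ = 1) (hb : ‖b‖ = 1) (hab : ⟪a, b⟫ = 0)
  (hin : ∀ x : Euc n, α < ‖x‖ → ‖x‖ < 1 → x ∈ Ω)
  (hout : ∀ x : Euc n, ‖x‖ = 1 → x ∈ frontier Ω ∧ IsOuterNormal Ω x x)
  (hinn : ∀ x : Euc n, ‖x‖ = α → x ∈ frontier Ω ∧ IsOuterNormal Ω x (-(α⁻¹ • x)))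
include ha hb hab hin

theorem seg {s : ℝ} {u : ℂ} (hu : ‖u‖ = 1) (h1 : e < |s|) (h2 : |s| < c) :
    pl a b ((s - m * Complex.I) * u) ∈ Ω := by
  have h3 : ‖pl a b ((s - m * Complex.I) * u)‖ ^ 2 = s ^ 2 + m ^ 2 := by
    rw [norm_pl ha hb hab, norm_sq_chord _ _ _ hu]
  have h4 := H.hcm
  have h5 := H.hem
  have h6 : e ^ 2 < s ^ 2 := by
    rw [← sq_abs s]
    exact pow_lt_pow_left₀ h1 H.he0.le two_ne_zero
  have h7 : s ^ 2 < c ^ 2 := by
    rw [← sq_abs s]
    exact pow_lt_pow_left₀ h2 (abs_nonneg _) two_ne_zero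
  refine hin _ ?_ ?_
  · exact lt_of_pow_lt_pow_left₀ 2 (norm_nonneg _) (by rw [h3]; linarith)
  · exact lt_of_pow_lt_pow_left₀ 2 zero_le_one (by rw [h3]; linarith)

include hout

/-- the outgoing leg, followed by the part of the path after the outer reflection -/
theorem leg_out {σ : ℝ} (h1 : e ≤ σ) (h2 : σ < c) {u : ℂ} (hu : ‖u‖ = 1) {t : ℝ} {q : Euc n}
    (h : Photon Ω (pl a b ((((-c : ℝ) : ℂ) - m * Complex.I) *
      (Complex.exp (((2 * θ : ℝ) : ℂ) * Complex.I) * u)))
      (pl a b (Complex.exp (((2 * θ : ℝ) : ℂ) * Complex.I) * u)) t q) :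
    Photon Ω (pl a b ((σ - m * Complex.I) * u)) (pl a b u) (c - σ + t) q := by
  rw [← neg_sq_eq_exp H.hc H.hm] at h
  refine bounce_out ha hb hab hout H.hc0 H.hcm h2 hu (fun s h3 h4 => ?_) h
  have h5 := H.he0
  have h6 : 0 < s := by linarith
  exact H.seg ha hb hab hin hu (by rw [abs_of_pos h6]; linarith) (by rw [abs_of_pos h6]; exact h4)

include hinn

omit hout in
/-- the ingoing leg, followed by the part of the path after the inner reflection -/
theorem leg_in {σ : ℝ} (h1 : -c ≤ σ) (h2 : σ < -e) {u : ℂ} (hu : ‖u‖ = 1) {t : ℝ} {q : Euc n}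
    (h : Photon Ω (pl a b (((e : ℂ) - m * Complex.I) *
      (Complex.exp (((-(2 * τ) : ℝ) : ℂ) * Complex.I) * u)))
      (pl a b (Complex.exp (((-(2 * τ) : ℝ) : ℂ) * Complex.I) * u)) t q) :
    Photon Ω (pl a b ((σ - m * Complex.I) * u)) (pl a b u) (-e - σ + t) q := by
  rw [← neg_sq_in H.hα H.he H.hm'] at h
  refine bounce_in ha hb hab H.hα hinn H.he0 H.hem h2 hu (fun s h3 h4 => ?_) h
  have h5 := H.he0
  have h6 : s < 0 := by linarith
  exact H.seg ha hb hab hin hu (by rw [abs_of_neg h6]; linarith)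
    (by rw [abs_of_neg h6]; linarith)

omit hout hinn in
theorem fly_out {σ σ' : ℝ} (h1 : e ≤ σ) (h2 : σ ≤ σ') (h3 : σ' < c) {u : ℂ} (hu : ‖u‖ = 1) :
    Photon Ω (pl a b ((σ - m * Complex.I) * u)) (pl a b u) (σ' - σ)
      (pl a b ((σ' - m * Complex.I) * u)) := by
  refine leg_fly h2 fun s h4 h5 => ?_
  have h6 := H.he0
  have h7 : 0 < s := by linarith
  exact H.seg ha hb hab hin hu (by rw [abs_of_pos h7]; linarith) (by rw [abs_of_pos h7]; linarith)

omit hout hinn in
theorem fly_in {σ σ' : ℝ} (h1 : -c ≤ σ) (h2 : σ ≤ σ') (h3 : σ' < -e) {u : ℂ} (hu : ‖u‖ = 1) :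
    Photon Ω (pl a b ((σ - m * Complex.I) * u)) (pl a b u) (σ' - σ)
      (pl a b ((σ' - m * Complex.I) * u)) := by
  refine leg_fly h2 fun s h4 h5 => ?_
  have h6 := H.he0
  have h7 : s < 0 := by linarith
  exact H.seg ha hb hab hin hu (by rw [abs_of_neg h7]; linarith) (by rw [abs_of_neg h7]; linarith)

omit hb hab hin hout hinn ha H in
theorem norm_exp_mul (x : ℝ) {u : ℂ} (hu : ‖u‖ = 1) :
    ‖Complex.exp ((x : ℂ) * Complex.I) * u‖ = 1 := by
  rw [norm_mul, Complex.norm_exp_ofReal_mul_I, hu, one_mul]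

/-- the path from the inner sphere -/
theorem periods (k : ℕ) : ∀ (u : ℂ), ‖u‖ = 1 → ∀ x : ℝ, 0 ≤ x → x < 1 →
    Photon Ω (pl a b (((e : ℂ) - m * Complex.I) * u)) (pl a b u) (2 * (c - e) * (k + x))
      (pl a b (prof c e m θ x * (Complex.exp (((2 * (θ - τ) : ℝ) : ℂ) * Complex.I) ^ k * u))) := by
  have hec := H.hec
  have he0 := H.he0
  induction k with
  | zero =>
    intro u hu x hx0 hx1
    rw [pow_zero, one_mul]
    rcases lt_or_ge x (1 / 2) with hx | hx
    · have h1 := H.fly_out ha hb hab hin (σ := e) (σ' := e + 2 * (c - e) * x) le_rfl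
        (by nlinarith) (by nlinarith) hu
      unfold prof
      rw [if_pos hx.le]
      convert h1 using 1
      push_cast
      ring
    · have h1 := H.fly_in ha hb hab hin (σ := -c) (σ' := -c + (c - e) * (2 * x - 1)) le_rfl
        (by nlinarith) (by nlinarith) (norm_exp_mul (2 * θ) hu)
      have h2 := H.leg_out ha hb hab hin hout (σ := e) le_rfl hec hu h1
      rw [prof_of_ge H.hc H.hm hx]
      convert h2 using 1
      · push_cast
        ring
      · rw [mul_assoc]
  | succ k ih =>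
    intro u hu x hx0 hx1
    have hu1 := norm_exp_mul (2 * θ) hu
    have hu2 := norm_exp_mul (-(2 * τ)) hu1
    have h1 := ih _ hu2 x hx0 hx1
    have h2 := H.leg_in ha hb hab hin hinn (σ := -c) le_rfl (by linarith) hu1 h1
    have h3 := H.leg_out ha hb hab hin hout (σ := e) le_rfl hec hu h2
    convert h3 using 1
    · push_cast
      ring
    · congr 1
      rw [pow_succ]
      have h4 : Complex.exp (((2 * (θ - τ) : ℝ) : ℂ) * Complex.I) =
          Complex.exp (((-(2 * τ) : ℝ) : ℂ) * Complex.I) *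
            Complex.exp (((2 * θ : ℝ) : ℂ) * Complex.I) := by
        rw [← Complex.exp_add]
        congr 1
        push_cast
        ring
      rw [mul_assoc (Complex.exp (((2 * (θ - τ) : ℝ) : ℂ) * Complex.I) ^ k), ← mul_assoc
        (Complex.exp (((-(2 * τ) : ℝ) : ℂ) * Complex.I)), ← h4]

/-- a path which starts outwards -/
theorem start_out {σ : ℝ} (h1 : e ≤ σ) (h2 : σ < c) {t S : ℝ} (ht : 0 ≤ t)
    (hS : 2 * (c - e) * S = t + σ - e) :
    Photon Ω (pl a b ((σ : ℂ) - m * Complex.I)) (pl a b 1) t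
      (pl a b (prof c e m θ (Int.fract S) *
        Complex.exp (((2 * (θ - τ) : ℝ) : ℂ) * Complex.I) ^ ⌊S⌋₊)) := by
  have hec := H.hec
  have he0 := H.he0
  have hS0 : 0 ≤ S := by
    by_contra hcon
    push Not at hcon
    nlinarith
  have hk : (⌊S⌋₊ : ℝ) = S - Int.fract S := by
    rw [natCast_floor_eq_intCast_floor hS0, Int.self_sub_fract]
  have hx0 := Int.fract_nonneg S
  have hx1 := Int.fract_lt_one S
  set x := Int.fract S with hx
  have hu : ‖(1 : ℂ)‖ = 1 := norm_one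
  have e0 : (σ : ℂ) - m * Complex.I = ((σ : ℂ) - m * Complex.I) * 1 := (mul_one _).symm
  rw [e0]
  rcases Nat.eq_zero_or_pos ⌊S⌋₊ with hk0 | hk0
  · rw [hk0] at hk ⊢
    have hSx : S = x := by
      push_cast at hk
      linarith
    rw [hSx] at hS
    rw [pow_zero]
    rcases lt_or_ge x (1 / 2) with hx2 | hx2
    · have h3 := H.fly_out ha hb hab hin (σ := σ) (σ' := e + 2 * (c - e) * x) h1
        (by linarith) (by nlinarith) hu
      unfold prof
      rw [if_pos hx2.le]
      convert h3 using 1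
      linarith
    · have h3 := H.fly_in ha hb hab hin (σ := -c) (σ' := -c + (c - e) * (2 * x - 1)) le_rfl
        (by nlinarith) (by nlinarith) (norm_exp_mul (2 * θ) hu)
      have h4 := H.leg_out ha hb hab hin hout (σ := σ) h1 h2 hu h3
      rw [prof_of_ge H.hc H.hm hx2]
      convert h4 using 1
      · linarith
      · rw [mul_assoc]
  · obtain ⟨k, hkk⟩ : ∃ k, ⌊S⌋₊ = k + 1 := ⟨⌊S⌋₊ - 1, by omega⟩
    rw [hkk] at hk ⊢
    have hu1 := norm_exp_mul (2 * θ) hu
    have hu2 := norm_exp_mul (-(2 * τ)) hu1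
    have h3 := H.periods ha hb hab hin hout hinn k _ hu2 x hx0 hx1
    have h4 := H.leg_in ha hb hab hin hinn (σ := -c) le_rfl (by linarith) hu1 h3
    have h5 := H.leg_out ha hb hab hin hout (σ := σ) h1 h2 hu h4
    convert h5 using 1
    · push_cast at hk
      linear_combination (-1 : ℝ) * hS - 2 * (c - e) * hk
    · congr 2
      rw [pow_succ, mul_one]
      congr 1
      rw [← Complex.exp_add]
      congr 1
      push_cast
      ring

/-- a path which starts inwards -/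
theorem start_in {σ : ℝ} (h1 : -c ≤ σ) (h2 : σ < -e) {t S : ℝ} (ht : 0 ≤ t)
    (hS : 2 * (c - e) * S = t + σ + c + (c - e)) :
    Photon Ω (pl a b ((σ : ℂ) - m * Complex.I)) (pl a b 1) t
      (pl a b (prof c e m θ (Int.fract S) *
        (Complex.exp (((2 * (θ - τ) : ℝ) : ℂ) * Complex.I) ^ ⌊S⌋₊ *
          Complex.exp (((-(2 * θ) : ℝ) : ℂ) * Complex.I)))) := by
  have hec := H.hec
  have he0 := H.he0
  have hS0 : 1 / 2 ≤ S := by
    by_contra hcon
    push Not at hcon
    nlinarith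
  have hk : (⌊S⌋₊ : ℝ) = S - Int.fract S := by
    rw [natCast_floor_eq_intCast_floor (by linarith), Int.self_sub_fract]
  have hx0 := Int.fract_nonneg S
  have hx1 := Int.fract_lt_one S
  set x := Int.fract S with hx
  have hu : ‖(1 : ℂ)‖ = 1 := norm_one
  have e0 : (σ : ℂ) - m * Complex.I = ((σ : ℂ) - m * Complex.I) * 1 := (mul_one _).symm
  rw [e0]
  rcases Nat.eq_zero_or_pos ⌊S⌋₊ with hk0 | hk0
  · rw [hk0] at hk ⊢
    have hSx : S = x := by
      push_cast at hk
      linarith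
    rw [hSx] at hS hS0
    rw [pow_zero, one_mul]
    have h3 := H.fly_in ha hb hab hin (σ := σ) (σ' := -c + (c - e) * (2 * x - 1)) h1
        (by linarith) (by nlinarith) hu
    rw [prof_of_ge H.hc H.hm hS0]
    convert h3 using 1
    · linarith
    · rw [mul_assoc, ← Complex.exp_add]
      congr 2
      rw [← Complex.exp_zero]
      congr 1
      push_cast
      ring
  · obtain ⟨k, hkk⟩ : ∃ k, ⌊S⌋₊ = k + 1 := ⟨⌊S⌋₊ - 1, by omega⟩
    rw [hkk] at hk ⊢
    have hu1 := norm_exp_mul (-(2 * τ)) hu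
    have h3 := H.periods ha hb hab hin hout hinn k _ hu1 x hx0 hx1
    have h4 := H.leg_in ha hb hab hin hinn (σ := σ) h1 h2 hu h3
    convert h4 using 1
    · push_cast at hk
      linear_combination (-1 : ℝ) * hS - 2 * (c - e) * hk
    · congr 2
      rw [pow_succ, mul_one, mul_assoc]
      congr 1
      rw [← Complex.exp_add]
      congr 1
      push_cast
      ring

end ChordS

end Pool.Agent.KS6_88.WF
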