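import Mathlib

/-! # Equidistribution of absolutely continuous families of linear flows on a torus -/

set_option autoImplicit false

open Set Filter Topology MeasureTheory

namespace Pool.Agent.KS6_88.WF

variable {ι : Type*} [Fintype ι]

/-- the torus point `t x mod 1` -/
noncomputable def wr (t : ℝ) (x : ι → ℝ) : UnitAddTorus ι :=
  fun i => ((t * x i : ℝ) : UnitAddCircle)

theorem mFourier_wr (n : ι → ℤ) (t : ℝ) (x : ι → ℝ) :
    UnitAddTorus.mFourier n (wr t x) = (Real.fourierChar (t * ∑ i, (n i : ℝ) * x i) : ℂ) := by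
  simp only [UnitAddTorus.mFourier, ContinuousMap.coe_mk, wr, fourier_coe_apply,
    Real.fourierChar_apply, ← Complex.exp_sum]
  congr 1
  push_cast
  rw [Finset.mul_sum, Finset.mul_sum, Finset.sum_mul]
  refine Finset.sum_congr rfl fun i _ => ?_
  ring

/-- Riemann-Lebesgue for a function with absolutely continuous law -/
theorem tendsto_char {V : Type*} [MeasurableSpace V] {μ : Measure V} [IsFiniteMeasure μ]
    {f : V → ℝ} (hf : Measurable f) (hac : μ.map f ≪ volume) (s : Set V) :
    Tendsto (fun t : ℝ => ∫ v in s, (Real.fourierChar (t * f v) : ℂ) ∂μ) atTop (𝓝 0) := by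
  set η := (μ.restrict s).map f with hη
  have h1 : η ≪ volume := (Measure.restrict_le_self.absolutelyContinuous.map hf).trans hac
  have h2 := Real.tendsto_integral_exp_smul_cocompact
    (fun y => (((η.rnDeriv volume y).toReal : ℝ) : ℂ))
  have h3 : Tendsto (fun t : ℝ => -t) atTop (cocompact ℝ) :=
    tendsto_neg_atTop_atBot.mono_right atBot_le_cocompact
  refine (h2.comp h3).congr fun t => ?_
  simp only [Function.comp]
  have h4 : ∫ v in s, (Real.fourierChar (t * f v) : ℂ) ∂μ =
      ∫ y, (Real.fourierChar (t * y) : ℂ) ∂η := by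
    rw [hη, integral_map hf.aemeasurable]
    refine Continuous.aestronglyMeasurable ?_
    exact continuous_subtype_val.comp (Real.continuous_fourierChar.comp (by fun_prop))
  rw [h4, ← integral_rnDeriv_smul h1]
  refine integral_congr_ae (Eventually.of_forall fun y => ?_)
  simp only [Circle.smul_def, smul_eq_mul, Complex.real_smul, mul_neg, neg_neg]
  rw [mul_comm y t, mul_comm]


variable {V : Type*} [MeasurableSpace V] {μ : Measure V} [IsFiniteMeasure μ]

omit [Fintype ι] in
theorem continuous_wr (t : ℝ) : Continuous (wr t : (ι → ℝ) → UnitAddTorus ι) := by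
  unfold wr
  refine continuous_pi fun i => ?_
  exact (AddCircle.continuous_mk' (1 : ℝ)).comp (by fun_prop)

omit [IsFiniteMeasure μ] in
theorem aesm_eval {ω : V → ι → ℝ} (hω : Measurable ω) {F : V → C(UnitAddTorus ι, ℂ)}
    (hF : AEStronglyMeasurable F μ) (t : ℝ) :
    AEStronglyMeasurable (fun v => F v (wr t (ω v))) μ := by
  have h1 : AEStronglyMeasurable (fun v => wr t (ω v)) μ := by
    have : Measurable (fun v => wr t (ω v)) := (continuous_wr t).measurable.comp hω
    exact this.aestronglyMeasurable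
  have h2 : Continuous (fun p : C(UnitAddTorus ι, ℂ) × UnitAddTorus ι => p.1 p.2) := by
    fun_prop
  exact h2.comp_aestronglyMeasurable (hF.prodMk h1)

omit [IsFiniteMeasure μ] in
theorem integrable_eval {ω : V → ι → ℝ} (hω : Measurable ω) {F : V → C(UnitAddTorus ι, ℂ)}
    (hF : Integrable F μ) (t : ℝ) : Integrable (fun v => F v (wr t (ω v))) μ := by
  refine hF.norm.mono' (aesm_eval hω hF.aestronglyMeasurable t) (Eventually.of_forall fun v => ?_)
  exact (F v).norm_coe_le_norm _

/-- pointwise limits of equi-Lipschitz families are closed conditions -/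
theorem isClosed_tendsto {E : Type*} [PseudoMetricSpace E] {T : ℝ → E → ℂ} {S : E → ℂ} {C : ℝ}
    (hT : ∀ t x y, dist (T t x) (T t y) ≤ C * dist x y)
    (hS : ∀ x y, dist (S x) (S y) ≤ C * dist x y) :
    IsClosed {x | Tendsto (fun t => T t x) atTop (𝓝 (S x))} := by
  refine isClosed_of_closure_subset fun x hx => ?_
  simp only [mem_ofPred_eq]
  rw [Metric.tendsto_nhds]
  intro ε hε
  have hC : 0 < |C| + 1 := by positivity
  obtain ⟨y, hy, hxy⟩ := Metric.mem_closure_iff.1 hx (ε / (4 * (|C| + 1))) (by positivity)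
  have h1 : C * dist x y ≤ ε / 4 := by
    calc C * dist x y ≤ (|C| + 1) * dist x y :=
          mul_le_mul_of_nonneg_right (by linarith [le_abs_self C]) dist_nonneg
      _ ≤ (|C| + 1) * (ε / (4 * (|C| + 1))) := mul_le_mul_of_nonneg_left hxy.le hC.le
      _ = ε / 4 := by field_simp
  have h2 := (Metric.tendsto_nhds.1 hy) (ε / 4) (by linarith)
  filter_upwards [h2] with t ht
  have h3 := hT t x y
  have h4 := hS y x
  rw [dist_comm y x] at h4
  calc dist (T t x) (S x) ≤ dist (T t x) (T t y) + dist (T t y) (S y) + dist (S y) (S x) :=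
        dist_triangle4 _ _ _ _
    _ < ε := by linarith

/-- the constant case -/
theorem tendsto_const {ω : V → ι → ℝ} (hω : Measurable ω)
    (hac : ∀ n : ι → ℤ, n ≠ 0 → μ.map (fun v => ∑ i, (n i : ℝ) * ω v i) ≪ volume)
    (L : C(UnitAddTorus ι, ℂ) →L[ℂ] ℂ)
    (hL : ∀ n : ι → ℤ, L (UnitAddTorus.mFourier n) = if n = 0 then 1 else 0)
    (f : C(UnitAddTorus ι, ℂ)) (s : Set V) :
    Tendsto (fun t : ℝ => ∫ v in s, f (wr t (ω v)) ∂μ) atTop (𝓝 (∫ _v in s, L f ∂μ)) := by
  have hint : ∀ (g : C(UnitAddTorus ι, ℂ)) (t : ℝ),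
      Integrable (fun v => g (wr t (ω v))) (μ.restrict s) := fun g t =>
    integrable_eval (F := fun _ => g) hω (integrable_const g) t
  have hclosed : IsClosed {f : C(UnitAddTorus ι, ℂ) |
      Tendsto (fun t : ℝ => ∫ v in s, f (wr t (ω v)) ∂μ) atTop (𝓝 (∫ _v in s, L f ∂μ))} := by
    refine isClosed_tendsto (T := fun (t : ℝ) (f : C(UnitAddTorus ι, ℂ)) =>
      ∫ v in s, f (wr t (ω v)) ∂μ) (S := fun f => ∫ _v in s, L f ∂μ)
      (C := (1 + ‖L‖) * (μ.real s)) (fun t f g => ?_) (fun f g => ?_)
    · rw [dist_eq_norm, dist_eq_norm, ← integral_sub (hint f t) (hint g t)]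
      refine (norm_setIntegral_le_of_norm_le_const (C := ‖f - g‖) (measure_lt_top _ _)
        (fun v _ => ?_)).trans ?_
      · exact (f - g).norm_coe_le_norm _
      · have h0 : 0 ≤ ‖L‖ * μ.real s * ‖f - g‖ := by positivity
        nlinarith
    · rw [dist_eq_norm, dist_eq_norm, ← integral_sub (integrable_const _) (integrable_const _)]
      refine (norm_setIntegral_le_of_norm_le_const (C := ‖L‖ * ‖f - g‖) (measure_lt_top _ _)
        (fun v _ => ?_)).trans ?_
      · rw [← map_sub]
        exact L.le_opNorm _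
      · have h0 : 0 ≤ μ.real s * ‖f - g‖ := by positivity
        nlinarith
  have hspan : (Submodule.span ℂ (range <| UnitAddTorus.mFourier (d := ι)) :
      Set C(UnitAddTorus ι, ℂ)) ⊆ {f : C(UnitAddTorus ι, ℂ) |
      Tendsto (fun t : ℝ => ∫ v in s, f (wr t (ω v)) ∂μ) atTop (𝓝 (∫ _v in s, L f ∂μ))} := by
    intro f hf
    refine Submodule.span_induction (p := fun f _ => Tendsto (fun t : ℝ =>
      ∫ v in s, f (wr t (ω v)) ∂μ) atTop (𝓝 (∫ _v in s, L f ∂μ))) ?_ ?_ ?_ ?_ hf
    · rintro _ ⟨n, rfl⟩
      rw [hL]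
      by_cases hn : n = 0
      · subst hn
        simp only [if_true, UnitAddTorus.mFourier_zero, ContinuousMap.one_apply]
        exact tendsto_const_nhds
      · rw [if_neg hn, integral_zero]
        have hmeas : Measurable (fun v => ∑ i, (n i : ℝ) * ω v i) :=
          Finset.measurable_sum _ fun i _ => ((measurable_pi_apply i).comp hω).const_mul _
        refine (tendsto_char hmeas (hac n hn) s).congr fun t => ?_
        simp_rw [mFourier_wr]
    · simp
    · intro x y _ _ hx hy
      have h1 := hx.add hy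
      rw [← integral_add (integrable_const _) (integrable_const _)] at h1
      simp_rw [map_add]
      refine h1.congr fun t => ?_
      rw [← integral_add (hint x t) (hint y t)]
      rfl
    · intro a x _ hx
      have h1 := hx.const_mul a
      rw [← integral_const_mul] at h1
      simp_rw [map_smul, smul_eq_mul]
      refine h1.congr fun t => ?_
      rw [← integral_const_mul]
      rfl
  have h3 := closure_minimal hspan hclosed
  refine h3 ?_
  have h4 := UnitAddTorus.span_mFourier_closure_eq_top (d := ι)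
  rw [← Submodule.topologicalClosure_coe, h4]
  trivial

/-- **Equidistribution of a family of linear flows**, whose frequency vector has an absolutely
continuous law in each nonzero integer direction -/
theorem tendsto_torus {ω : V → ι → ℝ} (hω : Measurable ω)
    (hac : ∀ n : ι → ℤ, n ≠ 0 → μ.map (fun v => ∑ i, (n i : ℝ) * ω v i) ≪ volume)
    (L : C(UnitAddTorus ι, ℂ) →L[ℂ] ℂ)
    (hL : ∀ n : ι → ℤ, L (UnitAddTorus.mFourier n) = if n = 0 then 1 else 0)
    {F : V → C(UnitAddTorus ι, ℂ)} (hF : Integrable F μ) :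
    Tendsto (fun t : ℝ => ∫ v, F v (wr t (ω v)) ∂μ) atTop (𝓝 (∫ v, L (F v) ∂μ)) := by
  refine Integrable.induction (P := fun F : V → C(UnitAddTorus ι, ℂ) =>
    Tendsto (fun t : ℝ => ∫ v, F v (wr t (ω v)) ∂μ) atTop (𝓝 (∫ v, L (F v) ∂μ)))
    ?_ ?_ ?_ ?_ hF
  · intro c s hs _
    have h1 := tendsto_const (μ := μ) hω hac L hL c s
    rw [← integral_indicator hs] at h1
    have e2 : ∀ v, L (s.indicator (fun _ => c) v) = s.indicator (fun _ => L c) v := by
      intro v
      by_cases hv : v ∈ s
      · simp [hv]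
      · simp [hv]
    simp_rw [e2]
    refine h1.congr fun t => ?_
    rw [← integral_indicator hs]
    refine integral_congr_ae (Eventually.of_forall fun v => ?_)
    by_cases hv : v ∈ s
    · simp [hv]
    · simp [hv]
  · intro f g _ hf hg h1 h2
    have h3 := h1.add h2
    rw [← integral_add (L.integrable_comp hf) (L.integrable_comp hg)] at h3
    simp_rw [Pi.add_apply, map_add]
    refine h3.congr fun t => ?_
    rw [← integral_add (integrable_eval hω hf t) (integrable_eval hω hg t)]
    rfl
  · refine isClosed_tendsto (T := fun (t : ℝ) (f : V →₁[μ] C(UnitAddTorus ι, ℂ)) =>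
      ∫ v, f v (wr t (ω v)) ∂μ) (S := fun f => ∫ v, L (f v) ∂μ)
      (C := 1 + ‖L‖) (fun t f g => ?_) (fun f g => ?_)
    · have hf := L1.integrable_coeFn f
      have hg := L1.integrable_coeFn g
      rw [dist_eq_norm, ← integral_sub (integrable_eval hω hf t) (integrable_eval hω hg t),
        L1.dist_eq_integral_dist]
      simp only [dist_eq_norm]
      have h0 : 0 ≤ ∫ a, ‖f a - g a‖ ∂μ := integral_nonneg fun _ => norm_nonneg _
      have h1 : ‖∫ v, (f v (wr t (ω v)) - g v (wr t (ω v))) ∂μ‖ ≤ ∫ a, ‖f a - g a‖ ∂μ := by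
        refine norm_integral_le_of_norm_le (hf.sub hg).norm (Eventually.of_forall fun v => ?_)
        exact (f v - g v).norm_coe_le_norm _
      have h2 : 0 ≤ ‖L‖ * ∫ a, ‖f a - g a‖ ∂μ := by positivity
      linarith
    · have hf := L1.integrable_coeFn f
      have hg := L1.integrable_coeFn g
      rw [dist_eq_norm, ← integral_sub (L.integrable_comp hf) (L.integrable_comp hg),
        L1.dist_eq_integral_dist]
      simp only [dist_eq_norm]
      have h0 : 0 ≤ ∫ a, ‖f a - g a‖ ∂μ := integral_nonneg fun _ => norm_nonneg _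
      have h1 : ‖∫ v, (L (f v) - L (g v)) ∂μ‖ ≤ ∫ a, ‖L‖ * ‖f a - g a‖ ∂μ := by
        refine norm_integral_le_of_norm_le ((hf.sub hg).norm.const_mul _)
          (Eventually.of_forall fun v => ?_)
        rw [← map_sub]
        exact L.le_opNorm _
      rw [integral_const_mul] at h1
      linarith
  · intro f g hfg hf h1
    have e1 : ∫ v, L (g v) ∂μ = ∫ v, L (f v) ∂μ :=
      integral_congr_ae (hfg.mono fun v hv => by simp only [hv])
    rw [e1]
    refine h1.congr fun t => ?_
    exact integral_congr_ae (hfg.mono fun v hv => by simp only [hv])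

end Pool.Agent.KS6_88.WF
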