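import Pool.Agent.KS6_88.WF.Expl
import Pool.Agent.KS6_88.WF.Torus

/-! # The billiard flow as a linear flow on the torus -/

set_option autoImplicit false

open Set Filter Topology MeasureTheory
open scoped RealInnerProductSpace

namespace Pool.Agent.KS6_88.WF

open Pool.Agent.H800R2 Pool.Agent.H800R2.Ball

/-- the chord profile as a function of the half angle and the torus coordinate -/
noncomputable def zc (θ : ℝ) (x : UnitAddCircle) : ℂ :=
  zeta (Real.sin θ) (Real.cos θ) θ (AddCircle.equivIco 1 0 x : ℝ)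

theorem zc_coe (θ x : ℝ) :
    zc θ (x : UnitAddCircle) = zeta (Real.sin θ) (Real.cos θ) θ (Int.fract x) := by
  unfold zc
  congr 1
  have h := AddCircle.coe_equivIco_mk_apply (p := (1 : ℝ)) x
  rw [div_one, mul_one] at h
  exact h

theorem zeta_zero_one (θ : ℝ) : zeta (Real.sin θ) (Real.cos θ) θ 0 =
    zeta (Real.sin θ) (Real.cos θ) θ 1 := by
  unfold zeta
  have h1 := neg_sq_eq_exp (θ := θ) rfl rfl
  have h2 : Complex.exp (((-(2 * θ * 1) : ℝ) : ℂ) * Complex.I) *
      Complex.exp (((2 * θ : ℝ) : ℂ) * Complex.I) = 1 := by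
    rw [← Complex.exp_add, ← Complex.exp_zero]
    congr 1
    push_cast
    ring
  rw [← h1] at h2
  have h3 : (Real.sin θ : ℂ) ^ 2 + (Real.cos θ : ℂ) ^ 2 = 1 := by
    exact_mod_cast Real.sin_sq_add_cos_sq θ
  have h4 : Complex.exp (((-(2 * θ * 0) : ℝ) : ℂ) * Complex.I) = 1 := by simp
  rw [h4]
  set E := Complex.exp (((-(2 * θ * 1) : ℝ) : ℂ) * Complex.I)
  push_cast at h2 h3 ⊢
  have h5 : (Complex.sin θ - Complex.cos θ * Complex.I) *
      (Complex.sin θ + Complex.cos θ * Complex.I) = 1 := by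
    linear_combination h3 - (Complex.cos θ) ^ 2 * Complex.I_sq
  linear_combination (Complex.sin θ - Complex.cos θ * Complex.I) * E * h5 +
    (Complex.sin θ + Complex.cos θ * Complex.I) * h2

theorem continuous_zeta : Continuous (fun p : ℝ × ℝ => zeta (Real.sin p.1) (Real.cos p.1) p.1 p.2) := by
  unfold zeta
  fun_prop

theorem continuous_zc : Continuous (fun p : ℝ × UnitAddCircle => zc p.1 p.2) := by
  have hq : IsOpenQuotientMap (Prod.map (id : ℝ → ℝ) ((↑) : ℝ → UnitAddCircle)) :=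
    IsOpenQuotientMap.id.prodMap QuotientAddGroup.isOpenQuotientMap_mk
  rw [← hq.continuous_comp_iff]
  have h1 : ((fun p : ℝ × UnitAddCircle => zc p.1 p.2) ∘
      (Prod.map (id : ℝ → ℝ) ((↑) : ℝ → UnitAddCircle))) =
      fun p : ℝ × ℝ => zeta (Real.sin p.1) (Real.cos p.1) p.1 (Int.fract p.2) := by
    ext p
    simp only [Function.comp, Prod.map, id]
    exact zc_coe _ _
  rw [h1]
  refine ContinuousOn.comp_fract
    (f := fun (p : ℝ × ℝ) (x : ℝ) => zeta (Real.sin p.1) (Real.cos p.1) p.1 x) ?_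
    continuous_snd (fun p => zeta_zero_one p.1)
  refine Continuous.continuousOn ?_
  exact continuous_zeta.comp (by fun_prop : Continuous fun q : (ℝ × ℝ) × ℝ => (q.1.1, q.2))

theorem norm_zeta_le {θ x : ℝ} (hx : x ∈ Icc (0 : ℝ) 1) :
    ‖zeta (Real.sin θ) (Real.cos θ) θ x‖ ≤ 1 := by
  unfold zeta
  have h := norm_sq_chord (2 * Real.sin θ * x - Real.sin θ) (Real.cos θ) 1 (by simp)
  rw [mul_one] at h
  rw [norm_mul, Complex.norm_exp_ofReal_mul_I, mul_one]
  refine (sq_le_one_iff₀ (norm_nonneg _)).1 ?_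
  rw [h]
  have h1 := Real.sin_sq_add_cos_sq θ
  have h2 : (2 * Real.sin θ * x - Real.sin θ) ^ 2 = Real.sin θ ^ 2 * (2 * x - 1) ^ 2 := by ring
  rw [h2]
  have h3 : (2 * x - 1) ^ 2 ≤ 1 := by nlinarith [hx.1, hx.2]
  nlinarith [sq_nonneg (Real.sin θ)]

theorem norm_zc_le (θ : ℝ) (x : UnitAddCircle) : ‖zc θ x‖ ≤ 1 := by
  unfold zc
  have h := (AddCircle.equivIco 1 0 x).2
  refine norm_zeta_le ⟨h.1, ?_⟩
  have := h.2
  linarith

variable {n : ℕ}

/-- the frequencies of the billiard flow -/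
noncomputable def om (P v : Euc n) : Fin 2 → ℝ :=
  ![1 / (2 * cv P v), thv P v / (2 * Real.pi * cv P v)]

/-- the initial phases -/
noncomputable def sh (P v : Euc n) : UnitAddTorus (Fin 2) :=
  ![(((⟪P, v⟫ + cv P v) / (2 * cv P v) : ℝ) : UnitAddCircle),
    ((thv P v * (⟪P, v⟫ + cv P v) / (2 * Real.pi * cv P v) : ℝ) : UnitAddCircle)]

/-- the position as a function on the torus -/
noncomputable def GG (P v : Euc n) (z : UnitAddTorus (Fin 2)) : Euc n :=
  pl v (bv P v) ((AddCircle.toCircle (z 1) : ℂ) * zc (thv P v) (z 0))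

theorem photon_GG {P v : Euc n} (hn : 0 < n) (hP : ‖P‖ < 1) (hv : ‖v‖ = 1) (hm : 0 < mv P v)
    {t : ℝ} (ht : 0 ≤ t) :
    Photon (Metric.ball (0 : Euc n) 1) P v t (GG P v (wr t (om P v) + sh P v)) := by
  obtain ⟨h1, h2, h3⟩ := bv_spec hv hm
  have hc := cv_pos (v := v) hP
  have h4 := expl hn hv h1 h2 hc (sin_thv hv) (cos_thv hP hv) (inner_lt hP).1 (inner_lt hP).2 ht
  rw [← h3] at h4
  convert h4 using 1
  unfold GG
  have e0 : (wr t (om P v) + sh P v) 0 = (((t + ⟪P, v⟫ + cv P v) / (2 * cv P v) : ℝ) :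
      UnitAddCircle) := by
    simp only [Pi.add_apply, wr, om, sh, Matrix.cons_val_zero]
    rw [← AddCircle.coe_add]
    congr 1
    field_simp
    ring
  have e1 : (wr t (om P v) + sh P v) 1 =
      ((thv P v * ((t + ⟪P, v⟫ + cv P v) / (2 * cv P v)) / Real.pi : ℝ) : UnitAddCircle) := by
    simp only [Pi.add_apply, wr, om, sh, Matrix.cons_val_one, Matrix.cons_val_zero]
    rw [← AddCircle.coe_add]
    congr 1
    have hpi := Real.pi_pos
    field_simp
    ring
  rw [e0, e1, zc_coe, AddCircle.toCircle_apply_mk, Circle.coe_exp]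
  congr 2
  · congr 1
    have hpi := Real.pi_pos
    push_cast
    field_simp
  · rw [← sin_thv hv, ← cos_thv hP hv]

end Pool.Agent.KS6_88.WF
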