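import Pool.Agent.KS6_88.WF.Sim

/-! # Gluing partial torus models -/

set_option autoImplicit false

open Set Filter Topology MeasureTheory
open scoped RealInnerProductSpace

namespace Pool.Agent.KS6_88.WF

open Pool.Agent.H800R2

variable {n : ℕ}

/-- a torus model for the directions in an open set `V` -/
structure PM (Ω : Set (Euc n)) (P : Euc n) (V : Set (Sp n)) (G : Sp n → T2 → Euc n)
    (ω : Sp n → Fin 2 → ℝ) (C : ℝ) : Prop where
  isOpen : IsOpen V
  cont : ∀ v, Continuous (G v)
  contOn : Continuous fun p : V × T2 => G p.1 p.2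
  bound : ∀ v ∈ V, ∀ z, ‖G v z‖ ≤ C
  meas : Measurable ω
  freq : ∀ k : Fin 2 → ℤ, k ≠ 0 → ∀ N : Set ℝ, volume N = 0 →
    sg n {v : Sp n | v ∈ V ∧ ∑ i, (k i : ℝ) * ω v i ∈ N} = 0
  photon : ∀ v ∈ V, ∀ t, 0 ≤ t → Photon Ω P (v : Euc n) t (G v (wr t (ω v)))
  inside : ∀ v ∈ V, ∀ z, G v z ∈ closure Ω

namespace PM

variable {Ω : Set (Euc n)} {P : Euc n} {V : Set (Sp n)} {G : Sp n → T2 → Euc n}
  {ω : Sp n → Fin 2 → ℝ} {C : ℝ}

theorem toModel (M : PM Ω P V G ω C) (hnull : sg n Vᶜ = 0)
    (hfull : ∀ U : Set (Euc n), IsOpen U → (U ∩ Ω).Nonempty → ∃ v ∈ V, ∃ z, G v z ∈ U) :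
    TorusModel Ω P V G ω C where
  isOpen := M.isOpen
  null := hnull
  cont := M.cont
  contOn := M.contOn
  bound := M.bound
  meas := M.meas
  freq k hk N hN := by
    refine measure_mono_null ?_ (measure_union_null (M.freq k hk N hN) hnull)
    intro v hv
    by_cases h : v ∈ V
    · exact Or.inl ⟨h, hv⟩
    · exact Or.inr h
  photon := M.photon
  full := hfull
  inside := M.inside

theorem continuousOn_G (M : PM Ω P V G ω C) :
    ContinuousOn (fun p : Sp n × T2 => G p.1 p.2) (V ×ˢ univ) := by
  rw [continuousOn_iff_continuous_domRestrict]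
  have h1 : Continuous (fun q : ↥(V ×ˢ (univ : Set T2)) =>
      ((⟨(q : Sp n × T2).1, q.2.1⟩, (q : Sp n × T2).2) : V × T2)) := by
    refine Continuous.prodMk ?_ (continuous_snd.comp continuous_subtype_val)
    exact Continuous.subtype_mk (continuous_fst.comp continuous_subtype_val) _
  have h2 := M.contOn.comp h1
  exact h2

open Classical in
/-- gluing two partial models -/
theorem glue {V' : Set (Sp n)} {G' : Sp n → T2 → Euc n} {ω' : Sp n → Fin 2 → ℝ}
    (M : PM Ω P V G ω C) (M' : PM Ω P V' G' ω' C) (hd : Disjoint V V') :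
    PM Ω P (V ∪ V') (fun v => if v ∈ V then G v else G' v) (fun v => if v ∈ V then ω v else ω' v)
      C where
  isOpen := M.isOpen.union M'.isOpen
  cont v := by
    by_cases h : v ∈ V
    · simp only [if_pos h]
      exact M.cont v
    · simp only [if_neg h]
      exact M'.cont v
  contOn := by
    have hnot : ∀ v ∈ V', v ∉ V := fun v h1 h2 => Set.disjoint_left.1 hd h2 h1
    have h1 : ContinuousOn (fun p : Sp n × T2 => (if p.1 ∈ V then G p.1 else G' p.1) p.2)
        (V ×ˢ univ) :=
      M.continuousOn_G.congr fun p hp => by simp only [if_pos hp.1]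
    have h2 : ContinuousOn (fun p : Sp n × T2 => (if p.1 ∈ V then G p.1 else G' p.1) p.2)
        (V' ×ˢ univ) :=
      M'.continuousOn_G.congr fun p hp => by simp only [if_neg (hnot _ hp.1)]
    have h3 : ContinuousOn (fun p : Sp n × T2 => (if p.1 ∈ V then G p.1 else G' p.1) p.2)
        ((V ×ˢ univ) ∪ (V' ×ˢ univ)) :=
      h1.union_of_isOpen h2 (M.isOpen.prod isOpen_univ) (M'.isOpen.prod isOpen_univ)
    have h4 : Continuous (fun p : ↥(V ∪ V') × T2 => ((p.1 : Sp n), p.2)) := by fun_prop
    refine h3.comp_continuous h4 fun p => ?_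
    rcases p.1.2 with h | h
    · exact Or.inl ⟨h, trivial⟩
    · exact Or.inr ⟨h, trivial⟩
  bound v hv z := by
    by_cases h : v ∈ V
    · simp only [if_pos h]
      exact M.bound v h z
    · simp only [if_neg h]
      exact M'.bound v (hv.resolve_left h) z
  meas := Measurable.ite M.isOpen.measurableSet M.meas M'.meas
  freq k hk N hN := by
    refine measure_mono_null ?_ (measure_union_null (M.freq k hk N hN) (M'.freq k hk N hN))
    rintro v ⟨hv, hvN⟩
    by_cases h : v ∈ V
    · simp only [if_pos h] at hvN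
      exact Or.inl ⟨h, hvN⟩
    · simp only [if_neg h] at hvN
      exact Or.inr ⟨hv.resolve_left h, hvN⟩
  photon v hv t ht := by
    by_cases h : v ∈ V
    · simp only [if_pos h]
      exact M.photon v h t ht
    · simp only [if_neg h]
      exact M'.photon v (hv.resolve_left h) t ht
  inside v hv z := by
    by_cases h : v ∈ V
    · simp only [if_pos h]
      exact M.inside v h z
    · simp only [if_neg h]
      exact M'.inside v (hv.resolve_left h) z

end PM

end Pool.Agent.KS6_88.WF
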