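import Mathlib

/-! # The Haar measure of the two-dimensional torus -/

set_option autoImplicit false

open Set Filter Topology MeasureTheory

namespace Pool.Agent.KS6_88.WF

/-- the two-dimensional torus -/
abbrev T2 : Type := UnitAddTorus (Fin 2)

/-- Haar measure on the torus -/
noncomputable def haarT : Measure (UnitAddTorus (Fin 2)) :=
  Measure.pi fun _ => AddCircle.haarAddCircle

instance : IsProbabilityMeasure haarT := by
  unfold haarT
  infer_instance

instance : haarT.IsAddHaarMeasure := by
  unfold haarT
  infer_instance

instance : haarT.IsOpenPosMeasure := inferInstance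

instance : haarT.IsAddRightInvariant := inferInstance

theorem integral_fourier (k : ℤ) :
    ∫ x : UnitAddCircle, fourier k x ∂AddCircle.haarAddCircle = if k = 0 then 1 else 0 := by
  by_cases hk : k = 0
  · subst hk
    simp
  · rw [if_neg hk]
    exact integral_eq_zero_of_add_right_eq_neg (μ := AddCircle.haarAddCircle)
      (fourier_add_half_inv_index hk one_pos)

theorem integral_mFourier (k : Fin 2 → ℤ) :
    ∫ z, UnitAddTorus.mFourier k z ∂haarT = if k = 0 then 1 else 0 := by
  unfold haarT UnitAddTorus.mFourier
  simp only [ContinuousMap.coe_mk]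
  rw [integral_fintype_prod_eq_prod (fun (i : Fin 2) (x : UnitAddCircle) => fourier (k i) x)]
  simp_rw [integral_fourier]
  by_cases hk : k = 0
  · subst hk
    simp
  · rw [if_neg hk]
    obtain ⟨i, hi⟩ := Function.ne_iff.1 hk
    exact Finset.prod_eq_zero (Finset.mem_univ i) (if_neg hi)

theorem integrable_haarT (f : C(UnitAddTorus (Fin 2), ℂ)) : Integrable f haarT := by
  refine Integrable.mono' (integrable_const ‖f‖) f.continuous.aestronglyMeasurable
    (Eventually.of_forall fun z => f.norm_coe_le_norm z)

/-- integration against Haar measure as a continuous linear form -/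
noncomputable def LT : C(UnitAddTorus (Fin 2), ℂ) →L[ℂ] ℂ :=
  LinearMap.mkContinuous
    { toFun := fun f => ∫ z, f z ∂haarT
      map_add' := fun f g => integral_add (integrable_haarT f) (integrable_haarT g)
      map_smul' := fun a f => by
        simp only [ContinuousMap.coe_smul, Pi.smul_apply, RingHom.id_apply]
        exact integral_smul a _ } 1 (fun f => by
      simp only [LinearMap.coe_mk, AddHom.coe_mk, one_mul]
      refine (norm_integral_le_of_norm_le_const (C := ‖f‖)
        (Eventually.of_forall fun z => f.norm_coe_le_norm z)).trans ?_
      simp)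

theorem LT_apply (f : C(UnitAddTorus (Fin 2), ℂ)) : LT f = ∫ z, f z ∂haarT := rfl

end Pool.Agent.KS6_88.WF
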