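import Pool.Agent.KS6_88.WF.Expl

/-! # Legs of a billiard path between two concentric spheres -/

set_option autoImplicit false

open Set Filter Topology
open scoped RealInnerProductSpace

namespace Pool.Agent.KS6_88.WF

open Pool.Agent.H800R2 Pool.Agent.H800R2.Ball

variable {n : ℕ} {a b : Euc n} {Ω : Set (Euc n)}

theorem line_pl (s σ m : ℝ) (u : ℂ) : pl a b ((s - m * Complex.I) * u) + σ • pl a b u =
    pl a b ((((s + σ : ℝ) : ℂ) - m * Complex.I) * u) := by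
  rw [← pl_smul, ← pl_add]
  congr 1
  push_cast
  ring

/-- free flight -/
theorem leg_fly {m σ σ' : ℝ} {u : ℂ} (h1 : σ ≤ σ')
    (hseg : ∀ s : ℝ, σ < s → s ≤ σ' → pl a b ((s - m * Complex.I) * u) ∈ Ω) :
    Photon Ω (pl a b ((σ - m * Complex.I) * u)) (pl a b u) (σ' - σ)
      (pl a b ((σ' - m * Complex.I) * u)) := by
  have h := Photon.fly (Ω := Ω) (pl a b ((σ - m * Complex.I) * u))
    (pl a b u) (σ' - σ) (by linarith) (fun s hs => by
      rw [line_pl]
      exact hseg _ (by linarith [hs.1]) (by linarith [hs.2]))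
  rw [line_pl] at h
  convert h using 3
  push_cast
  ring

variable (ha : ‖a‖ = 1) (hb : ‖b‖ = 1) (hab : ⟪a, b⟫ = 0)
include ha hb hab

/-- reflection at the outer sphere -/
theorem bounce_out (hout : ∀ x : Euc n, ‖x‖ = 1 → x ∈ frontier Ω ∧ IsOuterNormal Ω x x)
    {c m : ℝ} (hc : 0 < c) (hcm : c ^ 2 + m ^ 2 = 1) {σ : ℝ} (hσ : σ < c) {u : ℂ}
    (hu : ‖u‖ = 1)
    (hseg : ∀ s : ℝ, σ < s → s < c → pl a b ((s - m * Complex.I) * u) ∈ Ω) {t : ℝ} {q : Euc n}
    (h : Photon Ω (pl a b ((((-c : ℝ) : ℂ) - m * Complex.I) *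
      (-((c : ℂ) - m * Complex.I) ^ 2 * u)))
      (pl a b (-((c : ℂ) - m * Complex.I) ^ 2 * u)) t q) :
    Photon Ω (pl a b ((σ - m * Complex.I) * u)) (pl a b u) (c - σ + t) q := by
  have hcmC : (c : ℂ) ^ 2 + (m : ℂ) ^ 2 = 1 := by exact_mod_cast hcm
  have hnu : ‖pl a b (((c : ℂ) - m * Complex.I) * u)‖ = 1 := by
    rw [norm_pl ha hb hab, ← sq_eq_sq₀ (norm_nonneg _) zero_le_one, norm_sq_chord _ _ _ hu, hcm,
      one_pow]
  have hpt : pl a b ((σ - m * Complex.I) * u) + (c - σ) • pl a b u =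
      pl a b (((c : ℂ) - m * Complex.I) * u) := by
    rw [line_pl]
    congr 3
    simp
  have hinn : ⟪pl a b u, pl a b (((c : ℂ) - m * Complex.I) * u)⟫ = c := by
    rw [inner_pl ha hb hab]
    have h7 : u.re * u.re + u.im * u.im = 1 := by
      rw [← Complex.normSq_apply, Complex.normSq_eq_norm_sq, hu, one_pow]
    simp
    linear_combination c * h7
  have e1 : pl a b (((c : ℂ) - m * Complex.I) * u) =
      pl a b ((((-c : ℝ) : ℂ) - m * Complex.I) * (-((c : ℂ) - m * Complex.I) ^ 2 * u)) := by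
    congr 1
    push_cast
    linear_combination (-((c : ℂ) - m * Complex.I) * u) * hcmC +
      ((c : ℂ) - m * Complex.I) * u * ((m : ℂ) ^ 2) * Complex.I_sq
  have e2 : pl a b u - (2 * c) • pl a b (((c : ℂ) - m * Complex.I) * u) =
      pl a b (-((c : ℂ) - m * Complex.I) ^ 2 * u) := by
    rw [← pl_smul, ← pl_sub]
    congr 1
    push_cast
    linear_combination (-u) * hcmC + u * (m : ℂ) ^ 2 * Complex.I_sq
  refine Photon.bounce _ _ (pl a b (((c : ℂ) - m * Complex.I) * u)) q (c - σ) t (by linarith)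
    (fun s hs => ?_) ?_ ?_ ?_ ?_
  · rw [line_pl]
    exact hseg _ (by linarith [hs.1]) (by linarith [hs.2])
  · rw [hpt]
    exact (hout _ hnu).1
  · rw [hpt]
    exact (hout _ hnu).2
  · rw [hinn]
    exact hc
  · rw [hpt, hinn, e2, e1]
    exact h

/-- reflection at the inner sphere -/
theorem bounce_in {α : ℝ} (hα : 0 < α)
    (hinn : ∀ x : Euc n, ‖x‖ = α → x ∈ frontier Ω ∧ IsOuterNormal Ω x (-(α⁻¹ • x)))
    {e m : ℝ} (he : 0 < e) (hem : e ^ 2 + m ^ 2 = α ^ 2) {σ : ℝ} (hσ : σ < -e) {u : ℂ}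
    (hu : ‖u‖ = 1)
    (hseg : ∀ s : ℝ, σ < s → s < -e → pl a b ((s - m * Complex.I) * u) ∈ Ω) {t : ℝ} {q : Euc n}
    (h : Photon Ω (pl a b (((e : ℂ) - m * Complex.I) *
      (-((e : ℂ) + m * Complex.I) ^ 2 / (α : ℂ) ^ 2 * u)))
      (pl a b (-((e : ℂ) + m * Complex.I) ^ 2 / (α : ℂ) ^ 2 * u)) t q) :
    Photon Ω (pl a b ((σ - m * Complex.I) * u)) (pl a b u) (-e - σ + t) q := by
  have hemC : (e : ℂ) ^ 2 + (m : ℂ) ^ 2 = (α : ℂ) ^ 2 := by exact_mod_cast hem
  have hαC : (α : ℂ) ≠ 0 := by exact_mod_cast hα.ne'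
  have hnu : ‖pl a b ((((-e : ℝ) : ℂ) - m * Complex.I) * u)‖ = α := by
    rw [norm_pl ha hb hab, ← sq_eq_sq₀ (norm_nonneg _) hα.le, norm_sq_chord _ _ _ hu, neg_sq, hem]
  have hpt : pl a b ((σ - m * Complex.I) * u) + (-e - σ) • pl a b u =
      pl a b ((((-e : ℝ) : ℂ) - m * Complex.I) * u) := by
    rw [line_pl]
    congr 3
    simp
  have hin2 : ⟪pl a b u, -(α⁻¹ • pl a b ((((-e : ℝ) : ℂ) - m * Complex.I) * u))⟫ = e / α := by
    rw [inner_neg_right, real_inner_smul_right, inner_pl ha hb hab]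
    have h7 : u.re * u.re + u.im * u.im = 1 := by
      rw [← Complex.normSq_apply, Complex.normSq_eq_norm_sq, hu, one_pow]
    simp
    field_simp
    linear_combination e * h7
  have e1 : pl a b ((((-e : ℝ) : ℂ) - m * Complex.I) * u) =
      pl a b (((e : ℂ) - m * Complex.I) *
        (-((e : ℂ) + m * Complex.I) ^ 2 / (α : ℂ) ^ 2 * u)) := by
    congr 1
    push_cast
    field_simp
    linear_combination ((e : ℂ) + m * Complex.I) * u * hemC -
      ((e : ℂ) + m * Complex.I) * u * ((m : ℂ) ^ 2) * Complex.I_sq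
  have e2 : pl a b u - (2 * (e / α)) • -(α⁻¹ • pl a b ((((-e : ℝ) : ℂ) - m * Complex.I) * u)) =
      pl a b (-((e : ℂ) + m * Complex.I) ^ 2 / (α : ℂ) ^ 2 * u) := by
    rw [smul_neg, sub_neg_eq_add, smul_smul, ← pl_smul, ← pl_add]
    congr 1
    push_cast
    field_simp
    linear_combination (-u) * hemC + u * (m : ℂ) ^ 2 * Complex.I_sq
  refine Photon.bounce _ _ (-(α⁻¹ • pl a b ((((-e : ℝ) : ℂ) - m * Complex.I) * u))) q (-e - σ) t
    (by linarith) (fun s hs => ?_) ?_ ?_ ?_ ?_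
  · rw [line_pl]
    exact hseg _ (by linarith [hs.1]) (by linarith [hs.2])
  · rw [hpt]
    exact (hinn _ hnu).1
  · rw [hpt]
    exact (hinn _ hnu).2
  · rw [hin2]
    positivity
  · rw [hpt, hin2, e2, e1]
    exact h

end Pool.Agent.KS6_88.WF
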