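import Pool.Agent.KS6_88.WF.Torus

/-! # Weyl equidistribution of a single linear flow on a torus -/

set_option autoImplicit false

open Set Filter Topology MeasureTheory

namespace Pool.Agent.KS6_88.WF

variable {ι : Type*} [Fintype ι]

omit [Fintype ι] in
theorem continuous_wr_left (x : ι → ℝ) : Continuous (fun t : ℝ => wr t x) := by
  unfold wr
  refine continuous_pi fun i => ?_
  exact (AddCircle.continuous_mk' (1 : ℝ)).comp (by fun_prop)

theorem integral_exp_bound {l : ℝ} (hl : l ≠ 0) (T : ℝ) :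
    ‖∫ t in (0 : ℝ)..T, (Real.fourierChar (t * l) : ℂ)‖ ≤ 1 / (Real.pi * |l|) := by
  have hpi := Real.pi_pos
  have hc : (2 * Real.pi * Complex.I * l : ℂ) ≠ 0 := by
    have h1 : (l : ℂ) ≠ 0 := by exact_mod_cast hl
    have h2 : (Real.pi : ℂ) ≠ 0 := by exact_mod_cast hpi.ne'
    simp [h1, h2]
  have e1 : ∀ t : ℝ, (Real.fourierChar (t * l) : ℂ) =
      Complex.exp ((2 * Real.pi * Complex.I * l) * t) := by
    intro t
    rw [Real.fourierChar_apply]
    congr 1
    push_cast
    ring
  simp_rw [e1]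
  rw [integral_exp_mul_complex hc, norm_div]
  have h3 : ‖(2 * Real.pi * Complex.I * l : ℂ)‖ = 2 * Real.pi * |l| := by
    rw [norm_mul, norm_mul, norm_mul, Complex.norm_I, Complex.norm_real, Complex.norm_real,
      Real.norm_of_nonneg hpi.le]
    simp
  rw [h3]
  have h4 : ‖Complex.exp (2 * Real.pi * Complex.I * l * T) -
      Complex.exp (2 * Real.pi * Complex.I * l * (0 : ℝ))‖ ≤ 2 := by
    refine (norm_sub_le _ _).trans ?_
    have h5 : ∀ t : ℝ, ‖Complex.exp (2 * Real.pi * Complex.I * l * t)‖ = 1 := by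
      intro t
      rw [← e1]
      exact Circle.norm_coe _
    rw [h5, h5]
    norm_num
  have habs : 0 < |l| := abs_pos.2 hl
  calc _ ≤ 2 / (2 * Real.pi * |l|) := div_le_div_of_nonneg_right h4 (by positivity)
    _ = 1 / (Real.pi * |l|) := by field_simp

/-- **Weyl's theorem** for a linear flow with rationally independent frequencies -/
theorem weyl {x : ι → ℝ} (hx : ∀ k : ι → ℤ, k ≠ 0 → ∑ i, (k i : ℝ) * x i ≠ 0)
    (L : C(UnitAddTorus ι, ℂ) →L[ℂ] ℂ)
    (hL : ∀ n : ι → ℤ, L (UnitAddTorus.mFourier n) = if n = 0 then 1 else 0)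
    (f : C(UnitAddTorus ι, ℂ)) :
    Tendsto (fun T : ℝ => (T : ℂ)⁻¹ * ∫ t in (0 : ℝ)..T, f (wr t x)) atTop (𝓝 (L f)) := by
  have hint : ∀ (g : C(UnitAddTorus ι, ℂ)) (T : ℝ),
      IntervalIntegrable (fun t => g (wr t x)) volume 0 T := fun g T =>
    (g.continuous.comp (continuous_wr_left x)).intervalIntegrable _ _
  have hclosed : IsClosed {f : C(UnitAddTorus ι, ℂ) |
      Tendsto (fun T : ℝ => (T : ℂ)⁻¹ * ∫ t in (0 : ℝ)..T, f (wr t x)) atTop (𝓝 (L f))} := by
    refine isClosed_tendsto (T := fun (T : ℝ) (f : C(UnitAddTorus ι, ℂ)) =>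
      (T : ℂ)⁻¹ * ∫ t in (0 : ℝ)..T, f (wr t x)) (S := fun f => L f)
      (C := 1 + ‖L‖) (fun T f g => ?_) (fun f g => ?_)
    · rw [dist_eq_norm, dist_eq_norm, ← mul_sub,
        ← intervalIntegral.integral_sub (hint f T) (hint g T), norm_mul]
      have h1 : ‖∫ t in (0 : ℝ)..T, (f (wr t x) - g (wr t x))‖ ≤ ‖f - g‖ * |T - 0| :=
        intervalIntegral.norm_integral_le_of_norm_le_const fun t _ => (f - g).norm_coe_le_norm _
      rw [sub_zero] at h1
      have h2 : ‖(T : ℂ)⁻¹‖ * |T| ≤ 1 := by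
        rw [norm_inv, Complex.norm_real, Real.norm_eq_abs]
        exact inv_mul_le_one
      calc ‖(T : ℂ)⁻¹‖ * ‖∫ t in (0 : ℝ)..T, (f (wr t x) - g (wr t x))‖
          ≤ ‖(T : ℂ)⁻¹‖ * (‖f - g‖ * |T|) := mul_le_mul_of_nonneg_left h1 (norm_nonneg _)
        _ = (‖(T : ℂ)⁻¹‖ * |T|) * ‖f - g‖ := by ring
        _ ≤ 1 * ‖f - g‖ := mul_le_mul_of_nonneg_right h2 (norm_nonneg _)
        _ ≤ (1 + ‖L‖) * ‖f - g‖ := by nlinarith [norm_nonneg L, norm_nonneg (f - g)]
    · rw [dist_eq_norm, dist_eq_norm, ← map_sub]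
      refine (L.le_opNorm _).trans ?_
      nlinarith [norm_nonneg L, norm_nonneg (f - g)]
  have hspan : (Submodule.span ℂ (range <| UnitAddTorus.mFourier (d := ι)) :
      Set C(UnitAddTorus ι, ℂ)) ⊆ {f : C(UnitAddTorus ι, ℂ) |
      Tendsto (fun T : ℝ => (T : ℂ)⁻¹ * ∫ t in (0 : ℝ)..T, f (wr t x)) atTop (𝓝 (L f))} := by
    intro f hf
    refine Submodule.span_induction (p := fun f _ => Tendsto (fun T : ℝ =>
      (T : ℂ)⁻¹ * ∫ t in (0 : ℝ)..T, f (wr t x)) atTop (𝓝 (L f))) ?_ ?_ ?_ ?_ hf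
    · rintro _ ⟨n, rfl⟩
      rw [hL]
      by_cases hn : n = 0
      · subst hn
        simp only [if_true, UnitAddTorus.mFourier_zero, ContinuousMap.one_apply,
          intervalIntegral.integral_const, sub_zero]
        refine tendsto_const_nhds.congr' ?_
        filter_upwards [eventually_gt_atTop (0 : ℝ)] with T hT
        rw [Complex.real_smul, mul_one, inv_mul_cancel₀]
        exact_mod_cast hT.ne'
      · rw [if_neg hn]
        simp_rw [mFourier_wr]
        have hl := hx n hn
        set l := ∑ i, (n i : ℝ) * x i with hldef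
        have h1 : Tendsto (fun T : ℝ => T⁻¹ * (1 / (Real.pi * |l|))) atTop (𝓝 0) := by
          have := tendsto_inv_atTop_zero.mul_const (1 / (Real.pi * |l|))
          rw [zero_mul] at this
          exact this
        refine squeeze_zero_norm' ?_ h1
        filter_upwards [eventually_gt_atTop (0 : ℝ)] with T hT
        rw [norm_mul, norm_inv, Complex.norm_real, Real.norm_of_nonneg hT.le]
        exact mul_le_mul_of_nonneg_left (integral_exp_bound hl T) (by positivity)
    · simp
    · intro f g _ _ hf hg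
      have h1 := hf.add hg
      rw [map_add]
      refine h1.congr fun T => ?_
      rw [← mul_add, ← intervalIntegral.integral_add (hint f T) (hint g T)]
      rfl
    · intro a f _ hf
      have h1 := hf.const_mul a
      rw [map_smul, smul_eq_mul]
      refine h1.congr fun T => ?_
      rw [mul_left_comm, ← intervalIntegral.integral_const_mul]
      rfl
  have h3 := closure_minimal hspan hclosed
  refine h3 ?_
  have h4 := UnitAddTorus.span_mFourier_closure_eq_top (d := ι)
  rw [← Submodule.topologicalClosure_coe, h4]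
  trivial

end Pool.Agent.KS6_88.WF
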