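import Pool.Agent.KS6_88.WF.Defs
import Pool.Agent.KS6_88.WF.Haar
import Pool.Agent.KS6_88.WF.Weyl
import Pool.Agent.KS6_88.WF.Dyn

/-! # From a torus model of the billiard flow to equidistribution -/

set_option autoImplicit false

open Set Filter Topology MeasureTheory
open scoped RealInnerProductSpace

namespace Pool.Agent.KS6_88.WF

open Pool.Agent.H800R2

variable {n : ℕ}

/-- A torus model of the billiard flow of the photons emitted from `P`: for the directions `v` in
an open set `V` of full measure the position at time `t` is `G v (t ω v)` for a linear flow on the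
two-dimensional torus whose frequencies have absolutely continuous laws. -/
structure TorusModel (Ω : Set (Euc n)) (P : Euc n) (V : Set (Sp n)) (G : Sp n → T2 → Euc n)
    (ω : Sp n → Fin 2 → ℝ) (C : ℝ) : Prop where
  isOpen : IsOpen V
  null : sg n Vᶜ = 0
  cont : ∀ v, Continuous (G v)
  contOn : Continuous fun p : V × T2 => G p.1 p.2
  bound : ∀ v ∈ V, ∀ z, ‖G v z‖ ≤ C
  meas : Measurable ω
  freq : ∀ k : Fin 2 → ℤ, k ≠ 0 → ∀ N : Set ℝ, volume N = 0 →
    sg n {v : Sp n | ∑ i, (k i : ℝ) * ω v i ∈ N} = 0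
  photon : ∀ v ∈ V, ∀ t, 0 ≤ t → Photon Ω P (v : Euc n) t (G v (wr t (ω v)))
  full : ∀ U : Set (Euc n), IsOpen U → (U ∩ Ω).Nonempty → ∃ v ∈ V, ∃ z, G v z ∈ U
  inside : ∀ v ∈ V, ∀ z, G v z ∈ closure Ω

namespace TorusModel

variable {Ω : Set (Euc n)} {P : Euc n} {V : Set (Sp n)} {G : Sp n → T2 → Euc n}
  {ω : Sp n → Fin 2 → ℝ} {C : ℝ} (M : TorusModel Ω P V G ω C)

include M

theorem restrict_V : (sg n).restrict V = sg n := by
  refine Measure.restrict_eq_self_of_ae_mem ?_
  rw [ae_iff]
  exact M.null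

theorem ae_V : ∀ᵐ v ∂(sg n), v ∈ V := by
  rw [ae_iff]
  exact M.null

theorem freq_ac {k : Fin 2 → ℤ} (hk : k ≠ 0) :
    (sg n).map (fun v : Sp n => ∑ i, (k i : ℝ) * ω v i) ≪ volume := by
  have hm : Measurable (fun v : Sp n => ∑ i, (k i : ℝ) * ω v i) :=
    Finset.measurable_sum _ fun i _ => ((measurable_pi_apply i).comp M.meas).const_mul _
  refine Measure.AbsolutelyContinuous.mk fun s hs h0 => ?_
  rw [Measure.map_apply hm hs]
  exact M.freq k hk s h0

/-- the observable on the torus -/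
noncomputable def F (φ : C(Euc n, ℂ)) (v : Sp n) : C(T2, ℂ) := φ.comp ⟨G v, M.cont v⟩

theorem F_apply (φ : C(Euc n, ℂ)) (v : Sp n) (z : T2) : M.F φ v z = φ (G v z) := rfl

theorem continuousOn_F (φ : C(Euc n, ℂ)) : ContinuousOn (M.F φ) V := by
  rw [continuousOn_iff_continuous_domRestrict]
  have h1 : Continuous (fun p : V × T2 => φ (G p.1 p.2)) := by
    have h := φ.continuous.comp M.contOn
    exact h
  have h3 := (ContinuousMap.curry ⟨_, h1⟩).continuous
  exact h3

theorem aesm_F (φ : C(Euc n, ℂ)) : AEStronglyMeasurable (M.F φ) (sg n) := by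
  rw [← M.restrict_V]
  exact (M.continuousOn_F φ).aestronglyMeasurable M.isOpen.measurableSet

theorem integrable_F (φ : C(Euc n, ℂ)) {w : Sp n → ℂ} (hw : Integrable w (sg n)) :
    Integrable (fun v => w v • M.F φ v) (sg n) := by
  obtain ⟨B, hB⟩ := (isCompact_closedBall (0 : Euc n) C).exists_bound_of_continuousOn
    φ.continuous.continuousOn
  refine (hw.norm.mul_const (max B 0)).mono'
    (hw.aestronglyMeasurable.smul (M.aesm_F φ)) ?_
  filter_upwards [M.ae_V] with v hv
  rw [norm_smul]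
  refine mul_le_mul_of_nonneg_left ?_ (norm_nonneg _)
  refine (ContinuousMap.norm_le _ (le_max_right _ _)).2 fun z => ?_
  refine (hB _ ?_).trans (le_max_left _ _)
  rw [mem_closedBall_zero_iff]
  exact M.bound v hv z

/-- complex version -/
theorem limit_complex {w : Sp n → ℂ} (hw : Integrable w (sg n)) (φ : C(Euc n, ℂ)) :
    Tendsto (fun t : ℝ => ∫ v, w v * φ (G v (wr t (ω v))) ∂(sg n)) atTop
      (𝓝 (∫ v, w v * ∫ z, φ (G v z) ∂haarT ∂(sg n))) := by
  have h1 := tendsto_torus (μ := sg n) M.meas (fun k hk => M.freq_ac hk) LT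
    integral_mFourier (M.integrable_F φ hw)
  have e1 : ∀ v : Sp n, LT (w v • M.F φ v) = w v * ∫ z, φ (G v z) ∂haarT := by
    intro v
    rw [map_smul, LT_apply, smul_eq_mul]
    rfl
  simp_rw [e1] at h1
  exact h1

/-- real version -/
theorem limit_real {w : Sp n → ℝ} (hw : Integrable w (sg n)) {φ : Euc n → ℝ}
    (hφ : Continuous φ) :
    Tendsto (fun t : ℝ => ∫ v, w v * φ (G v (wr t (ω v))) ∂(sg n)) atTop
      (𝓝 (∫ v, w v * ∫ z, φ (G v z) ∂haarT ∂(sg n))) := by
  have h1 := M.limit_complex (w := fun v => (w v : ℂ)) hw.ofReal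
    ⟨fun x => (φ x : ℂ), Complex.continuous_ofReal.comp hφ⟩
  simp only [ContinuousMap.coe_mk] at h1
  have e1 : ∀ v, ∫ z, ((φ (G v z) : ℝ) : ℂ) ∂haarT = ((∫ z, φ (G v z) ∂haarT : ℝ) : ℂ) :=
    fun v => integral_ofReal
  simp_rw [e1, ← Complex.ofReal_mul, integral_complex_ofReal] at h1
  exact (Complex.continuous_re.tendsto _).comp h1

/-- time averages -/
theorem time_average : ∀ᵐ v : Sp n ∂(sg n), ∀ φ : Euc n → ℝ, Continuous φ →
      Tendsto (fun T : ℝ => T⁻¹ * ∫ t in (0 : ℝ)..T, φ (G v (wr t (ω v)))) atTop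
        (𝓝 (∫ z, φ (G v z) ∂haarT)) := by
  have h0 : ∀ᵐ v : Sp n ∂(sg n), ∀ k : Fin 2 → ℤ, k ≠ 0 → ∑ i, (k i : ℝ) * ω v i ≠ 0 := by
    rw [ae_all_iff]
    intro k
    by_cases hk : k = 0
    · exact Eventually.of_forall fun v h => absurd hk h
    · have h1 := M.freq k hk {0} (by simp)
      have h2 := measure_eq_zero_iff_ae_notMem.1 h1
      filter_upwards [h2] with v hv _
      exact hv
  filter_upwards [h0] with v hv φ hφ
  have h1 := weyl hv LT integral_mFourier
    (M.F ⟨fun x => (φ x : ℂ), Complex.continuous_ofReal.comp hφ⟩ v)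
  have e2 : LT (M.F ⟨fun x => (φ x : ℂ), Complex.continuous_ofReal.comp hφ⟩ v) =
      ((∫ z, φ (G v z) ∂haarT : ℝ) : ℂ) := integral_ofReal
  rw [e2] at h1
  have h2 := (Complex.continuous_re.tendsto _).comp h1
  rw [Complex.ofReal_re] at h2
  refine h2.congr fun T => ?_
  simp only [Function.comp, F_apply, ContinuousMap.coe_mk]
  rw [intervalIntegral.integral_ofReal, ← Complex.ofReal_inv, ← Complex.ofReal_mul,
    Complex.ofReal_re]

theorem continuousOn_G : ContinuousOn (fun p : Sp n × T2 => G p.1 p.2) (V ×ˢ univ) := by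
  rw [continuousOn_iff_continuous_domRestrict]
  have h1 : Continuous (fun q : ↥(V ×ˢ (univ : Set T2)) =>
      ((⟨(q : Sp n × T2).1, q.2.1⟩, (q : Sp n × T2).2) : V × T2)) := by
    refine Continuous.prodMk ?_ (continuous_snd.comp continuous_subtype_val)
    exact Continuous.subtype_mk (continuous_fst.comp continuous_subtype_val) _
  have h2 := M.contOn.comp h1
  exact h2

theorem restrict_prod :
    ((sg n).prod haarT).restrict (V ×ˢ univ) = (sg n).prod haarT := by
  rw [← Measure.prod_restrict, M.restrict_V, Measure.restrict_univ]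

theorem aem_G : AEMeasurable (fun p : Sp n × T2 => G p.1 p.2) ((sg n).prod haarT) := by
  rw [← M.restrict_prod]
  exact M.continuousOn_G.aemeasurable (M.isOpen.measurableSet.prod MeasurableSet.univ)

theorem ae_prod : ∀ᵐ p : Sp n × T2 ∂((sg n).prod haarT), p.1 ∈ V := by
  have h1 : ∀ᵐ p : Sp n × T2 ∂(((sg n).prod haarT).restrict (V ×ˢ univ)), p ∈ V ×ˢ (univ : Set T2) :=
    ae_restrict_mem (M.isOpen.measurableSet.prod MeasurableSet.univ)
  rw [M.restrict_prod] at h1
  filter_upwards [h1] with p hp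
  exact hp.1

theorem integrable_prod {φ : Euc n → ℝ} (hφ : Continuous φ) :
    Integrable (fun p : Sp n × T2 => φ (G p.1 p.2)) ((sg n).prod haarT) := by
  obtain ⟨B, hB⟩ := (isCompact_closedBall (0 : Euc n) C).exists_bound_of_continuousOn
    hφ.continuousOn
  refine Integrable.mono' (integrable_const B)
    (hφ.comp_aestronglyMeasurable M.aem_G.aestronglyMeasurable) ?_
  filter_upwards [M.ae_prod] with p hp
  refine hB _ ?_
  rw [mem_closedBall_zero_iff]
  exact M.bound _ hp _

end TorusModel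

theorem sg_univ_pos (hn : 0 < n) : sg n univ ≠ 0 := by
  rw [Measure.toSphere_apply_univ]
  refine mul_ne_zero ?_ ?_
  · rw [finrank_euclideanSpace_fin]
    exact_mod_cast hn.ne'
  · exact (Metric.measure_ball_pos volume (0 : Euc n) one_pos).ne'

/-- the limit distribution -/
noncomputable def nuM (G : Sp n → T2 → Euc n) : Measure (Euc n) :=
  (sg n univ)⁻¹ • ((sg n).prod haarT).map (fun p : Sp n × T2 => G p.1 p.2)

namespace TorusModel

variable {Ω : Set (Euc n)} {P : Euc n} {V : Set (Sp n)} {G : Sp n → T2 → Euc n}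
  {ω : Sp n → Fin 2 → ℝ} {C : ℝ} (M : TorusModel Ω P V G ω C)

include M

theorem isProb_nu (hn : 0 < n) : IsProbabilityMeasure (nuM G) := by
  refine ⟨?_⟩
  unfold nuM
  rw [Measure.smul_apply, Measure.map_apply_of_aemeasurable M.aem_G MeasurableSet.univ,
    preimage_univ, Measure.prod_apply MeasurableSet.univ]
  simp only [preimage_univ, measure_univ, lintegral_const, one_mul, smul_eq_mul]
  exact ENNReal.inv_mul_cancel (sg_univ_pos hn) (measure_ne_top _ _)

theorem integral_nu {φ : Euc n → ℝ} (hφ : Continuous φ) :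
    ∫ x, φ x ∂(nuM G) = ⨍ v, ∫ z, φ (G v z) ∂haarT ∂(sg n) := by
  unfold nuM
  rw [integral_smul_measure, integral_map M.aem_G hφ.aestronglyMeasurable,
    integral_prod _ (M.integrable_prod hφ), average_eq]
  rw [ENNReal.toReal_inv, measureReal_def]

theorem limit_average {φ : Euc n → ℝ} (hφ : Continuous φ) :
    Tendsto (fun t : ℝ => ⨍ v, φ (G v (wr t (ω v))) ∂(sg n)) atTop (𝓝 (∫ x, φ x ∂(nuM G))) := by
  rw [M.integral_nu hφ]
  simp_rw [average_eq]
  have h1 := M.limit_real (w := fun _ => 1) (integrable_const _) hφ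
  simp_rw [one_mul] at h1
  exact h1.const_smul _

theorem nu_closure : nuM G (closure Ω)ᶜ = 0 := by
  unfold nuM
  rw [Measure.smul_apply, Measure.map_apply_of_aemeasurable M.aem_G
    isClosed_closure.isOpen_compl.measurableSet]
  have h1 : ((sg n).prod haarT) ((fun p : Sp n × T2 => G p.1 p.2) ⁻¹' (closure Ω)ᶜ) = 0 := by
    rw [measure_eq_zero_iff_ae_notMem]
    filter_upwards [M.ae_prod] with p hp hcon
    exact hcon (M.inside _ hp _)
  rw [h1, smul_zero]

theorem nu_pos {U : Set (Euc n)} (hU : IsOpen U) (hUΩ : (U ∩ Ω).Nonempty) : 0 < nuM G U := by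
  unfold nuM
  rw [Measure.smul_apply, Measure.map_apply_of_aemeasurable M.aem_G hU.measurableSet,
    smul_eq_mul]
  obtain ⟨v, hv, z, hz⟩ := M.full U hU hUΩ
  refine ENNReal.mul_pos (ENNReal.inv_ne_zero.2 (measure_ne_top _ _)) ?_
  have h1 : IsOpen ((V ×ˢ (univ : Set T2)) ∩ (fun p : Sp n × T2 => G p.1 p.2) ⁻¹' U) :=
    M.continuousOn_G.isOpen_inter_preimage (M.isOpen.prod isOpen_univ) hU
  have h2 := h1.measure_pos ((sg n).prod haarT) ⟨(v, z), ⟨hv, trivial⟩, hz⟩
  exact (h2.trans_le (measure_mono inter_subset_right)).ne'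

/-- **A torus model gives equidistribution.** -/
theorem equidistributes (hn : 0 < n) (hΩ : IsOpen Ω) : LightEquidistributes Ω P := by
  refine ⟨fun v t => G v (wr t (ω v)), fun v => haarT.map (G v), nuM G, ?_, ?_, ?_, ?_,
    M.isProb_nu hn, fun φ hφ => M.limit_average hφ, M.nu_closure, fun U hU h => M.nu_pos hU h⟩
  · filter_upwards [M.ae_V] with v hv t ht q
    have h1 := M.photon v hv t ht
    constructor
    · intro h2
      exact (photon_unique hΩ h1 q h2).symm
    · rintro rfl
      exact h1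
  · intro v
    exact Measure.isProbabilityMeasure_map (M.cont v).measurable.aemeasurable
  · filter_upwards [M.time_average] with v hv φ hφ
    rw [integral_map (M.cont v).measurable.aemeasurable hφ.aestronglyMeasurable]
    exact hv φ hφ
  · intro w φ hw hφ
    have h1 := M.limit_real hw hφ
    have e1 : ∀ v : Sp n, ∫ x, φ x ∂(haarT.map (G v)) = ∫ z, φ (G v z) ∂haarT := fun v =>
      integral_map (M.cont v).measurable.aemeasurable hφ.aestronglyMeasurable
    simp_rw [e1]
    exact h1

end TorusModel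

end Pool.Agent.KS6_88.WF
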