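import Pool.Agent.KS6_88.WF.Cont
import Pool.Agent.KS6_88.WF.Haar

/-! # The laws of the frequencies are absolutely continuous; equidistribution in the unit ball -/

set_option autoImplicit false

open Set Filter Topology MeasureTheory
open scoped RealInnerProductSpace

namespace Pool.Agent.KS6_88.WF

open Pool.Agent.H800R2 Pool.Agent.H800R2.Ball

variable {n : ℕ}

theorem freq_null (hn : 2 ≤ n) {P : Euc n} (hP0 : P ≠ 0) (hP : ‖P‖ < 1) {k : Fin 2 → ℤ}
    (hk : k ≠ 0) {N : Set ℝ} (hN : volume N = 0) :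
    sg n {v : Sp n | ∑ i, (k i : ℝ) * om P (v : Euc n) i ∈ N} = 0 := by
  set A : ℝ := (k 0 : ℝ) / 2 with hA
  set B : ℝ := (k 1 : ℝ) / (2 * Real.pi) with hB
  have hpi := Real.pi_pos
  have hAB : A ≠ 0 ∨ B ≠ 0 := by
    by_contra hcon
    push Not at hcon
    apply hk
    have h0 : (k 0 : ℝ) = 0 := by
      have := hcon.1
      rw [hA] at this
      linarith
    have h1 : (k 1 : ℝ) = 0 := by
      have := hcon.2
      rw [hB, div_eq_zero_iff] at this
      rcases this with h | h
      · exact h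
      · exfalso
        linarith
    funext i
    fin_cases i
    · exact_mod_cast h0
    · exact_mod_cast h1
  have h1 := null_th hP (null_E hAB hN)
  have h2 : volume ({0, ‖P‖, -‖P‖} : Set ℝ) = 0 := (Set.toFinite _).measure_zero _
  refine measure_mono_null ?_ (sphere_null hn hP0 (measure_union_null h1 h2))
  intro v hv
  have hv1 : ‖(v : Euc n)‖ = 1 := norm_eq_of_mem_sphere v
  simp only [mem_ofPred_eq]
  by_cases hs0 : ⟪P, (v : Euc n)⟫ = 0
  · exact Or.inr (Or.inl hs0)
  by_cases hs1 : |⟪P, (v : Euc n)⟫| < ‖P‖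
  · refine Or.inl ⟨⟨hs1, hs0⟩, ?_⟩
    have hθ : Real.arccos (Real.sqrt (‖P‖ ^ 2 - ⟪P, (v : Euc n)⟫ ^ 2)) = thv P (v : Euc n) := rfl
    rw [mem_preimage, hθ]
    have hm0 := mv_nonneg (P := P) (v := (v : Euc n))
    refine ⟨⟨?_, ?_⟩, ?_⟩
    · exact Real.arccos_pos.2 (mv_lt_one hP hv1)
    · have : thv P (v : Euc n) ≤ Real.pi / 2 := Real.arccos_le_pi_div_two.2 hm0
      linarith
    · rw [mem_preimage, ← sin_thv hv1]
      have hc := cv_pos (v := (v : Euc n)) hP
      have e : (A + B * thv P (v : Euc n)) / cv P (v : Euc n) =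
          ∑ i, (k i : ℝ) * om P (v : Euc n) i := by
        rw [Fin.sum_univ_two]
        simp only [om, Matrix.cons_val_zero, Matrix.cons_val_one]
        rw [hA, hB]
        field_simp
      rw [e]
      exact hv
  · have h3 := inner_sq_le (P := P) hv1
    have h4 : |⟪P, (v : Euc n)⟫| = ‖P‖ := by
      refine le_antisymm ?_ (not_lt.1 hs1)
      rw [← sq_abs] at h3
      exact (sq_le_sq₀ (abs_nonneg _) (norm_nonneg _)).1 h3
    refine Or.inr (Or.inr ?_)
    rcases (abs_eq (norm_nonneg P)).1 h4 with h5 | h5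
    · exact Or.inl h5
    · exact Or.inr h5

theorem measurable_freq {P : Euc n} (hP : ‖P‖ < 1) (k : Fin 2 → ℤ) :
    Measurable (fun v : Sp n => ∑ i, (k i : ℝ) * om P (v : Euc n) i) := by
  have h1 : Continuous (fun v : Sp n => om P (v : Euc n)) :=
    (continuous_om hP).comp continuous_subtype_val
  have h2 : Continuous (fun v : Sp n => ∑ i, (k i : ℝ) * om P (v : Euc n) i) :=
    continuous_finsetSum _ fun i _ => continuous_const.mul ((continuous_apply i).comp h1)
  exact h2.measurable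

theorem freq_ac (hn : 2 ≤ n) {P : Euc n} (hP0 : P ≠ 0) (hP : ‖P‖ < 1) {k : Fin 2 → ℤ}
    (hk : k ≠ 0) : (sg n).map (fun v : Sp n => ∑ i, (k i : ℝ) * om P (v : Euc n) i) ≪ volume := by
  refine Measure.AbsolutelyContinuous.mk fun s hs h0 => ?_
  rw [Measure.map_apply (measurable_freq hP k) hs]
  exact freq_null hn hP0 hP hk h0

theorem LT_FF (P : Euc n) (φ : C(Euc n, ℂ)) (v : Sp n) :
    LT (FF P φ v) = ∫ z, φ (GG P (v : Euc n) z) ∂haarT := by
  rw [LT_apply]
  exact integral_add_right_eq_self (μ := haarT) (fun z => φ (GG P (v : Euc n) z)) _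

/-- **Equidistribution in the unit ball**, complex version, torus coordinates -/
theorem unit_torus (hn : 2 ≤ n) {P : Euc n} (hP0 : P ≠ 0) (hP : ‖P‖ < 1) {w : Sp n → ℂ}
    (hw : Integrable w (sg n)) (φ : C(Euc n, ℂ)) :
    Tendsto (fun t : ℝ => ∫ v, w v * φ (GG P (v : Euc n) (wr t (om P (v : Euc n)) +
      sh P (v : Euc n))) ∂(sg n)) atTop
      (𝓝 (∫ v, w v * ∫ z, φ (GG P (v : Euc n) z) ∂haarT ∂(sg n))) := by
  have hω : Measurable (fun v : Sp n => om P (v : Euc n)) :=
    ((continuous_om hP).comp continuous_subtype_val).measurable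
  have h1 := tendsto_torus (μ := sg n) hω (fun k hk => freq_ac hn hP0 hP hk) LT
    integral_mFourier (integrable_wFF hn hP hP0 φ hw)
  have e1 : ∀ v : Sp n, LT (w v • FF P φ v) = w v * ∫ z, φ (GG P (v : Euc n) z) ∂haarT := by
    intro v
    rw [map_smul, LT_FF, smul_eq_mul]
  simp_rw [e1] at h1
  exact h1

end Pool.Agent.KS6_88.WF
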