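import Pool.Agent.KS6_88.WF.ZetaS
import Pool.Agent.KS6_88.WF.Dyn

/-! # The spherical shell -/

set_option autoImplicit false

open Set Filter Topology
open scoped RealInnerProductSpace

namespace Pool.Agent.KS6_88.WF

open Pool.Agent.H800R2 Pool.Agent.H800R2.Ball

variable {n : ℕ}

/-- the shell between the spheres of radius `α` and `1` around `0` -/
def sh1 (n : ℕ) (α : ℝ) : Set (Euc n) := {x | α < ‖x‖ ∧ ‖x‖ < 1}

theorem isOpen_sh1 (α : ℝ) : IsOpen (sh1 n α) :=
  (isOpen_lt continuous_const continuous_norm).inter (isOpen_lt continuous_norm continuous_const)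

section
variable {α : ℝ} (h0 : 0 < α) (h1 : α < 1)
include h0 h1

theorem mem_closure_sh1 {x : Euc n} (hx1 : α ≤ ‖x‖) (hx2 : ‖x‖ ≤ 1) : x ∈ closure (sh1 n α) := by
  have hx0 : 0 < ‖x‖ := h0.trans_le hx1
  have hc : Continuous (fun s : ℝ => s • x) := by fun_prop
  have h2 : (1 : ℝ) ∈ closure (Ioo (α / ‖x‖) (1 / ‖x‖)) := by
    rw [closure_Ioo (by
      intro h
      rw [div_eq_div_iff hx0.ne' hx0.ne'] at h
      have := mul_right_cancel₀ hx0.ne' h
      linarith)]
    exact ⟨by rw [div_le_one hx0]; exact hx1, by rw [le_div_iff₀ hx0]; linarith⟩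
  have h3 := map_mem_closure (f := fun s : ℝ => s • x) (t := sh1 n α) hc h2 (fun s hs => by
    have hs0 : 0 < s := (div_pos h0 hx0).trans hs.1
    have hs1 := hs.1
    have hs2 := hs.2
    rw [div_lt_iff₀ hx0] at hs1
    rw [lt_div_iff₀ hx0] at hs2
    refine ⟨?_, ?_⟩
    · simp only
      rw [norm_smul, Real.norm_of_nonneg hs0.le]
      exact hs1
    · simp only
      rw [norm_smul, Real.norm_of_nonneg hs0.le]
      exact hs2)
  simpa using h3

theorem mem_frontier_sh1 {x : Euc n} (hx : ‖x‖ = α ∨ ‖x‖ = 1) : x ∈ frontier (sh1 n α) := by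
  rw [(isOpen_sh1 α).frontier_eq]
  refine ⟨?_, ?_⟩
  · rcases hx with hx | hx
    · exact mem_closure_sh1 h0 h1 hx.ge (by rw [hx]; exact h1.le)
    · exact mem_closure_sh1 h0 h1 (by rw [hx]; exact h1.le) hx.le
  · rintro ⟨h2, h3⟩
    rcases hx with hx | hx
    · linarith
    · linarith

omit h0 in
theorem isOuterNormal_out {x : Euc n} (hx : ‖x‖ = 1) : IsOuterNormal (sh1 n α) x x := by
  have h2 := isDefFun x hx
  refine ⟨_, ⟨h2.1, h2.2.1, ?_⟩, ?_⟩
  · have h3 : ∀ᶠ y : Euc n in 𝓝 x, α < ‖y‖ :=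
      continuous_norm.continuousAt.eventually (lt_mem_nhds (by simp only [hx]; exact h1))
    filter_upwards [h2.2.2, h3] with y hy hy2
    rw [← hy, mem_ball_zero_iff]
    exact ⟨fun h => h.2, fun h => ⟨hy2, h⟩⟩
  · rw [gradient_normSq, norm_smul, hx, smul_smul]
    norm_num

theorem isDefFun_in {x : Euc n} (hx : ‖x‖ = α) :
    IsDefFun (sh1 n α) x (fun y => α ^ 2 - ‖y‖ ^ 2) ∧
      gradient (fun y : Euc n => α ^ 2 - ‖y‖ ^ 2) x = -((2 : ℝ) • x) := by
  have hg : gradient (fun y : Euc n => α ^ 2 - ‖y‖ ^ 2) x = -((2 : ℝ) • x) := by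
    refine HasGradientAt.gradient ?_
    rw [hasGradientAt_iff_hasFDerivAt]
    have h2 := (hasStrictFDerivAt_norm_sq x).hasFDerivAt.const_sub (α ^ 2)
    refine h2.congr_fderiv ?_
    ext w
    simp
  refine ⟨⟨contDiff_const.sub (contDiff_norm_sq ℝ), ?_, ?_⟩, hg⟩
  · rw [hg]
    intro h
    have : x = 0 := by simpa using h
    rw [this, norm_zero] at hx
    linarith
  · have h3 : ∀ᶠ y : Euc n in 𝓝 x, ‖y‖ < 1 :=
      continuous_norm.continuousAt.eventually (gt_mem_nhds (by simp only [hx]; exact h1))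
    filter_upwards [h3] with y hy
    rw [sub_neg]
    constructor
    · intro h
      exact pow_lt_pow_left₀ h.1 h0.le two_ne_zero
    · intro h
      exact ⟨lt_of_pow_lt_pow_left₀ 2 (norm_nonneg _) h, hy⟩

theorem isOuterNormal_in {x : Euc n} (hx : ‖x‖ = α) : IsOuterNormal (sh1 n α) x (-(α⁻¹ • x)) := by
  refine ⟨_, (isDefFun_in h0 h1 hx).1, ?_⟩
  rw [(isDefFun_in h0 h1 hx).2, norm_neg, norm_smul, hx, smul_neg, smul_smul]
  congr 2
  norm_num
  field_simp

/-- photons of the ball which stay away from the inner sphere are photons of the shell -/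
theorem ball_to_shell (hn : 0 < n) {p v q : Euc n} {t : ℝ}
    (h : Photon (Metric.ball (0 : Euc n) 1) p v t q) :
    ‖v‖ = 1 → α ^ 2 < ‖p‖ ^ 2 - ⟪p, v⟫ ^ 2 → Photon (sh1 n α) p v t q := by
  have hline : ∀ (p v : Euc n) (s : ℝ), ‖v‖ = 1 →
      ‖p + s • v‖ ^ 2 - ⟪p + s • v, v⟫ ^ 2 = ‖p‖ ^ 2 - ⟪p, v⟫ ^ 2 := by
    intro p v s hv
    rw [@norm_add_sq_real, inner_add_left, real_inner_smul_left, real_inner_smul_right,
      real_inner_self_eq_norm_sq, norm_smul, hv, Real.norm_eq_abs, mul_one, sq_abs]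
    ring
  have hmem : ∀ (p v : Euc n) (s : ℝ), ‖v‖ = 1 → α ^ 2 < ‖p‖ ^ 2 - ⟪p, v⟫ ^ 2 →
      p + s • v ∈ Metric.ball (0 : Euc n) 1 → p + s • v ∈ sh1 n α := by
    intro p v s hv h2 h3
    rw [mem_ball_zero_iff] at h3
    refine ⟨?_, h3⟩
    have h4 := hline p v s hv
    refine lt_of_pow_lt_pow_left₀ 2 (norm_nonneg _) ?_
    nlinarith [sq_nonneg ⟪p + s • v, v⟫]
  induction h with
  | fly p v t ht hin =>
    intro hv h2
    exact Photon.fly p v t ht fun s hs => hmem p v s hv h2 (hin s hs)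
  | bounce p v ν q τ t hτ hin hb hν hv0 hph ih =>
    intro hv h2
    have hx : ‖p + τ • v‖ = 1 := (mem_frontier_iff _ hn).1 hb
    have hν' := isOuterNormal_eq hn hx hν
    subst hν'
    refine Photon.bounce p v _ q τ t hτ (fun s hs => hmem p v s hv h2 (hin s hs))
      (mem_frontier_sh1 h0 h1 (Or.inr hx)) (isOuterNormal_out h1 hx) hv0 (ih ?_ ?_)
    · have h3 : ‖v - (2 * ⟪v, p + τ • v⟫) • (p + τ • v)‖ ^ 2 = 1 := by
        rw [@norm_sub_sq_real, real_inner_smul_right, norm_smul, hx, hv, Real.norm_eq_abs,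
          mul_one, sq_abs]
        ring
      nlinarith [norm_nonneg (v - (2 * ⟪v, p + τ • v⟫) • (p + τ • v))]
    · rw [inner_sub_right, real_inner_smul_right, real_inner_self_eq_norm_sq, hx,
        real_inner_comm v (p + τ • v)]
      have h4 := hline p v τ hv
      rw [hx] at h4
      rw [real_inner_comm v (p + τ • v)] at h4
      rw [← h4] at h2
      nlinarith

end

end Pool.Agent.KS6_88.WF
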