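import Pool.Agent.KS6_88.WF.ShellM

/-! # Equidistribution in the spherical shell -/

set_option autoImplicit false

open Set Filter Topology MeasureTheory
open scoped RealInnerProductSpace

namespace Pool.Agent.KS6_88.WF

open Pool.Agent.H800R2 Pool.Agent.H800R2.Ball

variable {n : ℕ}

/-- directions which meet the inner sphere and start outwards -/
def VO (α : ℝ) (P : Euc n) : Set (Sp n) :=
  {v | (0 < mv P (v : Euc n) ∧ mv P (v : Euc n) < α) ∧ 0 < ⟪P, (v : Euc n)⟫}

/-- directions which meet the inner sphere and start inwards -/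
def VI (α : ℝ) (P : Euc n) : Set (Sp n) :=
  {v | (0 < mv P (v : Euc n) ∧ mv P (v : Euc n) < α) ∧ ⟪P, (v : Euc n)⟫ < 0}

/-- directions which do not meet the inner sphere -/
def VP (α : ℝ) (P : Euc n) : Set (Sp n) := {v | α < mv P (v : Euc n)}

theorem isOpen_VO (α : ℝ) (P : Euc n) : IsOpen (VO α P) := by
  have hm := (continuous_mv P).comp (continuous_subtype_val (p := fun x : Euc n => x ∈
    Metric.sphere (0 : Euc n) 1))
  have hi : Continuous (fun v : Sp n => ⟪P, (v : Euc n)⟫) := by fun_prop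
  exact ((isOpen_lt continuous_const hm).inter (isOpen_lt hm continuous_const)).inter
    (isOpen_lt continuous_const hi)

theorem isOpen_VI (α : ℝ) (P : Euc n) : IsOpen (VI α P) := by
  have hm := (continuous_mv P).comp (continuous_subtype_val (p := fun x : Euc n => x ∈
    Metric.sphere (0 : Euc n) 1))
  have hi : Continuous (fun v : Sp n => ⟪P, (v : Euc n)⟫) := by fun_prop
  exact ((isOpen_lt continuous_const hm).inter (isOpen_lt hm continuous_const)).inter
    (isOpen_lt hi continuous_const)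

section
variable {α : ℝ} (h0 : 0 < α) (h1 : α < 1)
include h0 h1

theorem continuous_shO {P : Euc n} {V : Set (Sp n)}
    (hV : ∀ v ∈ V, 0 < mv P (v : Euc n) ∧ mv P (v : Euc n) < α) :
    Continuous (fun v : V => shO α P ((v : Sp n) : Euc n)) := by
  have hm : Continuous (fun v : V => mv P ((v : Sp n) : Euc n)) :=
    (continuous_mv P).comp (continuous_subtype_val.comp continuous_subtype_val)
  have hl : Continuous (fun v : V => lg α (mv P ((v : Sp n) : Euc n))) :=
    (continuous_lg α).comp hm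
  have hd : Continuous (fun v : V => dl α (mv P ((v : Sp n) : Euc n))) :=
    (continuous_dl α).comp hm
  have hx : Continuous (fun v : V => xO α P ((v : Sp n) : Euc n)) := by
    unfold xO
    refine Continuous.div (by fun_prop) (by fun_prop) fun v => ?_
    have := lg_pos h0 h1 (x := mv P ((v : Sp n) : Euc n)) (hV _ v.2)
    positivity
  unfold shO
  refine continuous_pi fun i => ?_
  fin_cases i
  · simp only [Fin.zero_eta, Matrix.cons_val_zero]
    exact (AddCircle.continuous_mk' (1 : ℝ)).comp hx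
  · simp only [Fin.mk_one, Matrix.cons_val_one, Matrix.cons_val_zero]
    exact (AddCircle.continuous_mk' (1 : ℝ)).comp ((hd.mul hx).div_const _)

theorem continuous_shI {P : Euc n} {V : Set (Sp n)}
    (hV : ∀ v ∈ V, 0 < mv P (v : Euc n) ∧ mv P (v : Euc n) < α) :
    Continuous (fun v : V => shI α P ((v : Sp n) : Euc n)) := by
  have hm : Continuous (fun v : V => mv P ((v : Sp n) : Euc n)) :=
    (continuous_mv P).comp (continuous_subtype_val.comp continuous_subtype_val)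
  have ht : Continuous (fun v : V => thv P ((v : Sp n) : Euc n)) :=
    (continuous_thv P).comp (continuous_subtype_val.comp continuous_subtype_val)
  have hl : Continuous (fun v : V => lg α (mv P ((v : Sp n) : Euc n))) :=
    (continuous_lg α).comp hm
  have hd : Continuous (fun v : V => dl α (mv P ((v : Sp n) : Euc n))) :=
    (continuous_dl α).comp hm
  have hx : Continuous (fun v : V => xI α P ((v : Sp n) : Euc n)) := by
    unfold xI
    refine Continuous.div (by fun_prop) (by fun_prop) fun v => ?_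
    have := lg_pos h0 h1 (x := mv P ((v : Sp n) : Euc n)) (hV _ v.2)
    positivity
  unfold shI
  refine continuous_pi fun i => ?_
  fin_cases i
  · simp only [Fin.zero_eta, Matrix.cons_val_zero]
    exact (AddCircle.continuous_mk' (1 : ℝ)).comp hx
  · simp only [Fin.mk_one, Matrix.cons_val_one, Matrix.cons_val_zero]
    exact (AddCircle.continuous_mk' (1 : ℝ)).comp
      (((hd.mul hx).div_const _).sub (ht.div_const _))

omit h1 in
theorem V_null (hn : 2 ≤ n) {P : Euc n} (hP1 : α < ‖P‖) :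
    sg n ((VO α P ∪ VI α P) ∪ VP α P)ᶜ = 0 := by
  have hP0 : P ≠ 0 := by
    intro h
    rw [h, norm_zero] at hP1
    linarith
  have hPα : α ^ 2 < ‖P‖ ^ 2 := pow_lt_pow_left₀ hP1 h0.le two_ne_zero
  set d := Real.sqrt (‖P‖ ^ 2 - α ^ 2) with hd
  have hd2 : d ^ 2 = ‖P‖ ^ 2 - α ^ 2 := Real.sq_sqrt (by linarith)
  refine measure_mono_null ?_ (sphere_null hn hP0 (N := {‖P‖, -‖P‖, d, -d})
    ((Set.toFinite _).measure_zero _))
  intro v hv
  have hv1 : ‖(v : Euc n)‖ = 1 := norm_eq_of_mem_sphere v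
  have hm2 := mv_sq (P := P) hv1
  have hm0 := mv_nonneg (P := P) (v := (v : Euc n))
  simp only [mem_ofPred_eq]
  have h3 : ¬ α < mv P (v : Euc n) := fun h => hv (Or.inr h)
  rcases hm0.eq_or_lt with h4 | h4
  · rw [← h4] at hm2
    have h5 : (⟪P, (v : Euc n)⟫ - ‖P‖) * (⟪P, (v : Euc n)⟫ + ‖P‖) = 0 := by linarith
    rcases mul_eq_zero.1 h5 with h6 | h6
    · exact Or.inl (by linarith)
    · exact Or.inr (Or.inl (by linarith))
  · rcases (not_lt.1 h3).eq_or_lt with h5 | h5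
    · rw [h5] at hm2
      have h6 : (⟪P, (v : Euc n)⟫ - d) * (⟪P, (v : Euc n)⟫ + d) = 0 := by nlinarith
      rcases mul_eq_zero.1 h6 with h7 | h7
      · exact Or.inr (Or.inr (Or.inl (by linarith)))
      · exact Or.inr (Or.inr (Or.inr (by rw [mem_singleton_iff]; linarith)))
    · exfalso
      rcases lt_trichotomy ⟪P, (v : Euc n)⟫ 0 with h6 | h6 | h6
      · exact hv (Or.inl (Or.inr ⟨⟨h4, h5⟩, h6⟩))
      · rw [h6] at hm2
        have : mv P (v : Euc n) ^ 2 < α ^ 2 := pow_lt_pow_left₀ h5 h4.le two_ne_zero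
        nlinarith
      · exact hv (Or.inl (Or.inl ⟨⟨h4, h5⟩, h6⟩))

theorem exists_GS (P : Euc n) {v x : Euc n} (hx1 : α < ‖x‖) (hx2 : ‖x‖ < 1) {w : ℂ}
    (hw : ‖w‖ = ‖x‖) (hxw : x = pl v (bv P v) w) : ∃ z, GS α P v z = x := by
  obtain ⟨y, hy, hy2⟩ := exists_zetaS (τ := tv α P v) h0 h1 (sin_tv_nonneg α P v) hx1.le hx2.le
  have hz : zcS α (tv α P v) (y : UnitAddCircle) = zetaS α (tv α P v) y := by
    rw [zcS_coe, Int.fract_eq_self.2 ⟨hy.1, hy.2⟩]
  obtain ⟨y2, hy2'⟩ := exists_rot (z := zcS α (tv α P v) (y : UnitAddCircle)) (w := w)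
    (by rw [hz, hy2, hw])
  refine ⟨![(y : UnitAddCircle), y2], ?_⟩
  unfold GS
  simp only [Matrix.cons_val_zero, Matrix.cons_val_one]
  rw [hy2', ← hxw]

/-- the torus model of the shell -/
theorem shell_model (hn : 2 ≤ n) {P : Euc n} (hP1 : α < ‖P‖) (hP2 : ‖P‖ < 1) :
    ∃ (G : Sp n → UnitAddTorus (Fin 2) → Euc n) (ω : Sp n → Fin 2 → ℝ),
      TorusModel (sh1 n α) P ((VO α P ∪ VI α P) ∪ VP α P) G ω 1 := by
  have M1 := pmS h0 h1 hn hP1 (V := VO α P) (isOpen_VO α P) (fun v hv => hv.1)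
    (sf := fun v => shO α P (v : Euc n)) (continuous_shO h0 h1 fun v hv => hv.1)
    (fun v hv t ht => photon_GS_out h0 h1 hP1 hP2 (norm_eq_of_mem_sphere v) hv.1.1 hv.1.2 hv.2 ht)
  have M2 := pmS h0 h1 hn hP1 (V := VI α P) (isOpen_VI α P) (fun v hv => hv.1)
    (sf := fun v => shI α P (v : Euc n)) (continuous_shI h0 h1 fun v hv => hv.1)
    (fun v hv t ht => photon_GS_in h0 h1 hP1 hP2 (norm_eq_of_mem_sphere v) hv.1.1 hv.1.2 hv.2 ht)
  have M3 : PM (sh1 n α) P (VP α P)
      (fun v z => GG P (v : Euc n) (z + sh P (v : Euc n))) (fun v => om P (v : Euc n)) 1 :=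
    pmB h0 h1 hn hP1 hP2
  have hd1 : Disjoint (VO α P) (VI α P) := by
    rw [Set.disjoint_left]
    intro v h2 h3
    exact lt_asymm h2.2 h3.2
  have hd2 : Disjoint (VO α P ∪ VI α P) (VP α P) := by
    rw [Set.disjoint_left]
    rintro v (h2 | h2) h3
    · exact lt_asymm h2.1.2 h3
    · exact lt_asymm h2.1.2 h3
  have M := (M1.glue M2 hd1).glue M3 hd2
  refine ⟨_, _, M.toModel (V_null h0 hn hP1) ?_⟩
  intro U hU hUΩ
  obtain ⟨x, hxU, hx1, hx2⟩ := hUΩ
  have hP0 : P ≠ 0 := by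
    intro h
    rw [h, norm_zero] at hP1
    linarith
  obtain ⟨v, hv, hm0, hm1, w, hw, hxw⟩ := exists_dir hn hP0 x h0
  obtain ⟨z, hz⟩ := exists_GS h0 h1 P hx1 hx2 hw hxw
  have hm2 := mv_sq (P := P) hv
  have hne : ⟪P, v⟫ ≠ 0 := by
    intro h
    rw [h] at hm2
    have h3 : mv P v ^ 2 < α ^ 2 := pow_lt_pow_left₀ hm1 hm0.le two_ne_zero
    have hPα : α ^ 2 < ‖P‖ ^ 2 := pow_lt_pow_left₀ hP1 h0.le two_ne_zero
    nlinarith
  set v' : Sp n := ⟨v, mem_sphere_zero_iff_norm.2 hv⟩ with hv'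
  rcases lt_or_gt_of_ne hne with h3 | h3
  · have hmem : v' ∈ VI α P := ⟨⟨hm0, hm1⟩, h3⟩
    have hnot : v' ∉ VO α P := fun h => lt_asymm h.2 h3
    have hmem2 : v' ∈ VO α P ∪ VI α P := Or.inr hmem
    refine ⟨v', Or.inl hmem2, z - shI α P v, ?_⟩
    rw [if_pos hmem2, if_neg hnot]
    show GS α P v (z - shI α P v + shI α P v) ∈ U
    rw [sub_add_cancel, hz]
    exact hxU
  · have hmem : v' ∈ VO α P := ⟨⟨hm0, hm1⟩, h3⟩
    have hmem2 : v' ∈ VO α P ∪ VI α P := Or.inl hmem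
    refine ⟨v', Or.inl hmem2, z - shO α P v, ?_⟩
    rw [if_pos hmem2, if_pos hmem]
    show GS α P v (z - shO α P v + shO α P v) ∈ U
    rw [sub_add_cancel, hz]
    exact hxU

end

/-- **Equidistribution in spherical shells** -/
theorem shell_equi (hn : 2 ≤ n) {c P : Euc n} {r₁ r₂ : ℝ} (hr : 0 < r₁) (hP1 : r₁ < ‖P - c‖)
    (hP2 : ‖P - c‖ < r₂) :
    LightEquidistributes {x : Euc n | r₁ < ‖x - c‖ ∧ ‖x - c‖ < r₂} P := by
  have hr2 : 0 < r₂ := hr.trans (hP1.trans hP2)
  have h0 : 0 < r₁ / r₂ := div_pos hr hr2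
  have h1 : r₁ / r₂ < 1 := by rw [div_lt_one hr2]; linarith
  have hn1 : ‖r₂⁻¹ • (P - c)‖ = ‖P - c‖ / r₂ := by
    rw [norm_smul, norm_inv, Real.norm_of_nonneg hr2.le, div_eq_inv_mul]
  have hP1' : r₁ / r₂ < ‖r₂⁻¹ • (P - c)‖ := by
    rw [hn1]
    exact div_lt_div_of_pos_right hP1 hr2
  have hP2' : ‖r₂⁻¹ • (P - c)‖ < 1 := by
    rw [hn1, div_lt_one hr2]
    exact hP2
  obtain ⟨G, ω, M⟩ := shell_model h0 h1 hn hP1' hP2'
  have hΩ : ∀ x : Euc n, x ∈ sh1 n (r₁ / r₂) ↔
      c + r₂ • x ∈ {x : Euc n | r₁ < ‖x - c‖ ∧ ‖x - c‖ < r₂} := by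
    intro x
    simp only [sh1, mem_ofPred_eq, add_sub_cancel_left, norm_smul, Real.norm_of_nonneg hr2.le]
    rw [div_lt_iff₀ hr2, mul_comm ‖x‖ r₂, mul_lt_iff_lt_one_right hr2]
  have M' := M.sim hr2 hΩ
  have hPe : c + r₂ • (r₂⁻¹ • (P - c)) = P := by
    rw [smul_smul, mul_inv_cancel₀ hr2.ne', one_smul, add_sub_cancel]
  rw [hPe] at M'
  have hc : Continuous (fun x : Euc n => ‖x - c‖) := by fun_prop
  exact M'.equidistributes (by omega)
    ((isOpen_lt continuous_const hc).inter (isOpen_lt hc continuous_const))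

end Pool.Agent.KS6_88.WF
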