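import Pool.Agent.KS6_88.WF.ShellPos
import Pool.Agent.KS6_88.WF.Glue
import Pool.Agent.KS6_88.WF.BallM

/-! # The torus model of the spherical shell -/

set_option autoImplicit false

open Set Filter Topology MeasureTheory
open scoped RealInnerProductSpace

namespace Pool.Agent.KS6_88.WF

open Pool.Agent.H800R2 Pool.Agent.H800R2.Ball

variable {n : ℕ}

theorem continuous_tv (α : ℝ) (P : Euc n) : Continuous (fun v : Euc n => tv α P v) := by
  unfold tv
  have h := continuous_mv P
  exact Real.continuous_arccos.comp (by fun_prop)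

theorem sin_tv_nonneg (α : ℝ) (P v : Euc n) : 0 ≤ Real.sin (tv α P v) :=
  Real.sin_nonneg_of_nonneg_of_le_pi (Real.arccos_nonneg _) (Real.arccos_le_pi _)

theorem norm_zcS_mem {α τ : ℝ} (h0 : 0 < α) (h1 : α < 1) (hτ : 0 ≤ Real.sin τ)
    (x : UnitAddCircle) : α ≤ ‖zcS α τ x‖ ∧ ‖zcS α τ x‖ ≤ 1 := by
  unfold zcS
  have h := (AddCircle.equivIco 1 0 x).2
  refine norm_zetaS_mem h0 h1 hτ ⟨h.1, ?_⟩
  have := h.2
  linarith

section
variable {α : ℝ} (h0 : 0 < α) (h1 : α < 1)
include h0 h1

theorem norm_GS_mem {P v : Euc n} (hv : ‖v‖ = 1) (hm : 0 < mv P v)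
    (z : UnitAddTorus (Fin 2)) : α ≤ ‖GS α P v z‖ ∧ ‖GS α P v z‖ ≤ 1 := by
  obtain ⟨h2, h3, _⟩ := bv_spec hv hm
  unfold GS
  rw [norm_pl hv h2 h3, norm_mul, Circle.norm_coe, one_mul]
  exact norm_zcS_mem h0 h1 (sin_tv_nonneg α P v) _

theorem continuous_GS_right (P v : Euc n) : Continuous (GS α P v) := by
  unfold GS
  have hz0 : Continuous (fun z : UnitAddTorus (Fin 2) => z 0) := continuous_apply (0 : Fin 2)
  have hz1 : Continuous (fun z : UnitAddTorus (Fin 2) => z 1) := continuous_apply (1 : Fin 2)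
  have hθ : Continuous (fun _ : UnitAddTorus (Fin 2) => tv α P v) := continuous_const
  have hT : Continuous (fun z : UnitAddTorus (Fin 2) => (AddCircle.toCircle (z 1) : ℂ)) :=
    continuous_toC.comp hz1
  have hZ : Continuous (fun z : UnitAddTorus (Fin 2) => zcS α (tv α P v) (z 0)) := by
    have h := (continuous_zcS h0 h1).comp (hθ.prodMk hz0)
    exact h
  have hcv : Continuous (fun _ : UnitAddTorus (Fin 2) => v) := continuous_const
  have hcb : Continuous (fun _ : UnitAddTorus (Fin 2) => bv P v) := continuous_const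
  have h := continuous_pl.comp (hcv.prodMk (hcb.prodMk (hT.mul hZ)))
  exact h

theorem continuous_GS {P : Euc n} {V : Set (Sp n)} (hV : ∀ v ∈ V, 0 < mv P (v : Euc n)) :
    Continuous (fun p : V × UnitAddTorus (Fin 2) => GS α P ((p.1 : Sp n) : Euc n) p.2) := by
  unfold GS
  have hv : Continuous (fun p : V × UnitAddTorus (Fin 2) => ((p.1 : Sp n) : Euc n)) :=
    continuous_subtype_val.comp (continuous_subtype_val.comp continuous_fst)
  have hb : Continuous (fun p : V × UnitAddTorus (Fin 2) => bv P ((p.1 : Sp n) : Euc n)) := by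
    unfold bv
    refine Continuous.smul (Continuous.inv₀ ((continuous_mv P).comp hv) fun p => ?_) (by fun_prop)
    exact (hV _ p.1.2).ne'
  have hz0 : Continuous (fun p : V × UnitAddTorus (Fin 2) => p.2 0) :=
    (continuous_apply (0 : Fin 2)).comp continuous_snd
  have hz1 : Continuous (fun p : V × UnitAddTorus (Fin 2) => p.2 1) :=
    (continuous_apply (1 : Fin 2)).comp continuous_snd
  have hθ : Continuous (fun p : V × UnitAddTorus (Fin 2) => tv α P ((p.1 : Sp n) : Euc n)) :=
    (continuous_tv α P).comp hv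
  have hT : Continuous (fun p : V × UnitAddTorus (Fin 2) => (AddCircle.toCircle (p.2 1) : ℂ)) :=
    continuous_toC.comp hz1
  have hZ : Continuous (fun p : V × UnitAddTorus (Fin 2) =>
      zcS α (tv α P ((p.1 : Sp n) : Euc n)) (p.2 0)) := by
    have h := (continuous_zcS h0 h1).comp (hθ.prodMk hz0)
    exact h
  have h := continuous_pl.comp (hv.prodMk (hb.prodMk (hT.mul hZ)))
  exact h

theorem freqS_null (hn : 2 ≤ n) {P : Euc n} (hP1 : α < ‖P‖) {k : Fin 2 → ℤ}
    (hk : k ≠ 0) {N : Set ℝ} (hN : volume N = 0) :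
    sg n {v : Sp n | (0 < mv P (v : Euc n) ∧ mv P (v : Euc n) < α) ∧
      ∑ i, (k i : ℝ) * omS α P (v : Euc n) i ∈ N} = 0 := by
  set A : ℝ := (k 0 : ℝ) / 2 with hA
  set B : ℝ := (k 1 : ℝ) / (2 * Real.pi) with hB
  have hpi := Real.pi_pos
  have hAB : A ≠ 0 ∨ B ≠ 0 := by
    by_contra hcon
    push Not at hcon
    apply hk
    have h0 : (k 0 : ℝ) = 0 := by
      have := hcon.1
      rw [hA] at this
      linarith
    have h1 : (k 1 : ℝ) = 0 := by
      have := hcon.2
      rw [hB, div_eq_zero_iff] at this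
      rcases this with h | h
      · exact h
      · exfalso
        linarith
    funext i
    fin_cases i
    · exact_mod_cast h0
    · exact_mod_cast h1
  have hP0 : P ≠ 0 := by
    intro h
    rw [h, norm_zero] at hP1
    linarith
  have h3 := null_sq (ρ := ‖P‖) (null_ES h0 h1 hAB hN)
  refine measure_mono_null ?_ (sphere_null hn hP0 h3)
  rintro v ⟨⟨hm0, hm1⟩, hv⟩
  have hv1 : ‖(v : Euc n)‖ = 1 := norm_eq_of_mem_sphere v
  have hm2 := mv_sq (P := P) hv1
  have hPα : α ^ 2 < ‖P‖ ^ 2 := pow_lt_pow_left₀ hP1 h0.le two_ne_zero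
  have hmα : mv P (v : Euc n) ^ 2 < α ^ 2 := pow_lt_pow_left₀ hm1 hm0.le two_ne_zero
  refine ⟨⟨?_, ?_⟩, ?_⟩
  · refine lt_of_pow_lt_pow_left₀ 2 (norm_nonneg P) ?_
    rw [sq_abs]
    have : 0 < mv P (v : Euc n) ^ 2 := by positivity
    linarith
  · intro h
    rw [h] at hm2
    nlinarith
  · have hmv : Real.sqrt (‖P‖ ^ 2 - ⟪P, (v : Euc n)⟫ ^ 2) = mv P (v : Euc n) := rfl
    rw [mem_preimage, hmv]
    refine ⟨⟨hm0, hm1⟩, ?_⟩
    rw [mem_preimage]
    have hl := lg_pos h0 h1 (x := mv P (v : Euc n)) ⟨hm0, hm1⟩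
    have e : (A + B * dl α (mv P (v : Euc n))) / lg α (mv P (v : Euc n)) =
        ∑ i, (k i : ℝ) * omS α P (v : Euc n) i := by
      rw [Fin.sum_univ_two]
      simp only [omS, Matrix.cons_val_zero, Matrix.cons_val_one]
      rw [hA, hB]
      field_simp
    rw [e]
    exact hv

omit h0 h1 in
theorem measurable_omS (P : Euc n) : Measurable (fun v : Sp n => omS α P (v : Euc n)) := by
  have hm : Measurable (fun v : Sp n => mv P (v : Euc n)) :=
    ((continuous_mv P).comp continuous_subtype_val).measurable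
  have hl : Measurable (fun v : Sp n => lg α (mv P (v : Euc n))) :=
    (continuous_lg α).measurable.comp hm
  have hd : Measurable (fun v : Sp n => dl α (mv P (v : Euc n))) :=
    (continuous_dl α).measurable.comp hm
  unfold omS
  refine measurable_pi_lambda _ fun i => ?_
  fin_cases i
  · simp only [Fin.zero_eta, Matrix.cons_val_zero]
    exact measurable_const.div (hl.const_mul 2)
  · simp only [Fin.mk_one, Matrix.cons_val_one, Matrix.cons_val_zero]
    exact hd.div (hl.const_mul _)

/-- the partial models of the directions which meet the inner sphere -/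
theorem pmS (hn : 2 ≤ n) {P : Euc n} (hP1 : α < ‖P‖) {V : Set (Sp n)} (hV : IsOpen V)
    (hsub : ∀ v ∈ V, 0 < mv P (v : Euc n) ∧ mv P (v : Euc n) < α)
    {sf : Sp n → UnitAddTorus (Fin 2)} (hsf : Continuous (fun v : V => sf v))
    (hph : ∀ v ∈ V, ∀ t, 0 ≤ t →
      Photon (sh1 n α) P (v : Euc n) t (GS α P (v : Euc n) (wr t (omS α P (v : Euc n)) + sf v))) :
    PM (sh1 n α) P V (fun v z => GS α P (v : Euc n) (z + sf v)) (fun v => omS α P (v : Euc n))
      1 where
  isOpen := hV
  cont v := (continuous_GS_right h0 h1 P v).comp (continuous_id.add continuous_const)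
  contOn := by
    have h2 : Continuous (fun p : V × UnitAddTorus (Fin 2) =>
        ((p.1, p.2 + sf p.1) : V × UnitAddTorus (Fin 2))) :=
      continuous_fst.prodMk (continuous_snd.add (hsf.comp continuous_fst))
    have h3 := (continuous_GS h0 h1 (P := P) (V := V) fun v hv => (hsub v hv).1).comp h2
    exact h3
  bound v hv z := (norm_GS_mem h0 h1 (norm_eq_of_mem_sphere v) (hsub v hv).1 _).2
  meas := measurable_omS P
  freq k hk N hN := by
    refine measure_mono_null ?_ (freqS_null h0 h1 hn hP1 hk hN)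
    rintro v ⟨hv, hvN⟩
    exact ⟨hsub v hv, hvN⟩
  photon := hph
  inside v hv z := by
    have h2 := norm_GS_mem h0 h1 (norm_eq_of_mem_sphere v) (hsub v hv).1 (P := P) (z + sf v)
    exact mem_closure_sh1 h0 h1 h2.1 h2.2

/-- the partial model of the directions which do not meet the inner sphere -/
theorem pmB (hn : 2 ≤ n) {P : Euc n} (hP1 : α < ‖P‖) (hP2 : ‖P‖ < 1) :
    PM (sh1 n α) P {v : Sp n | α < mv P (v : Euc n)}
      (fun v z => GG P (v : Euc n) (z + sh P (v : Euc n))) (fun v => om P (v : Euc n)) 1 where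
  isOpen := isOpen_lt continuous_const ((continuous_mv P).comp continuous_subtype_val)
  cont v := (continuous_GG_right P v).comp (continuous_id.add continuous_const)
  contOn := by
    have h2 : Continuous (fun p : ↥{v : Sp n | α < mv P (v : Euc n)} × UnitAddTorus (Fin 2) =>
        ((⟨p.1.1, h0.trans p.1.2⟩, p.2 + sh P ((p.1 : Sp n) : Euc n)) :
          V0 P × UnitAddTorus (Fin 2))) := by
      refine Continuous.prodMk ?_ (continuous_snd.add ?_)
      · exact Continuous.subtype_mk (continuous_subtype_val.comp continuous_fst) _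
      · exact (continuous_sh hP2).comp
          (continuous_subtype_val.comp (continuous_subtype_val.comp continuous_fst))
    have h3 := (continuous_GG P).comp h2
    exact h3
  bound v hv z := norm_GG_le (norm_eq_of_mem_sphere v) (h0.trans hv) _
  meas := ((continuous_om hP2).comp continuous_subtype_val).measurable
  freq k hk N hN := by
    have hP0 : P ≠ 0 := by
      intro h
      rw [h, norm_zero] at hP1
      linarith
    refine measure_mono_null ?_ (freq_null hn hP0 hP2 hk hN)
    rintro v ⟨_, hvN⟩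
    exact hvN
  photon v hv t ht := by
    have hv1 : ‖(v : Euc n)‖ = 1 := norm_eq_of_mem_sphere v
    have h2 := photon_GG (by omega) hP2 hv1 (h0.trans hv) ht
    refine ball_to_shell h0 h1 (by omega) h2 hv1 ?_
    rw [← mv_sq hv1]
    exact pow_lt_pow_left₀ hv h0.le two_ne_zero
  inside v hv z := by
    have hv1 : ‖(v : Euc n)‖ = 1 := norm_eq_of_mem_sphere v
    refine mem_closure_sh1 h0 h1 ?_ (norm_GG_le hv1 (h0.trans hv) _)
    obtain ⟨h2, h3, _⟩ := bv_spec hv1 (h0.trans hv)
    unfold GG
    rw [norm_pl hv1 h2 h3, norm_mul, Circle.norm_coe, one_mul]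
    unfold zc zeta
    set y : ℝ := (AddCircle.equivIco 1 0 ((z + sh P (v : Euc n)) 0) : ℝ)
    have h4 := norm_sq_chord (2 * Real.sin (thv P (v : Euc n)) * y - Real.sin (thv P (v : Euc n)))
      (Real.cos (thv P (v : Euc n))) 1 (by simp)
    rw [mul_one] at h4
    rw [norm_mul, Complex.norm_exp_ofReal_mul_I, mul_one]
    refine le_of_sq_le_sq ?_ (norm_nonneg _)
    rw [h4, ← cos_thv hP2 hv1]
    have h5 : α ^ 2 < mv P (v : Euc n) ^ 2 := pow_lt_pow_left₀ hv h0.le two_ne_zero
    nlinarith [sq_nonneg (2 * Real.sin (thv P (v : Euc n)) * y - Real.sin (thv P (v : Euc n)))]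

end

end Pool.Agent.KS6_88.WF
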