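import Pool.Agent.KS6_88.WF.Shell
import Pool.Agent.KS6_88.WF.ACS

/-! # Positions of the photons which meet the inner sphere -/

set_option autoImplicit false

open Set Filter Topology MeasureTheory
open scoped RealInnerProductSpace

namespace Pool.Agent.KS6_88.WF

open Pool.Agent.H800R2 Pool.Agent.H800R2.Ball

variable {n : ℕ}

/-- the inner angle -/
noncomputable def tv (α : ℝ) (P v : Euc n) : ℝ := Real.arccos (mv P v / α)

/-- the frequencies -/
noncomputable def omS (α : ℝ) (P v : Euc n) : Fin 2 → ℝ :=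
  ![1 / (2 * lg α (mv P v)), dl α (mv P v) / (2 * Real.pi * lg α (mv P v))]

/-- the initial phase for paths which start outwards -/
noncomputable def xO (α : ℝ) (P v : Euc n) : ℝ :=
  (⟪P, v⟫ - Real.sqrt (α ^ 2 - mv P v ^ 2)) / (2 * lg α (mv P v))

/-- the initial phase for paths which start inwards -/
noncomputable def xI (α : ℝ) (P v : Euc n) : ℝ :=
  (⟪P, v⟫ + Real.sqrt (1 - mv P v ^ 2) + lg α (mv P v)) / (2 * lg α (mv P v))

noncomputable def shO (α : ℝ) (P v : Euc n) : UnitAddTorus (Fin 2) :=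
  ![((xO α P v : ℝ) : UnitAddCircle), ((dl α (mv P v) * xO α P v / Real.pi : ℝ) : UnitAddCircle)]

noncomputable def shI (α : ℝ) (P v : Euc n) : UnitAddTorus (Fin 2) :=
  ![((xI α P v : ℝ) : UnitAddCircle),
    ((dl α (mv P v) * xI α P v / Real.pi - thv P v / Real.pi : ℝ) : UnitAddCircle)]

/-- the position as a function on the torus -/
noncomputable def GS (α : ℝ) (P v : Euc n) (z : UnitAddTorus (Fin 2)) : Euc n :=
  pl v (bv P v) ((AddCircle.toCircle (z 1) : ℂ) * zcS α (tv α P v) (z 0))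

section
variable {α : ℝ} (h0 : 0 < α) (h1 : α < 1) {P v : Euc n} (hP1 : α < ‖P‖) (hP2 : ‖P‖ < 1)
  (hv : ‖v‖ = 1) (hm0 : 0 < mv P v) (hm1 : mv P v < α)
include h0 h1 hm0 hm1

theorem chordS : ChordS α (Real.sqrt (1 - mv P v ^ 2)) (Real.sqrt (α ^ 2 - mv P v ^ 2)) (mv P v)
    (thv P v) (tv α P v) where
  hα := h0
  hα1 := h1
  hc := by
    unfold thv
    rw [Real.sin_arccos]
  hm := by
    unfold thv
    rw [Real.cos_arccos (by linarith) (by linarith)]
  he := by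
    unfold tv
    rw [Real.sin_arccos]
    have h2 : α ^ 2 - mv P v ^ 2 = α ^ 2 * (1 - (mv P v / α) ^ 2) := by field_simp
    rw [h2, Real.sqrt_mul (sq_nonneg α), Real.sqrt_sq h0.le]
  hm' := by
    unfold tv
    rw [Real.cos_arccos]
    · field_simp
    · have : 0 < mv P v / α := div_pos hm0 h0
      linarith
    · rw [div_le_one h0]
      exact hm1.le
  hc0 := Real.sqrt_pos.2 (by nlinarith)
  he0 := Real.sqrt_pos.2 (by nlinarith)

theorem thS_tv : thS α (tv α P v) = thv P v := by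
  unfold thS
  rw [← (chordS h0 h1 hm0 hm1).hm']
  rfl

theorem zetaS_tv (x : ℝ) : zetaS α (tv α P v) x =
    prof (Real.sqrt (1 - mv P v ^ 2)) (Real.sqrt (α ^ 2 - mv P v ^ 2)) (mv P v) (thv P v) x *
      Complex.exp (((-(2 * (thv P v - tv α P v) * x) : ℝ) : ℂ) * Complex.I) := by
  unfold zetaS
  rw [thS_tv h0 h1 hm0 hm1, ← (chordS h0 h1 hm0 hm1).hc, ← (chordS h0 h1 hm0 hm1).he,
    ← (chordS h0 h1 hm0 hm1).hm]

include hP1 hP2 hv

theorem photon_GS_out (hs : 0 < ⟪P, v⟫) {t : ℝ} (ht : 0 ≤ t) :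
    Photon (sh1 n α) P v t (GS α P v (wr t (omS α P v) + shO α P v)) := by
  obtain ⟨hb1, hb2, hb3⟩ := bv_spec hv hm0
  have H := chordS h0 h1 hm0 hm1
  have hm2 := mv_sq (P := P) hv
  set m := mv P v with hm
  set c := Real.sqrt (1 - m ^ 2) with hc
  set e := Real.sqrt (α ^ 2 - m ^ 2) with he
  have hc2 : c ^ 2 = 1 - m ^ 2 := Real.sq_sqrt (by nlinarith)
  have he2 : e ^ 2 = α ^ 2 - m ^ 2 := Real.sq_sqrt (by nlinarith)
  have hlg : lg α m = c - e := rfl
  have hec := H.hec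
  have hl : 0 < c - e := by linarith
  have hPα : α ^ 2 < ‖P‖ ^ 2 := pow_lt_pow_left₀ hP1 h0.le two_ne_zero
  have hP1' : ‖P‖ ^ 2 < 1 := by nlinarith [norm_nonneg P]
  have h2 : e ≤ ⟪P, v⟫ := le_of_sq_le_sq (by nlinarith) hs.le
  have h3 : ⟪P, v⟫ < c := lt_of_pow_lt_pow_left₀ 2 H.hc0.le (by nlinarith)
  set S := (t + ⟪P, v⟫ - e) / (2 * (c - e)) with hS
  have hS2 : 2 * (c - e) * S = t + ⟪P, v⟫ - e := by
    rw [hS]
    field_simp
  have hS0 : 0 ≤ S := div_nonneg (by linarith) (by linarith)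
  have h4 := H.start_out hv hb1 hb2 (Ω := sh1 n α) (fun x hx1 hx2 => ⟨hx1, hx2⟩)
    (fun x hx => ⟨mem_frontier_sh1 h0 h1 (Or.inr hx), isOuterNormal_out h1 hx⟩)
    (fun x hx => ⟨mem_frontier_sh1 h0 h1 (Or.inl hx), isOuterNormal_in h0 h1 hx⟩)
    h2 h3 ht hS2
  have e1 : pl v (bv P v) ((⟪P, v⟫ : ℂ) - m * Complex.I) = P := by
    conv_rhs => rw [hb3]
    unfold pl
    simp
    rw [sub_eq_add_neg]
  have e2 : pl v (bv P v) 1 = v := by
    unfold pl
    simp
  rw [e1, e2] at h4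
  convert h4 using 1
  unfold GS
  have hpi := Real.pi_pos
  have e3 : (wr t (omS α P v) + shO α P v) 0 = ((S : ℝ) : UnitAddCircle) := by
    simp only [Pi.add_apply, wr, omS, shO, Matrix.cons_val_zero]
    rw [← AddCircle.coe_add]
    congr 1
    unfold xO
    rw [← hm, hlg, ← he, hS]
    field_simp
    ring
  have e4 : (wr t (omS α P v) + shO α P v) 1 =
      ((dl α m * S / Real.pi : ℝ) : UnitAddCircle) := by
    simp only [Pi.add_apply, wr, omS, shO, Matrix.cons_val_one, Matrix.cons_val_zero]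
    rw [← AddCircle.coe_add]
    congr 1
    unfold xO
    rw [← hm, hlg, ← he, hS]
    field_simp
    ring
  rw [e3, e4, zcS_coe, AddCircle.toCircle_apply_mk, Circle.coe_exp, zetaS_tv h0 h1 hm0 hm1,
    ← Complex.exp_nat_mul]
  congr 1
  have hk : (⌊S⌋₊ : ℝ) = S - Int.fract S := by
    rw [natCast_floor_eq_intCast_floor hS0, Int.self_sub_fract]
  have hkC : ((⌊S⌋₊ : ℕ) : ℂ) = (S : ℂ) - (Int.fract S : ℝ) := by
    exact_mod_cast congrArg (fun x : ℝ => (x : ℂ)) hk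
  rw [mul_left_comm, ← Complex.exp_add, hkC]
  congr 2
  have hdl : dl α m = thv P v - tv α P v := rfl
  rw [hdl]
  push_cast
  field_simp
  ring

theorem photon_GS_in (hs : ⟪P, v⟫ < 0) {t : ℝ} (ht : 0 ≤ t) :
    Photon (sh1 n α) P v t (GS α P v (wr t (omS α P v) + shI α P v)) := by
  obtain ⟨hb1, hb2, hb3⟩ := bv_spec hv hm0
  have H := chordS h0 h1 hm0 hm1
  have hm2 := mv_sq (P := P) hv
  set m := mv P v with hm
  set c := Real.sqrt (1 - m ^ 2) with hc
  set e := Real.sqrt (α ^ 2 - m ^ 2) with he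
  have hc2 : c ^ 2 = 1 - m ^ 2 := Real.sq_sqrt (by nlinarith)
  have he2 : e ^ 2 = α ^ 2 - m ^ 2 := Real.sq_sqrt (by nlinarith)
  have hlg : lg α m = c - e := rfl
  have hec := H.hec
  have he0 := H.he0
  have hl : 0 < c - e := by linarith
  have hPα : α ^ 2 < ‖P‖ ^ 2 := pow_lt_pow_left₀ hP1 h0.le two_ne_zero
  have hP1' : ‖P‖ ^ 2 < 1 := by nlinarith [norm_nonneg P]
  have h2 : -c ≤ ⟪P, v⟫ := by
    have : -⟪P, v⟫ ≤ c := le_of_sq_le_sq (by nlinarith) H.hc0.le
    linarith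
  have h3 : ⟪P, v⟫ < -e := by
    have : e < -⟪P, v⟫ := lt_of_pow_lt_pow_left₀ 2 (by linarith) (by nlinarith)
    linarith
  set S := (t + ⟪P, v⟫ + c + (c - e)) / (2 * (c - e)) with hS
  have hS2 : 2 * (c - e) * S = t + ⟪P, v⟫ + c + (c - e) := by
    rw [hS]
    field_simp
  have hS0 : 0 ≤ S := div_nonneg (by linarith) (by linarith)
  have h4 := H.start_in hv hb1 hb2 (Ω := sh1 n α) (fun x hx1 hx2 => ⟨hx1, hx2⟩)
    (fun x hx => ⟨mem_frontier_sh1 h0 h1 (Or.inr hx), isOuterNormal_out h1 hx⟩)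
    (fun x hx => ⟨mem_frontier_sh1 h0 h1 (Or.inl hx), isOuterNormal_in h0 h1 hx⟩)
    h2 h3 ht hS2
  have e1 : pl v (bv P v) ((⟪P, v⟫ : ℂ) - m * Complex.I) = P := by
    conv_rhs => rw [hb3]
    unfold pl
    simp
    rw [sub_eq_add_neg]
  have e2 : pl v (bv P v) 1 = v := by
    unfold pl
    simp
  rw [e1, e2] at h4
  convert h4 using 1
  unfold GS
  have hpi := Real.pi_pos
  have e3 : (wr t (omS α P v) + shI α P v) 0 = ((S : ℝ) : UnitAddCircle) := by
    simp only [Pi.add_apply, wr, omS, shI, Matrix.cons_val_zero]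
    rw [← AddCircle.coe_add]
    congr 1
    unfold xI
    rw [← hm, hlg, ← hc, hS]
    field_simp
    ring
  have e4 : (wr t (omS α P v) + shI α P v) 1 =
      ((dl α m * S / Real.pi - thv P v / Real.pi : ℝ) : UnitAddCircle) := by
    simp only [Pi.add_apply, wr, omS, shI, Matrix.cons_val_one, Matrix.cons_val_zero]
    rw [← AddCircle.coe_add]
    congr 1
    unfold xI
    rw [← hm, hlg, ← hc, hS]
    field_simp
    ring
  rw [e3, e4, zcS_coe, AddCircle.toCircle_apply_mk, Circle.coe_exp, zetaS_tv h0 h1 hm0 hm1,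
    ← Complex.exp_nat_mul]
  congr 1
  have hk : (⌊S⌋₊ : ℝ) = S - Int.fract S := by
    rw [natCast_floor_eq_intCast_floor hS0, Int.self_sub_fract]
  have hkC : ((⌊S⌋₊ : ℕ) : ℂ) = (S : ℂ) - (Int.fract S : ℝ) := by
    exact_mod_cast congrArg (fun x : ℝ => (x : ℂ)) hk
  rw [mul_left_comm, ← Complex.exp_add, hkC, ← Complex.exp_add]
  congr 2
  have hdl : dl α m = thv P v - tv α P v := rfl
  rw [hdl]
  push_cast
  field_simp
  ring

end

end Pool.Agent.KS6_88.WF
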