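import Pool.Agent.KS6_88.WF.ShellE
import Pool.Agent.KS6_88.WF.Class

/-! # Balls and spherical shells are smooth domains -/

set_option autoImplicit false

open Set Filter Topology MeasureTheory
open scoped RealInnerProductSpace

namespace Pool.Agent.KS6_88.WF

open Pool.Agent.H800R2 Pool.Agent.H800R2.Ball

variable {n : ℕ}

theorem isSmoothDomain_ball {c : Euc n} {r : ℝ} (hr : 0 < r) :
    IsSmoothDomain (Metric.ball c r) where
  isOpen := Metric.isOpen_ball
  isConnected := ⟨⟨c, Metric.mem_ball_self hr⟩, (convex_ball c r).isPreconnected⟩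
  isBounded := Metric.isBounded_ball
  smooth x hx := by
    rw [frontier_ball _ hr.ne', mem_sphere_iff_norm] at hx
    exact ⟨_, (isDefFun_ball hr hx).1⟩

theorem shell_eq_image {c : Euc n} {r₁ r₂ : ℝ} (hr : 0 < r₁) :
    {x : Euc n | r₁ < ‖x - c‖ ∧ ‖x - c‖ < r₂} =
      (fun p : ℝ × Euc n => c + p.1 • p.2) '' (Ioo r₁ r₂ ×ˢ Metric.sphere (0 : Euc n) 1) := by
  ext x
  constructor
  · rintro ⟨h1, h2⟩
    have h3 : 0 < ‖x - c‖ := hr.trans h1
    refine ⟨(‖x - c‖, ‖x - c‖⁻¹ • (x - c)), ⟨⟨h1, h2⟩, ?_⟩, ?_⟩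
    · rw [mem_sphere_zero_iff_norm]
      simp only
      rw [norm_smul, norm_inv, norm_norm, inv_mul_cancel₀ h3.ne']
    · simp only
      rw [smul_smul, mul_inv_cancel₀ h3.ne', one_smul, add_sub_cancel]
  · rintro ⟨⟨t, u⟩, ⟨⟨h1, h2⟩, hu⟩, rfl⟩
    rw [mem_sphere_zero_iff_norm] at hu
    simp only at h1 h2 hu
    have h3 : ‖c + t • u - c‖ = t := by
      rw [add_sub_cancel_left, norm_smul, hu, mul_one, Real.norm_of_nonneg (hr.trans h1).le]
    simp only [mem_ofPred_eq]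
    rw [h3]
    exact ⟨h1, h2⟩

theorem isSmoothDomain_shell (hn : 2 ≤ n) {c : Euc n} {r₁ r₂ : ℝ} (hr : 0 < r₁) (h12 : r₁ < r₂) :
    IsSmoothDomain {x : Euc n | r₁ < ‖x - c‖ ∧ ‖x - c‖ < r₂} where
  isOpen := by
    have hc : Continuous (fun x : Euc n => ‖x - c‖) := by fun_prop
    exact (isOpen_lt continuous_const hc).inter (isOpen_lt hc continuous_const)
  isConnected := by
    rw [shell_eq_image hr]
    have hrank : 1 < Module.rank ℝ (Euc n) := by
      rw [← Module.finrank_eq_rank, finrank_euclideanSpace_fin]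
      exact_mod_cast hn
    have h1 := isConnected_sphere hrank (0 : Euc n) zero_le_one
    refine ((isConnected_Ioo h12).prod h1).image _ ?_
    exact Continuous.continuousOn (by fun_prop)
  isBounded := by
    refine (Metric.isBounded_ball (x := c) (r := r₂)).subset ?_
    rintro x ⟨_, h2⟩
    rw [mem_ball_iff_norm]
    exact h2
  smooth x hx := by
    have hc : Continuous (fun x : Euc n => ‖x - c‖) := by fun_prop
    have hr2 : 0 < r₂ := hr.trans h12
    have hcl : closure {x : Euc n | r₁ < ‖x - c‖ ∧ ‖x - c‖ < r₂} ⊆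
        {x : Euc n | r₁ ≤ ‖x - c‖ ∧ ‖x - c‖ ≤ r₂} := by
      refine closure_minimal (fun y hy => ⟨hy.1.le, hy.2.le⟩) ?_
      exact (isClosed_le continuous_const hc).inter (isClosed_le hc continuous_const)
    have ho : IsOpen {x : Euc n | r₁ < ‖x - c‖ ∧ ‖x - c‖ < r₂} :=
      (isOpen_lt continuous_const hc).inter (isOpen_lt hc continuous_const)
    rw [ho.frontier_eq] at hx
    obtain ⟨hx1, hx2⟩ := hx
    have hx3 := hcl hx1
    rcases hx3.1.eq_or_lt with h | h
    · -- inner sphere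
      have h0 : 0 < r₁ / r₂ := div_pos hr hr2
      have h1 : r₁ / r₂ < 1 := by rw [div_lt_one hr2]; linarith
      have hΩ : ∀ x : Euc n, x ∈ sh1 n (r₁ / r₂) ↔
          c + r₂ • x ∈ {x : Euc n | r₁ < ‖x - c‖ ∧ ‖x - c‖ < r₂} := by
        intro x
        simp only [sh1, mem_ofPred_eq, add_sub_cancel_left, norm_smul, Real.norm_of_nonneg hr2.le]
        rw [div_lt_iff₀ hr2, mul_comm ‖x‖ r₂, mul_lt_iff_lt_one_right hr2]
      have hy : ‖r₂⁻¹ • (x - c)‖ = r₁ / r₂ := by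
        rw [norm_smul, norm_inv, Real.norm_of_nonneg hr2.le, div_eq_inv_mul, ← h]
      have h2 := isDefFun_sim hr2 hΩ (isDefFun_in h0 h1 hy).1
      have hxe : c + r₂ • (r₂⁻¹ • (x - c)) = x := by
        rw [smul_smul, mul_inv_cancel₀ hr2.ne', one_smul, add_sub_cancel]
      rw [hxe] at h2
      exact ⟨_, h2⟩
    · rcases hx3.2.eq_or_lt with h' | h'
      · obtain ⟨⟨h2, h3, h4⟩, _⟩ := isDefFun_ball hr2 h'
        refine ⟨_, h2, h3, ?_⟩
        have h5 : ∀ᶠ y : Euc n in 𝓝 x, r₁ < ‖y - c‖ :=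
          hc.continuousAt.eventually (lt_mem_nhds h)
        filter_upwards [h4, h5] with y hy hy2
        rw [← hy, mem_ball_iff_norm]
        exact ⟨fun h => h.2, fun h => ⟨hy2, h⟩⟩
      · exact absurd ⟨h, h'⟩ hx2

/-- The bounded smooth domains which are radially symmetric about `c` are the balls and the
spherical shells around `c`. -/
theorem radial_iff (hn : 2 ≤ n) (Ω : Set (Euc n)) (c : Euc n) :
    (IsSmoothDomain Ω ∧ ∀ x y : Euc n, ‖x - c‖ = ‖y - c‖ → x ∈ Ω → y ∈ Ω) ↔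
      ((∃ r, 0 < r ∧ Ω = Metric.ball c r) ∨
        ∃ r₁ r₂ : ℝ, 0 < r₁ ∧ r₁ < r₂ ∧ Ω = {x | r₁ < ‖x - c‖ ∧ ‖x - c‖ < r₂}) := by
  constructor
  · rintro ⟨h1, h2⟩
    exact radial_classification (by omega) h1 h2
  · rintro (⟨r, hr, rfl⟩ | ⟨r₁, r₂, hr, h12, rfl⟩)
    · refine ⟨isSmoothDomain_ball hr, fun x y hxy hx => ?_⟩
      rw [mem_ball_iff_norm] at hx ⊢
      rw [← hxy]
      exact hx
    · refine ⟨isSmoothDomain_shell hn hr h12, fun x y hxy hx => ?_⟩
      simp only [mem_ofPred_eq] at hx ⊢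
      rw [← hxy]
      exact hx

/-- **Radially symmetric domains.** -/
theorem radial_main (hn : 2 ≤ n) {Ω : Set (Euc n)} (hΩ : IsSmoothDomain Ω) {c : Euc n}
    (hrad : ∀ x y : Euc n, ‖x - c‖ = ‖y - c‖ → x ∈ Ω → y ∈ Ω) {P : Euc n} (hP : P ∈ Ω) :
    (P ≠ c → LightEquidistributes Ω P) ∧ (FrontsBecomeDense Ω P ↔ P ≠ c) := by
  rcases radial_classification (by omega) hΩ hrad with ⟨r, hr, rfl⟩ | ⟨r₁, r₂, hr, h12, rfl⟩
  · exact ⟨fun h => ball_equi hn hP h, dense_iff hn hP⟩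
  · have hPc : P ≠ c := by
      rintro rfl
      have := hP.1
      rw [sub_self, norm_zero] at this
      linarith
    have h1 := shell_equi hn (c := c) hr hP.1 hP.2
    exact ⟨fun _ => h1, fun _ => hPc, fun _ => h1.dense hΩ.isBounded⟩

end Pool.Agent.KS6_88.WF
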