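import Pool.Agent.KS6_88.WF.FlightS

/-! # The profile of the paths between two spheres as a function on the circle -/

set_option autoImplicit false

open Set Filter Topology
open scoped RealInnerProductSpace

namespace Pool.Agent.KS6_88.WF

open Pool.Agent.H800R2 Pool.Agent.H800R2.Ball

/-- the outer angle as a function of the inner one -/
noncomputable def thS (α τ : ℝ) : ℝ := Real.arccos (α * Real.cos τ)

/-- the profile in the rotating frame -/
noncomputable def zetaS (α τ x : ℝ) : ℂ :=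
  prof (Real.sin (thS α τ)) (α * Real.sin τ) (Real.cos (thS α τ)) (thS α τ) x *
    Complex.exp (((-(2 * (thS α τ - τ) * x) : ℝ) : ℂ) * Complex.I)

theorem continuous_thS (α : ℝ) : Continuous (thS α) := by
  unfold thS
  exact Real.continuous_arccos.comp (by fun_prop)

theorem cos_thS {α τ : ℝ} (h0 : 0 < α) (h1 : α < 1) : Real.cos (thS α τ) = α * Real.cos τ := by
  unfold thS
  have h2 := Real.neg_one_le_cos τ
  have h3 := Real.cos_le_one τ
  exact Real.cos_arccos (by nlinarith) (by nlinarith)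

theorem continuous_zetaS (α : ℝ) : Continuous (fun p : ℝ × ℝ => zetaS α p.1 p.2) := by
  have hθ : Continuous (fun p : ℝ × ℝ => thS α p.1) := (continuous_thS α).comp continuous_fst
  unfold zetaS prof
  refine Continuous.mul ?_ ?_
  · refine Continuous.if_le ?_ ?_ continuous_snd continuous_const ?_
    · fun_prop
    · fun_prop
    · intro p hp
      have h1 := prof_of_ge (c := Real.sin (thS α p.1)) (m := Real.cos (thS α p.1))
        (e := α * Real.sin p.1) (x := p.2) rfl rfl hp.symm.le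
      unfold prof at h1
      rw [if_pos hp.le] at h1
      exact h1
  · fun_prop

theorem zetaS_zero_one {α : ℝ} (h0 : 0 < α) (h1 : α < 1) (τ : ℝ) :
    zetaS α τ 0 = zetaS α τ 1 := by
  unfold zetaS
  rw [prof_of_ge (x := 1) rfl rfl (by norm_num)]
  unfold prof
  rw [if_pos (by norm_num)]
  have h2 := cos_thS (τ := τ) h0 h1
  have h3 := neg_sq_in (e := α * Real.sin τ) (m := Real.cos (thS α τ)) h0 rfl h2
  have h4 : (α : ℂ) ≠ 0 := by exact_mod_cast h0.ne'
  set c := Real.sin (thS α τ)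
  set e := α * Real.sin τ with he
  set m := Real.cos (thS α τ) with hm
  have hem : (e : ℂ) ^ 2 + (m : ℂ) ^ 2 = (α : ℂ) ^ 2 := by
    have : e ^ 2 + m ^ 2 = α ^ 2 := by
      rw [he, h2]
      linear_combination α ^ 2 * Real.sin_sq_add_cos_sq τ
    exact_mod_cast this
  have e1 : Complex.exp (((2 * thS α τ : ℝ) : ℂ) * Complex.I) *
      Complex.exp (((-(2 * (thS α τ - τ) * 1) : ℝ) : ℂ) * Complex.I) *
      Complex.exp (((-(2 * τ) : ℝ) : ℂ) * Complex.I) = 1 := by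
    rw [← Complex.exp_add, ← Complex.exp_add, ← Complex.exp_zero]
    congr 1
    push_cast
    ring
  have e2 : Complex.exp (((-(2 * (thS α τ - τ) * 0) : ℝ) : ℂ) * Complex.I) = 1 := by simp
  rw [e2, mul_one]
  rw [← h3] at e1
  set E := Complex.exp (((2 * thS α τ : ℝ) : ℂ) * Complex.I) *
      Complex.exp (((-(2 * (thS α τ - τ) * 1) : ℝ) : ℂ) * Complex.I)
  have e3 : E * (-((e : ℂ) + m * Complex.I) ^ 2) = (α : ℂ) ^ 2 := by
    rw [mul_div_assoc'] at e1
    rw [div_eq_iff (pow_ne_zero 2 h4), one_mul] at e1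
    exact e1
  have e4 : ((e : ℂ) - m * Complex.I) * (e + m * Complex.I) = (α : ℂ) ^ 2 := by
    linear_combination hem - (m : ℂ) ^ 2 * Complex.I_sq
  have e5 : (α : ℂ) ^ 2 * (((e + 2 * (c - e) * 0 : ℝ) : ℂ) - m * Complex.I) =
      (α : ℂ) ^ 2 * ((((-c + (c - e) * (2 * 1 - 1) : ℝ) : ℂ) - m * Complex.I) * E) := by
    push_cast
    linear_combination (-((e : ℂ) - m * Complex.I)) * e3 - ((e : ℂ) + m * Complex.I) * E * e4
  exact (mul_left_cancel₀ (pow_ne_zero 2 h4) e5).trans (mul_assoc _ _ _).symm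

/-- the profile on the circle -/
noncomputable def zcS (α τ : ℝ) (x : UnitAddCircle) : ℂ :=
  zetaS α τ (AddCircle.equivIco 1 0 x : ℝ)

theorem zcS_coe (α τ x : ℝ) : zcS α τ (x : UnitAddCircle) = zetaS α τ (Int.fract x) := by
  unfold zcS
  congr 1
  have h := AddCircle.coe_equivIco_mk_apply (p := (1 : ℝ)) x
  rw [div_one, mul_one] at h
  exact h

theorem continuous_zcS {α : ℝ} (h0 : 0 < α) (h1 : α < 1) :
    Continuous (fun p : ℝ × UnitAddCircle => zcS α p.1 p.2) := by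
  have hq : IsOpenQuotientMap (Prod.map (id : ℝ → ℝ) ((↑) : ℝ → UnitAddCircle)) :=
    IsOpenQuotientMap.id.prodMap QuotientAddGroup.isOpenQuotientMap_mk
  rw [← hq.continuous_comp_iff]
  have h2 : ((fun p : ℝ × UnitAddCircle => zcS α p.1 p.2) ∘
      (Prod.map (id : ℝ → ℝ) ((↑) : ℝ → UnitAddCircle))) =
      fun p : ℝ × ℝ => zetaS α p.1 (Int.fract p.2) := by
    ext p
    simp only [Function.comp, Prod.map, id]
    exact zcS_coe _ _ _
  rw [h2]
  refine ContinuousOn.comp_fract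
    (f := fun (p : ℝ × ℝ) (x : ℝ) => zetaS α p.1 x) ?_
    continuous_snd (fun p => zetaS_zero_one h0 h1 p.1)
  refine Continuous.continuousOn ?_
  exact (continuous_zetaS α).comp (by fun_prop : Continuous fun q : (ℝ × ℝ) × ℝ => (q.1.1, q.2))

/-- the norm of the profile -/
theorem norm_zetaS_sq (α τ x : ℝ) : ∃ σ : ℝ, ‖zetaS α τ x‖ ^ 2 = σ ^ 2 + Real.cos (thS α τ) ^ 2 ∧
    ((x ≤ 1 / 2 ∧ σ = α * Real.sin τ + 2 * (Real.sin (thS α τ) - α * Real.sin τ) * x) ∨
      (1 / 2 < x ∧ σ = -Real.sin (thS α τ) +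
        (Real.sin (thS α τ) - α * Real.sin τ) * (2 * x - 1))) := by
  unfold zetaS prof
  rcases le_or_gt x (1 / 2) with h | h
  · rw [if_pos h]
    refine ⟨_, ?_, Or.inl ⟨h, rfl⟩⟩
    rw [norm_mul, Complex.norm_exp_ofReal_mul_I, mul_one]
    have h1 := norm_sq_chord (α * Real.sin τ + 2 * (Real.sin (thS α τ) - α * Real.sin τ) * x)
      (Real.cos (thS α τ)) 1 (by simp)
    rw [mul_one] at h1
    exact h1
  · rw [if_neg (not_le.2 h)]
    refine ⟨_, ?_, Or.inr ⟨h, rfl⟩⟩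
    rw [norm_mul, norm_mul, Complex.norm_exp_ofReal_mul_I, Complex.norm_exp_ofReal_mul_I, mul_one,
      mul_one]
    have h1 := norm_sq_chord (-Real.sin (thS α τ) +
      (Real.sin (thS α τ) - α * Real.sin τ) * (2 * x - 1)) (Real.cos (thS α τ)) 1 (by simp)
    rw [mul_one] at h1
    exact h1

theorem sin_le {α τ : ℝ} (h0 : 0 < α) (h1 : α < 1) :
    α * Real.sin τ ≤ Real.sin (thS α τ) := by
  have h2 := cos_thS (τ := τ) h0 h1
  have h3 := Real.sin_sq_add_cos_sq (thS α τ)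
  have h4 := Real.sin_sq_add_cos_sq τ
  have h5 : 0 ≤ Real.sin (thS α τ) :=
    Real.sin_nonneg_of_nonneg_of_le_pi (Real.arccos_nonneg _) (Real.arccos_le_pi _)
  rw [h2] at h3
  refine le_of_sq_le_sq ?_ h5
  have e1 : (α * Real.sin τ) ^ 2 = α ^ 2 - (α * Real.cos τ) ^ 2 := by
    linear_combination α ^ 2 * h4
  have e2 : α ^ 2 ≤ 1 := by nlinarith
  linarith

theorem norm_zetaS_mem {α τ x : ℝ} (h0 : 0 < α) (h1 : α < 1) (hτ : 0 ≤ Real.sin τ)
    (hx : x ∈ Icc (0 : ℝ) 1) : α ≤ ‖zetaS α τ x‖ ∧ ‖zetaS α τ x‖ ≤ 1 := by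
  obtain ⟨σ, h2, h3⟩ := norm_zetaS_sq α τ x
  have h4 := sin_le (τ := τ) h0 h1
  have h5 := cos_thS (τ := τ) h0 h1
  have h6 := Real.sin_sq_add_cos_sq (thS α τ)
  have h7 := Real.sin_sq_add_cos_sq τ
  have h8 : α * Real.sin τ ≤ |σ| ∧ |σ| ≤ Real.sin (thS α τ) := by
    have he : 0 ≤ α * Real.sin τ := by positivity
    rcases h3 with ⟨h9, h10⟩ | ⟨h9, h10⟩
    · have h11 : 0 ≤ σ := by rw [h10]; nlinarith [hx.1]
      rw [abs_of_nonneg h11, h10]
      constructor
      · nlinarith [hx.1]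
      · nlinarith [hx.1]
    · have h11 : σ ≤ 0 := by rw [h10]; nlinarith [hx.2]
      rw [abs_of_nonpos h11, h10]
      constructor
      · nlinarith [hx.2]
      · nlinarith [hx.2]
  have he : 0 ≤ α * Real.sin τ := by positivity
  have h9 : (α * Real.sin τ) ^ 2 ≤ σ ^ 2 := by
    rw [← sq_abs σ]
    exact pow_le_pow_left₀ he h8.1 2
  have h10 : σ ^ 2 ≤ Real.sin (thS α τ) ^ 2 := by
    rw [← sq_abs σ]
    exact pow_le_pow_left₀ (abs_nonneg _) h8.2 2
  constructor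
  · refine le_of_sq_le_sq ?_ (norm_nonneg _)
    rw [h2, h5]
    nlinarith
  · refine le_of_sq_le_sq ?_ zero_le_one
    rw [h2]
    nlinarith

theorem sin_lt {α τ : ℝ} (h0 : 0 < α) (h1 : α < 1) :
    α * Real.sin τ < Real.sin (thS α τ) := by
  refine lt_of_le_of_ne (sin_le h0 h1) fun h => ?_
  have h2 := cos_thS (τ := τ) h0 h1
  have h3 := Real.sin_sq_add_cos_sq (thS α τ)
  have h4 := Real.sin_sq_add_cos_sq τ
  rw [h2, ← h] at h3
  have e1 : (α * Real.sin τ) ^ 2 = α ^ 2 - (α * Real.cos τ) ^ 2 := by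
    linear_combination α ^ 2 * h4
  have e2 : α ^ 2 < 1 := by nlinarith
  linarith

/-- the profile takes all moduli between `α` and `1` -/
theorem exists_zetaS {α τ R : ℝ} (h0 : 0 < α) (h1 : α < 1) (hτ : 0 ≤ Real.sin τ) (hR : α ≤ R)
    (hR1 : R ≤ 1) : ∃ x ∈ Ico (0 : ℝ) 1, ‖zetaS α τ x‖ = R := by
  have h2 := cos_thS (τ := τ) h0 h1
  have h3 := Real.sin_sq_add_cos_sq (thS α τ)
  have h4 := Real.sin_sq_add_cos_sq τ
  have h5 := sin_lt (τ := τ) h0 h1
  have he : 0 ≤ α * Real.sin τ := by positivity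
  have e1 : (α * Real.sin τ) ^ 2 = α ^ 2 - Real.cos (thS α τ) ^ 2 := by
    rw [h2]
    linear_combination α ^ 2 * h4
  have hR2 : α ^ 2 ≤ R ^ 2 := pow_le_pow_left₀ h0.le hR 2
  have hR3 : R ^ 2 ≤ 1 := pow_le_one₀ (h0.le.trans hR) hR1
  have h6 : 0 ≤ R ^ 2 - Real.cos (thS α τ) ^ 2 := by nlinarith [sq_nonneg (α * Real.sin τ)]
  set d := Real.sqrt (R ^ 2 - Real.cos (thS α τ) ^ 2) with hd
  have hd2 : d ^ 2 = R ^ 2 - Real.cos (thS α τ) ^ 2 := Real.sq_sqrt h6
  have hd0 : 0 ≤ d := Real.sqrt_nonneg _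
  have hd1 : α * Real.sin τ ≤ d := le_of_sq_le_sq (by rw [e1, hd2]; linarith) hd0
  have hd3 : d ≤ Real.sin (thS α τ) := le_of_sq_le_sq (by rw [hd2]; linarith) (he.trans h5.le)
  set x := (d - α * Real.sin τ) / (2 * (Real.sin (thS α τ) - α * Real.sin τ)) with hx
  have hx0 : 0 ≤ x := div_nonneg (by linarith) (by linarith)
  have hx1 : x ≤ 1 / 2 := by
    rw [hx, div_le_iff₀ (by linarith)]
    linarith
  refine ⟨x, ⟨hx0, by linarith⟩, ?_⟩
  unfold zetaS prof
  rw [if_pos hx1, norm_mul, Complex.norm_exp_ofReal_mul_I, mul_one]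
  have h7 := norm_sq_chord (α * Real.sin τ + 2 * (Real.sin (thS α τ) - α * Real.sin τ) * x)
    (Real.cos (thS α τ)) 1 (by simp)
  rw [mul_one] at h7
  have h8 : α * Real.sin τ + 2 * (Real.sin (thS α τ) - α * Real.sin τ) * x = d := by
    rw [hx]
    have : Real.sin (thS α τ) - α * Real.sin τ ≠ 0 := by linarith
    field_simp
    ring
  rw [h8] at h7 ⊢
  rw [← sq_eq_sq₀ (norm_nonneg _) (h0.le.trans hR), h7]
  linarith

end Pool.Agent.KS6_88.WF
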